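import Pool.Agent.Lib_MP_0cf6e1_g.Defs

set_option autoImplicit false

open scoped Classical

namespace Pool.Agent.BoolWidth

theorem card_graded {w : ℕ} {V : Type} [Fintype V] (M : MG w V) (lev : V → ℕ) (T m : ℕ) (hG : Graded M lev T m) :
    Fintype.card V = w * m * T ∧
      ∀ t, t < T → (Finset.univ.filter (fun v => lev v = t)).card = w * m := by
  have h1 : ∀ t, t < T → (Finset.univ.filter (fun v => lev v = t)).card = w * m := by
    intro t ht
    have e1 := Finset.card_eq_sum_card_fiberwise (f := M.ch)
      (s := Finset.univ.filter (fun v => lev v = t)) (t := Finset.univ)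
      (fun v _ => Finset.mem_coe.2 (Finset.mem_univ _))
    rw [e1]
    have e2 : ∀ c ∈ (Finset.univ : Finset (Fin w)),
        ((Finset.univ.filter (fun v => lev v = t)).filter (fun v => M.ch v = c)).card = m := by
      intro c _
      rw [← hG.cell c t ht, Finset.filter_filter]
      congr 1
      ext v
      simp only [Finset.mem_filter, Finset.mem_univ, true_and]
      tauto
    rw [Finset.sum_congr rfl e2, Finset.sum_const, Finset.card_univ, Fintype.card_fin, smul_eq_mul]
  refine ⟨?_, h1⟩
  have e1 := Finset.card_eq_sum_card_fiberwise (f := lev)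
    (s := (Finset.univ : Finset V)) (t := Finset.range T)
    (fun v _ => Finset.mem_coe.2 (Finset.mem_range.2 (hG.lt v)))
  have e2 : ∀ t ∈ Finset.range T,
      ((Finset.univ : Finset V).filter (fun v => lev v = t)).card = w * m :=
    fun t ht => h1 t (Finset.mem_range.1 ht)
  rw [← Finset.card_univ, e1, Finset.sum_congr rfl e2, Finset.sum_const, Finset.card_range,
    smul_eq_mul, mul_comm]

end Pool.Agent.BoolWidth
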