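import Pool.Agent.Lib_MP_0cf6e1_g.PathG

set_option autoImplicit false

open scoped Classical

namespace Pool.Agent.BoolWidth

/-- the arcs which meet `Z` -/
private theorem clean_lost {w : ℕ} {V : Type} [Fintype V] (M : MG w V) (A : V → V → Prop)
    (hA : ∀ u v, A u v → M.E u v) (Z : Finset V) :
    eIn A Finset.univ ≤ eIn (fun u v => A u v ∧ u ∉ Z ∧ v ∉ Z) Finset.univ + 2 * (w * Z.card) := by
  have hdeg := M.deg
  have h1 : ∀ (P : Finset (V × V)), (∀ p ∈ P, M.E p.1 p.2 ∧ p.1 ∈ Z) → P.card ≤ w * Z.card := by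
    intro P hP
    have h2 : P.card ≤ (w - 1) * (P.image Prod.fst).card := by
      apply Finset.card_le_mul_card_image
      intro a _
      have h3 : ((P.filter (fun x => x.1 = a)).image Prod.snd).card = (P.filter (fun x => x.1 = a)).card := by
        apply Finset.card_image_of_injOn
        intro x hx y hy hxy
        have hx' := (Finset.mem_filter.1 (Finset.mem_coe.1 hx)).2
        have hy' := (Finset.mem_filter.1 (Finset.mem_coe.1 hy)).2
        exact Prod.ext (hx'.trans hy'.symm) hxy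
      rw [← h3]
      apply hdeg.1 a
      intro u hu
      obtain ⟨x, hx, rfl⟩ := Finset.mem_image.1 hu
      have hx' := Finset.mem_filter.1 hx
      rw [← hx'.2]
      exact (hP x hx'.1).1
    have h4 : (P.image Prod.fst).card ≤ Z.card := by
      apply Finset.card_le_card
      intro a ha
      obtain ⟨x, hx, rfl⟩ := Finset.mem_image.1 ha
      exact (hP x hx).2
    exact h2.trans (Nat.mul_le_mul (by omega) h4)
  have h1' : ∀ (P : Finset (V × V)), (∀ p ∈ P, M.E p.1 p.2 ∧ p.2 ∈ Z) → P.card ≤ w * Z.card := by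
    intro P hP
    have h2 : P.card ≤ (w - 1) * (P.image Prod.snd).card := by
      apply Finset.card_le_mul_card_image
      intro a _
      have h3 : ((P.filter (fun x => x.2 = a)).image Prod.fst).card = (P.filter (fun x => x.2 = a)).card := by
        apply Finset.card_image_of_injOn
        intro x hx y hy hxy
        have hx' := (Finset.mem_filter.1 (Finset.mem_coe.1 hx)).2
        have hy' := (Finset.mem_filter.1 (Finset.mem_coe.1 hy)).2
        exact Prod.ext hxy (hx'.trans hy'.symm)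
      rw [← h3]
      apply hdeg.2 a
      intro u hu
      obtain ⟨x, hx, rfl⟩ := Finset.mem_image.1 hu
      have hx' := Finset.mem_filter.1 hx
      rw [← hx'.2]
      exact (hP x hx'.1).1
    have h4 : (P.image Prod.snd).card ≤ Z.card := by
      apply Finset.card_le_card
      intro a ha
      obtain ⟨x, hx, rfl⟩ := Finset.mem_image.1 ha
      exact (hP x hx).2
    exact h2.trans (Nat.mul_le_mul (by omega) h4)
  have h5 := h1 (((Finset.univ ×ˢ Finset.univ : Finset (V × V)).filter fun p => A p.1 p.2 ∧ p.1 ∈ Z))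
    (fun p hp => ⟨hA _ _ (Finset.mem_filter.1 hp).2.1, (Finset.mem_filter.1 hp).2.2⟩)
  have h6 := h1' (((Finset.univ ×ˢ Finset.univ : Finset (V × V)).filter fun p => A p.1 p.2 ∧ p.2 ∈ Z))
    (fun p hp => ⟨hA _ _ (Finset.mem_filter.1 hp).2.1, (Finset.mem_filter.1 hp).2.2⟩)
  have hE1 : eIn A Finset.univ = ((Finset.univ ×ˢ Finset.univ : Finset (V × V)).filter fun p => A p.1 p.2).card := by
    unfold eIn
    congr 1
  have hE2 : eIn (fun u v => A u v ∧ u ∉ Z ∧ v ∉ Z) Finset.univ =
      ((Finset.univ ×ˢ Finset.univ : Finset (V × V)).filter fun p => A p.1 p.2 ∧ p.1 ∉ Z ∧ p.2 ∉ Z).card := by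
    unfold eIn
    apply congrArg
    ext p
    simp
  rw [hE1, hE2]
  have h7 : ((Finset.univ ×ˢ Finset.univ : Finset (V × V)).filter fun p => A p.1 p.2) ⊆
      ((Finset.univ ×ˢ Finset.univ : Finset (V × V)).filter fun p => A p.1 p.2 ∧ p.1 ∉ Z ∧ p.2 ∉ Z) ∪
      (((Finset.univ ×ˢ Finset.univ : Finset (V × V)).filter fun p => A p.1 p.2 ∧ p.1 ∈ Z) ∪
      ((Finset.univ ×ˢ Finset.univ : Finset (V × V)).filter fun p => A p.1 p.2 ∧ p.2 ∈ Z)) := by
    intro p hp
    have hp' := Finset.mem_filter.1 hp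
    simp only [Finset.mem_union, Finset.mem_filter]
    by_cases ha : p.1 ∈ Z
    · exact Or.inr (Or.inl ⟨hp'.1, hp'.2, ha⟩)
    · by_cases hb : p.2 ∈ Z
      · exact Or.inr (Or.inr ⟨hp'.1, hp'.2, hb⟩)
      · exact Or.inl ⟨hp'.1, hp'.2, ha, hb⟩
  have h8 := Finset.card_le_card h7
  have h9 := Finset.card_union_le
    ((Finset.univ ×ˢ Finset.univ : Finset (V × V)).filter fun p => A p.1 p.2 ∧ p.1 ∉ Z ∧ p.2 ∉ Z)
    (((Finset.univ ×ˢ Finset.univ : Finset (V × V)).filter fun p => A p.1 p.2 ∧ p.1 ∈ Z) ∪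
      ((Finset.univ ×ˢ Finset.univ : Finset (V × V)).filter fun p => A p.1 p.2 ∧ p.2 ∈ Z))
  have h10 := Finset.card_union_le
    ((Finset.univ ×ˢ Finset.univ : Finset (V × V)).filter fun p => A p.1 p.2 ∧ p.1 ∈ Z)
    ((Finset.univ ×ˢ Finset.univ : Finset (V × V)).filter fun p => A p.1 p.2 ∧ p.2 ∈ Z)
  omega

/-- `H' j u v` = `H j u v` and `u, v` outside the union `Z` of the sets of `path_hit` for all `k ≠ j` and `1 ≤ r ≤ w` (with `K1`):
`K1 |Z| ≤ d ^ 2 w 4 (w + 1) N ≤ 8 w ^ 4 N`; at most `2 (w - 1) |Z|` arcs are lost (`M.deg`). A path of `H' j` avoids `Z`, its ends are tied in `j`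
(`weq_trans`), and a tie in `k ≠ j` would give equal labels (`labeq`) -/
theorem cd_exists {w d : ℕ} {V : Type} [Fintype V] (M : MG w V) (R : Fin d → V → V → Prop) (s K1 K b : ℕ)
    (htr : ∀ k u v t, R k u v → R k v t → R k u t) (hco : ∀ k u v t, ¬ R k u v → ¬ R k v t → ¬ R k u t)
    (lab : Fin d → V → ℕ) (H : Fin d → V → V → Prop) (hH : HD M R s K1 lab H) (hw : 2 ≤ w) (hd : d ≤ w)
    (hb : 4 * w ≤ b) (hbK : 2 * K1 ≤ b) (hK : 20 * w ^ 5 * K ≤ K1)
    (hsp : ∀ S : Finset V, S.card ≤ w * s → b * eIn M.E S ≤ (b + 2) * S.card) :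
    ∃ H' : Fin d → V → V → Prop, CD M R K H' := by
  have hex : ∀ (j k : Fin d) (r : ℕ), ∃ Z : Finset V, k ≠ j → 1 ≤ r → r ≤ w →
      (K1 * Z.card ≤ 4 * (r + 1) * Fintype.card V ∧
        ∀ c, IsPath (H j) r c → lab k (c 0) = lab k (c r) → ∃ i, i ≤ r ∧ c i ∈ Z) := by
    intro j k r
    by_cases hc : k ≠ j ∧ 1 ≤ r ∧ r ≤ w
    · obtain ⟨Z, hZ⟩ := path_hit M R s K1 b lab H hH j k hc.1 r hc.2.1 (by omega) hbK
        (fun S hS => hsp S (hS.trans (Nat.mul_le_mul_right _ hc.2.2)))
      exact ⟨Z, fun _ _ _ => hZ⟩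
    · exact ⟨∅, fun h1 h2 h3 => absurd ⟨h1, h2, h3⟩ hc⟩
  choose Zf hZf using hex
  let Zu : Fin d → Finset V := fun j =>
    (((Finset.univ.filter (fun k : Fin d => k ≠ j)) ×ˢ (Finset.Icc 1 w)).biUnion fun p => Zf j p.1 p.2)
  have hZcard : ∀ j, K1 * (Zu j).card ≤ 8 * w ^ 3 * Fintype.card V := by
    intro j
    have h1 : K1 * (Zu j).card ≤ K1 * ∑ p ∈ ((Finset.univ.filter (fun k : Fin d => k ≠ j)) ×ˢ (Finset.Icc 1 w)),
        (Zf j p.1 p.2).card := Nat.mul_le_mul_left _ Finset.card_biUnion_le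
    rw [Finset.mul_sum] at h1
    have h2 : ∑ p ∈ ((Finset.univ.filter (fun k : Fin d => k ≠ j)) ×ˢ (Finset.Icc 1 w)),
        K1 * (Zf j p.1 p.2).card ≤
        ∑ p ∈ ((Finset.univ.filter (fun k : Fin d => k ≠ j)) ×ˢ (Finset.Icc 1 w)),
          4 * (w + 1) * Fintype.card V := by
      apply Finset.sum_le_sum
      intro p hp
      obtain ⟨hp1, hp2⟩ := Finset.mem_product.1 hp
      have hp1' := (Finset.mem_filter.1 hp1).2
      have hp2' := Finset.mem_Icc.1 hp2
      refine (hZf j p.1 p.2 hp1' hp2'.1 hp2'.2).1.trans ?_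
      apply Nat.mul_le_mul_right
      omega
    rw [Finset.sum_const, smul_eq_mul, Finset.card_product, Nat.card_Icc] at h2
    have h3 : (Finset.univ.filter (fun k : Fin d => k ≠ j)).card ≤ w := by
      have := Finset.card_le_univ (Finset.univ.filter (fun k : Fin d => k ≠ j))
      rw [Fintype.card_fin] at this
      omega
    have h4 : (Finset.univ.filter (fun k : Fin d => k ≠ j)).card * (w + 1 - 1) * (4 * (w + 1) * Fintype.card V) ≤
        8 * w ^ 3 * Fintype.card V := by
      have h5 : (Finset.univ.filter (fun k : Fin d => k ≠ j)).card * (w + 1 - 1) ≤ w * w :=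
        Nat.mul_le_mul h3 (by omega)
      have h6 : 4 * (w + 1) ≤ 8 * w := by omega
      calc (Finset.univ.filter (fun k : Fin d => k ≠ j)).card * (w + 1 - 1) * (4 * (w + 1) * Fintype.card V)
          ≤ w * w * (8 * w * Fintype.card V) :=
            Nat.mul_le_mul h5 (Nat.mul_le_mul_right _ h6)
        _ = 8 * w ^ 3 * Fintype.card V := by ring
    omega
  refine ⟨fun j u v => H j u v ∧ u ∉ Zu j ∧ v ∉ Zu j, ⟨fun j u v h => hH.sub j u v h.1, ?_, ?_⟩⟩
  · intro j r c hr1 hrw hc k
    have hc' : IsPath (H j) r c :=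
      ⟨fun i hi => (hc.1 i hi).imp (fun h => h.1) (fun h => h.1), hc.2⟩
    constructor
    · intro hk
      by_contra hkj
      obtain ⟨i, hi, hiZ⟩ := (hZf j k r hkj hr1 hrw).2 c hc' (hH.labeq k _ _ hk)
      have hiZu : c i ∈ Zu j := by
        apply Finset.mem_biUnion.2
        exact ⟨(k, r), Finset.mem_product.2 ⟨Finset.mem_filter.2 ⟨Finset.mem_univ _, hkj⟩,
          Finset.mem_Icc.2 ⟨hr1, hrw⟩⟩, hiZ⟩
      rcases Nat.lt_or_ge i r with h | h
      · rcases hc.1 i h with h1 | h1
        · exact h1.2.1 hiZu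
        · exact h1.2.2 hiZu
      · have hir : i = r := le_antisymm hi h
        have h2 := hc.1 (r - 1) (by omega)
        have h3 : r - 1 + 1 = r := by omega
        rw [h3, ← hir] at h2
        rcases h2 with h1 | h1
        · exact h1.2.2 hiZu
        · exact h1.2.1 hiZu
    · rintro rfl
      have hind : ∀ i, i ≤ r → weq (R k) (c 0) (c i) := by
        intro i
        induction i with
        | zero => intro _; exact Iff.rfl
        | succ i ih =>
          intro hi
          have h1 := ih (by omega)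
          have h2 : weq (R k) (c i) (c (i + 1)) := by
            rcases hc'.1 i (by omega) with h | h
            · exact hH.tie k _ _ h
            · exact (hH.tie k _ _ h).symm
          exact weq_trans (R k) (htr k) (hco k) _ _ _ h1 h2
      exact hind r le_rfl
  · intro j
    have h1 := clean_lost M (H j) (hH.sub j) (Zu j)
    have h2 := hH.many j
    have h3 := hZcard j
    rcases Nat.eq_zero_or_pos K with hK0 | hK0
    · subst hK0
      simp
    · have hw5 : 1 ≤ w ^ 5 := Nat.one_le_pow _ _ (by omega)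
      have hK1 : 1 ≤ K1 := by
        have : 1 ≤ 20 * w ^ 5 * K := Nat.one_le_iff_ne_zero.2 (by positivity)
        omega
      set N := Fintype.card V with hN
      set e := eIn (H j) Finset.univ with he
      set e' := eIn (fun u v => H j u v ∧ u ∉ Zu j ∧ v ∉ Zu j) Finset.univ with he'
      set z := (Zu j).card with hz
      -- K1 * (K * N) ≤ K1 * (K * e' + N)
      have h4 : K1 * (K * N) ≤ K1 * (K * e' + N) := by
        have a1 : K * (K1 * N) ≤ K * (K1 * e + N) := Nat.mul_le_mul_left _ h2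
        have a2 : K * (K1 * e) ≤ K * (K1 * (e' + 2 * (w * z))) :=
          Nat.mul_le_mul_left _ (Nat.mul_le_mul_left _ h1)
        have a3 : K * (2 * w) * (K1 * z) ≤ K * (2 * w) * (8 * w ^ 3 * N) := Nat.mul_le_mul_left _ h3
        have a4 : K * (2 * w) * (8 * w ^ 3 * N) + K * N ≤ K1 * N := by
          have b1 : K * (16 * w ^ 4) + K ≤ 20 * w ^ 5 * K := by
            have c1 : 1 ≤ w ^ 4 := Nat.one_le_pow _ _ (by omega)
            have c2 : w ^ 5 = w ^ 4 * w := by ring
            have c3 : 2 * w ^ 4 ≤ w ^ 5 := by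
              rw [c2, mul_comm 2]
              exact Nat.mul_le_mul_left _ hw
            have c4 : 16 * w ^ 4 + 1 ≤ 20 * w ^ 5 := by omega
            calc K * (16 * w ^ 4) + K = (16 * w ^ 4 + 1) * K := by ring
              _ ≤ 20 * w ^ 5 * K := Nat.mul_le_mul_right _ c4
          have b2 := Nat.mul_le_mul_right N (b1.trans hK)
          calc K * (2 * w) * (8 * w ^ 3 * N) + K * N = (K * (16 * w ^ 4) + K) * N := by ring
            _ ≤ K1 * N := b2
        have a5 : K1 * (K * N) = K * (K1 * N) := by ring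
        have a6 : K * (K1 * e + N) = K * (K1 * e) + K * N := by ring
        have a7 : K * (K1 * (e' + 2 * (w * z))) = K1 * (K * e') + K * (2 * w) * (K1 * z) := by ring
        have a8 : K1 * (K * e' + N) = K1 * (K * e') + K1 * N := by ring
        omega
      exact Nat.le_of_mul_le_mul_left h4 hK1

end Pool.Agent.BoolWidth
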