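import Pool.Agent.Lib_MP_0cf6e1_g.Defs

set_option autoImplicit false

open scoped Classical

namespace Pool.Agent.BoolWidth

/-- the condition of `norank` on the function `τ` -/
def Opp {d : ℕ} (τ : (Fin d → Prop) → Prop) (j k : Fin d) : Prop :=
  ∃ a b : Prop, (∀ p, TS τ p → (p j ↔ a) → (p k ↔ b)) ∧ ∀ p, NS τ p → ((p j ↔ a) ↔ ¬ (p k ↔ b))

/-! ### Vectors and numbers -/

private def clsV {d : ℕ} (c : ℕ) : Fin d → Prop := fun k => c.testBit k = true

private noncomputable def clsC {d : ℕ} (p : Fin d → Prop) : ℕ := Nat.ofBits (fun k => decide (p k))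

private theorem clsC_lt {d : ℕ} (p : Fin d → Prop) : clsC p < 2 ^ d := Nat.ofBits_lt_two_pow _

private theorem clsC_bit {d : ℕ} (p : Fin d → Prop) (k : Fin d) : (clsC p).testBit k = true ↔ p k := by
  unfold clsC
  rw [Nat.testBit_ofBits_lt _ _ k.isLt]
  exact decide_eq_true_iff

private theorem clsV_C {d : ℕ} (p : Fin d → Prop) : clsV (clsC p) = p := by
  funext k
  exact propext (clsC_bit p k)

private theorem clsV_compl {d : ℕ} (c : ℕ) (hc : c < 2 ^ d) :
    (clsV (2 ^ d - 1 - c) : Fin d → Prop) = fun k => ¬ clsV c k := by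
  funext k
  unfold clsV
  have h : 2 ^ d - 1 - c = 2 ^ d - (c + 1) := by omega
  rw [h, Nat.testBit_two_pow_sub_succ hc]
  simp [k.isLt]

private theorem clsC_diff {d : ℕ} (hd : d ≤ 4) (j : Fin d) (p q : Fin d → Prop) (h : DiffAt j p q) (hp : ¬ p j) :
    clsC q = clsC p + 2 ^ (j : ℕ) := by
  have hq : q j := by
    by_contra hq
    exact ((h j).mp (iff_of_false hp hq)) rfl
  have e1 : clsC q = clsC p ||| 2 ^ (j : ℕ) := by
    apply Nat.eq_of_testBit_eq
    intro i
    rw [Nat.testBit_or, Nat.testBit_two_pow]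
    by_cases hi : i < d
    · by_cases hij : (j : ℕ) = i
      · have h1 := (clsC_bit q j).mpr hq
        rw [← hij, h1]
        simp
      · have h1 : (⟨i, hi⟩ : Fin d) ≠ j := by
          intro e
          exact hij (by rw [← e])
        have h2 := (h ⟨i, hi⟩).mpr h1
        have h3 := clsC_bit p ⟨i, hi⟩
        have h4 := clsC_bit q ⟨i, hi⟩
        simp only [hij, decide_false, Bool.or_false]
        rw [Bool.eq_iff_iff]
        exact h4.trans (h2.symm.trans h3.symm)
    · have h1 : (clsC q).testBit i = false := Nat.testBit_ofBits_ge _ _ (by omega)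
      have h2 : (clsC p).testBit i = false := Nat.testBit_ofBits_ge _ _ (by omega)
      have h3 : (j : ℕ) ≠ i := by
        have := j.isLt
        omega
      rw [h1, h2]
      simp [h3]
  have h5 : (clsC p).testBit (j : ℕ) = false := by
    rw [Bool.eq_false_iff]
    intro h6
    exact hp ((clsC_bit p j).mp h6)
  have h7 : clsC p < 16 := (clsC_lt p).trans_le (Nat.pow_le_pow_right (by norm_num) hd)
  have h8 : (j : ℕ) < 4 := j.isLt.trans_le hd
  have h9 : ∀ a < 16, ∀ i < 4, Nat.testBit a i = false → a ||| 2 ^ i = a + 2 ^ i := by decide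
  rw [e1, h9 _ h7 _ h8 h5]

/-! ### The search -/

private def clsK (test : ℕ → ℕ → Bool) (D : ℕ) : ℕ → ℕ → ℕ → Bool
  | 0, T, N => test T N
  | i + 1, T, N => clsK test D i (Nat.lor T (Nat.shiftLeft 1 i)) N &&
      (clsK test D i (Nat.lor T (Nat.shiftLeft 1 (D - 1 - i))) N &&
        clsK test D i T (Nat.lor N (Nat.lor (Nat.shiftLeft 1 i) (Nat.shiftLeft 1 (D - 1 - i)))))

private theorem cls_or (T i c : ℕ) :
    (Nat.lor T (Nat.shiftLeft 1 i)).testBit c = true ↔ T.testBit c = true ∨ c = i := by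
  have h1 : Nat.lor T (Nat.shiftLeft 1 i) = T ||| (1 <<< i) := rfl
  rw [h1, Nat.testBit_or, Nat.one_shiftLeft, Nat.testBit_two_pow, Bool.or_eq_true, decide_eq_true_iff]
  exact or_congr Iff.rfl eq_comm

private theorem cls_or2 (T i k c : ℕ) :
    (Nat.lor T (Nat.lor (Nat.shiftLeft 1 i) (Nat.shiftLeft 1 k))).testBit c = true ↔
      T.testBit c = true ∨ c = i ∨ c = k := by
  have h1 : Nat.lor T (Nat.lor (Nat.shiftLeft 1 i) (Nat.shiftLeft 1 k)) = T ||| ((1 <<< i) ||| (1 <<< k)) := rfl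
  rw [h1, Nat.testBit_or, Nat.testBit_or, Nat.one_shiftLeft, Nat.one_shiftLeft, Nat.testBit_two_pow,
    Nat.testBit_two_pow, Bool.or_eq_true, Bool.or_eq_true, decide_eq_true_iff, decide_eq_true_iff]
  exact or_congr Iff.rfl (or_congr eq_comm eq_comm)

private theorem clsK_spec (test : ℕ → ℕ → Bool) (D : ℕ) (t n : ℕ → Prop) (h : ∀ c < D, t c → ¬ t (D - 1 - c))
    (hn : ∀ c < D, n c → ¬ t c ∧ ¬ t (D - 1 - c)) :
    ∀ i, 2 * i ≤ D → ∀ T N, clsK test D i T N = true →
      (∀ c < D, ¬ (c < i ∨ D - 1 - c < i) → (t c → T.testBit c = true) ∧ (n c → N.testBit c = true)) →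
      ∃ T' N', test T' N' = true ∧ ∀ c < D, (t c → T'.testBit c = true) ∧ (n c → N'.testBit c = true) := by
  intro i
  induction i with
  | zero =>
    intro _ T N h1 h2
    exact ⟨T, N, h1, fun c hc => h2 c hc (by omega)⟩
  | succ i ih =>
    intro hi T N h1 h2
    unfold clsK at h1
    rw [Bool.and_eq_true, Bool.and_eq_true] at h1
    obtain ⟨k1, k2, k3⟩ := h1
    by_cases a1 : t i
    · refine ih (by omega) _ _ k1 fun c hc hc2 => ?_
      have a2 := h i (by omega) a1
      by_cases e1 : c = i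
      · refine ⟨fun _ => (cls_or _ _ _).mpr (Or.inr e1), fun hnc => ?_⟩
        exact absurd (e1 ▸ a1) (hn c hc hnc).1
      · by_cases e2 : c = D - 1 - i
        · refine ⟨fun htc => ?_, fun hnc => ?_⟩
          · exact absurd (e2 ▸ htc) a2
          · have e3 : D - 1 - c = i := by omega
            exact absurd (e3 ▸ a1) (hn c hc hnc).2
        · have h3 := h2 c hc (by omega)
          exact ⟨fun htc => (cls_or _ _ _).mpr (Or.inl (h3.1 htc)), h3.2⟩
    · by_cases a2 : t (D - 1 - i)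
      · refine ih (by omega) _ _ k2 fun c hc hc2 => ?_
        by_cases e1 : c = i
        · refine ⟨fun htc => absurd (e1 ▸ htc) a1, fun hnc => ?_⟩
          exact absurd (e1 ▸ a2) (hn c hc hnc).2
        · by_cases e2 : c = D - 1 - i
          · refine ⟨fun _ => (cls_or _ _ _).mpr (Or.inr e2), fun hnc => ?_⟩
            exact absurd (e2 ▸ a2) (hn c hc hnc).1
          · have h3 := h2 c hc (by omega)
            exact ⟨fun htc => (cls_or _ _ _).mpr (Or.inl (h3.1 htc)), h3.2⟩
      · refine ih (by omega) _ _ k3 fun c hc hc2 => ?_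
        by_cases e1 : c = i
        · exact ⟨fun htc => absurd (e1 ▸ htc) a1, fun _ => (cls_or2 _ _ _ _).mpr (Or.inr (Or.inl e1))⟩
        · by_cases e2 : c = D - 1 - i
          · exact ⟨fun htc => absurd (e2 ▸ htc) a2, fun _ => (cls_or2 _ _ _ _).mpr (Or.inr (Or.inr e2))⟩
          · have h3 := h2 c hc (by omega)
            exact ⟨h3.1, fun hnc => (cls_or2 _ _ _ _).mpr (Or.inl (h3.2 hnc))⟩

private theorem cls_masks {d : ℕ} (τ : (Fin d → Prop) → Prop) (test : ℕ → ℕ → Bool) (P : ℕ) (hP : 2 * P = 2 ^ d)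
    (hk : clsK test (2 ^ d) P 0 0 = true) :
    ∃ T N, test T N = true ∧ (∀ p, TS τ p → T.testBit (clsC p) = true) ∧
      ∀ p, NS τ p → N.testBit (clsC p) = true := by
  have k1 : ∀ c < 2 ^ d, TS τ (clsV c) → ¬ TS τ (clsV (2 ^ d - 1 - c)) := by
    intro c hc h1 h2
    rw [clsV_compl c hc] at h2
    exact h1.2 h2.1
  have k2 : ∀ c < 2 ^ d, NS τ (clsV c) → ¬ TS τ (clsV c) ∧ ¬ TS τ (clsV (2 ^ d - 1 - c)) := by
    intro c hc h1
    rw [clsV_compl c hc]
    exact ⟨fun h2 => h1.1 h2.1, fun h2 => h1.2 h2.1⟩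
  obtain ⟨T, N, h1, h2⟩ := clsK_spec test (2 ^ d) (fun c => TS τ (clsV c)) (fun c => NS τ (clsV c)) k1 k2 P
    (by omega) 0 0 hk (fun c hc hc2 => absurd (by omega) hc2)
  refine ⟨T, N, h1, fun p hp => (h2 _ (clsC_lt p)).1 ?_, fun p hp => (h2 _ (clsC_lt p)).2 ?_⟩
  · show TS τ (clsV (clsC p))
    rw [clsV_C]
    exact hp
  · show NS τ (clsV (clsC p))
    rw [clsV_C]
    exact hp

/-! ### The tests -/

/-- the numbers `< 16` without the bit `j` -/
private def clsA (j : ℕ) : ℕ := bif Nat.beq j 0 then 21845 else bif Nat.beq j 1 then 13107 else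
  bif Nat.beq j 2 then 3855 else 255

/-- an edge in direction `j` from `S` to `U` -/
private def clsE (S U j : ℕ) : Bool :=
  !(Nat.beq (Nat.land (Nat.land S (Nat.shiftRight U (Nat.shiftLeft 1 j))) (clsA j)) 0)

private theorem cls_ne {x c : ℕ} (h : x.testBit c = true) : (!(Nat.beq x 0)) = true := by
  rw [Bool.not_eq_true', Bool.eq_false_iff]
  intro h1
  have h2 : x = 0 := Nat.eq_of_beq_eq_true h1
  rw [h2, Nat.zero_testBit] at h
  exact absurd h (by simp)

private theorem clsE_of {S U c j : ℕ} (hc : c < 16) (hj : j < 4) (h0 : c.testBit j = false)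
    (hS : S.testBit c = true) (hU : U.testBit (c + 2 ^ j) = true) : clsE S U j = true := by
  have hA : ∀ c < 16, ∀ j < 4, Nat.testBit c j = false → (clsA j).testBit c = true := by decide
  have h1 : (Nat.land (Nat.land S (Nat.shiftRight U (Nat.shiftLeft 1 j))) (clsA j)).testBit c = true := by
    have e1 : Nat.land (Nat.land S (Nat.shiftRight U (Nat.shiftLeft 1 j))) (clsA j) =
      (S &&& (U >>> (1 <<< j))) &&& clsA j := rfl
    rw [e1, Nat.testBit_and, Nat.testBit_and, Nat.testBit_shiftRight, Nat.one_shiftLeft, hS, hA c hc j hj h0,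
      add_comm, hU]
    rfl
  exact cls_ne h1

private theorem clsE_sym {d : ℕ} (hd : d ≤ 4) (j : Fin d) (P Q : (Fin d → Prop) → Prop) (S U : ℕ)
    (hS : ∀ p, P p → S.testBit (clsC p) = true) (hU : ∀ p, Q p → U.testBit (clsC p) = true)
    (p q : Fin d → Prop) (h : DiffAt j p q) (hp : P p) (hq : Q q) :
    clsE S U j = true ∨ clsE U S j = true := by
  have h8 : (j : ℕ) < 4 := j.isLt.trans_le hd
  have hlt : ∀ r : Fin d → Prop, clsC r < 16 := fun r =>
    (clsC_lt r).trans_le (Nat.pow_le_pow_right (by norm_num) hd)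
  have hfalse : ∀ r : Fin d → Prop, ¬ r j → (clsC r).testBit (j : ℕ) = false := by
    intro r hr
    rw [Bool.eq_false_iff]
    intro h6
    exact hr ((clsC_bit r j).mp h6)
  by_cases hpj : p j
  · have hqj : ¬ q j := by
      intro hqj
      exact (h j).mp (iff_of_true hpj hqj) rfl
    have h' : DiffAt j q p := fun k => (iff_comm.trans (h k))
    right
    refine clsE_of (hlt q) h8 (hfalse q hqj) (hU q hq) ?_
    rw [← clsC_diff hd j q p h' hqj]
    exact hS p hp
  · left
    refine clsE_of (hlt p) h8 (hfalse p hpj) (hS p hp) ?_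
    rw [← clsC_diff hd j p q h hpj]
    exact hU q hq

private def clsTT (T : ℕ) (j : ℕ) : Bool := clsE T T j
private def clsTN (T N : ℕ) (j : ℕ) : Bool := clsE T N j || clsE N T j

private theorem clsTT_of {d : ℕ} (hd : d ≤ 4) (τ : (Fin d → Prop) → Prop) (T : ℕ)
    (hT : ∀ p, TS τ p → T.testBit (clsC p) = true) (j : Fin d) (h : EdgeTT τ j) : clsTT T j = true := by
  obtain ⟨p, q, h1, h2, h3⟩ := h
  have := clsE_sym hd j _ _ T T hT hT p q h1 h2 h3
  unfold clsTT
  tauto

private theorem clsNN_of {d : ℕ} (hd : d ≤ 4) (τ : (Fin d → Prop) → Prop) (N : ℕ)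
    (hN : ∀ p, NS τ p → N.testBit (clsC p) = true) (j : Fin d) (h : EdgeNN τ j) : clsTT N j = true := by
  obtain ⟨p, q, h1, h2, h3⟩ := h
  have := clsE_sym hd j _ _ N N hN hN p q h1 h2 h3
  unfold clsTT
  tauto

private theorem clsTN_of {d : ℕ} (hd : d ≤ 4) (τ : (Fin d → Prop) → Prop) (T N : ℕ)
    (hT : ∀ p, TS τ p → T.testBit (clsC p) = true) (hN : ∀ p, NS τ p → N.testBit (clsC p) = true)
    (j : Fin d) (h : EdgeTN τ j) : clsTN T N j = true := by
  obtain ⟨p, q, h1, h2, h3⟩ := h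
  have := clsE_sym hd j _ _ T N hT hN p q h1 h2 h3
  unfold clsTN
  rw [Bool.or_eq_true]
  exact this

private def clsTest2 (T N : ℕ) : Bool :=
  !(clsTT T 0 && (clsTT T 1 && (clsTN T N 0 && clsTN T N 1)))

private def clsTest3 (T N : ℕ) : Bool :=
  !(clsTT T 0 && (clsTT T 1 && (clsTT T 2 && (clsTN T N 0 && (clsTN T N 1 && clsTN T N 2)))))

theorem cls1 (τ : (Fin 1 → Prop) → Prop) (h1 : ∀ j, EdgeTT τ j) : False := by
  obtain ⟨p, q, h2, h3, h4⟩ := h1 0
  apply h3.2
  have h5 : (fun k => ¬ p k) = q := by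
    funext k
    have h6 := h2 k
    have h7 : k = 0 := Subsingleton.elim _ _
    rw [h7] at h6 ⊢
    apply propext
    by_cases hp : p 0 <;> by_cases hq : q 0 <;> simp_all
  rw [h5]
  exact h4.1

theorem cls2 (τ : (Fin 2 → Prop) → Prop) (h1 : ∀ j, EdgeTT τ j) (h2 : ∀ j, EdgeTN τ j) : False := by
  have hk : clsK clsTest2 (2 ^ 2) 2 0 0 = true := by decide +kernel
  obtain ⟨T, N, ht, hT, hN⟩ := cls_masks τ clsTest2 2 rfl hk
  have a0 : clsTT T 0 = true := clsTT_of (by norm_num) τ T hT 0 (h1 0)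
  have a1 : clsTT T 1 = true := clsTT_of (by norm_num) τ T hT 1 (h1 1)
  have b0 : clsTN T N 0 = true := clsTN_of (by norm_num) τ T N hT hN 0 (h2 0)
  have b1 : clsTN T N 1 = true := clsTN_of (by norm_num) τ T N hT hN 1 (h2 1)
  unfold clsTest2 at ht
  rw [a0, a1, b0, b1] at ht
  exact absurd ht (by decide)

theorem cls3 (τ : (Fin 3 → Prop) → Prop) (h1 : ∀ j, EdgeTT τ j) (h2 : ∀ j, EdgeTN τ j) : False := by
  have hk : clsK clsTest3 (2 ^ 3) 4 0 0 = true := by decide +kernel
  obtain ⟨T, N, ht, hT, hN⟩ := cls_masks τ clsTest3 4 rfl hk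
  have a0 : clsTT T 0 = true := clsTT_of (by norm_num) τ T hT 0 (h1 0)
  have a1 : clsTT T 1 = true := clsTT_of (by norm_num) τ T hT 1 (h1 1)
  have a2 : clsTT T 2 = true := clsTT_of (by norm_num) τ T hT 2 (h1 2)
  have b0 : clsTN T N 0 = true := clsTN_of (by norm_num) τ T N hT hN 0 (h2 0)
  have b1 : clsTN T N 1 = true := clsTN_of (by norm_num) τ T N hT hN 1 (h2 1)
  have b2 : clsTN T N 2 = true := clsTN_of (by norm_num) τ T N hT hN 2 (h2 2)
  unfold clsTest3 at ht
  rw [a0, a1, a2, b0, b1, b2] at ht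
  exact absurd ht (by decide)

/-- the numbers `< 16` whose bit `j` is `a` -/
private def clsX (j : ℕ) (a : Bool) : ℕ := bif a then 65535 - clsA j else clsA j

private theorem clsX_bit : ∀ c < 16, ∀ j < 4, (clsX j (Nat.testBit c j)).testBit c = true := by decide

private def clsI (S j : ℕ) (a : Bool) (k : ℕ) (b : Bool) : Bool :=
  Nat.beq (Nat.land (Nat.land S (clsX j a)) (clsX k b)) 0

private theorem clsI_of {d : ℕ} (hd : d ≤ 4) (j k : Fin d) (P : (Fin d → Prop) → Prop) (S : ℕ)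
    (hS : ∀ p, P p → S.testBit (clsC p) = true) (a b : Bool) (h : clsI S j a k b = true)
    (p : Fin d → Prop) (hp : P p) (hj : (clsC p).testBit (j : ℕ) = a) (hk : (clsC p).testBit (k : ℕ) = b) : False := by
  have hlt : clsC p < 16 := (clsC_lt p).trans_le (Nat.pow_le_pow_right (by norm_num) hd)
  have h1 := clsX_bit _ hlt j (j.isLt.trans_le hd)
  have h2 := clsX_bit _ hlt k (k.isLt.trans_le hd)
  rw [hj] at h1
  rw [hk] at h2
  have h3 : (Nat.land (Nat.land S (clsX j a)) (clsX k b)).testBit (clsC p) = true := by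
    have e1 : Nat.land (Nat.land S (clsX j a)) (clsX k b) = (S &&& clsX j a) &&& clsX k b := rfl
    rw [e1, Nat.testBit_and, Nat.testBit_and, hS p hp, h1, h2]
    rfl
  have h4 := cls_ne h3
  unfold clsI at h
  rw [h] at h4
  exact absurd h4 (by decide)

private def clsO (T N : ℕ) (x : Fin 4 × Fin 4 × Bool × Bool) : Bool :=
  !(Nat.beq x.1 x.2.1) && (!(clsTT N x.1) && (!(clsTT N x.2.1) &&
    (clsI T x.1 x.2.2.1 x.2.1 (!x.2.2.2) && (clsI N x.1 x.2.2.1 x.2.1 x.2.2.2 &&
      clsI N x.1 (!x.2.2.1) x.2.1 (!x.2.2.2)))))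

private def clsL : List (Fin 4 × Fin 4 × Bool × Bool) :=
  [0, 1, 2, 3].flatMap fun j => [0, 1, 2, 3].flatMap fun k => [true, false].flatMap fun a =>
    [true, false].map fun b => (j, k, a, b)

private def clsTest4 (T N : ℕ) : Bool :=
  !(clsTT T 0 && (clsTT T 1 && (clsTT T 2 && (clsTT T 3 && (clsTN T N 0 && (clsTN T N 1 && (clsTN T N 2 &&
    (clsTN T N 3 && (clsTT N 0 || (clsTT N 1 || (clsTT N 2 || clsTT N 3))))))))))) || clsL.any (clsO T N)

private theorem clsO_spec (τ : (Fin 4 → Prop) → Prop) (T N : ℕ) (hT : ∀ p, TS τ p → T.testBit (clsC p) = true)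
    (hN : ∀ p, NS τ p → N.testBit (clsC p) = true) (j k : Fin 4) (a b : Bool) (h : clsO T N (j, k, a, b) = true) :
    j ≠ k ∧ ¬ EdgeNN τ j ∧ ¬ EdgeNN τ k ∧ Opp τ j k := by
  unfold clsO at h
  simp only [Bool.and_eq_true] at h
  obtain ⟨e1, e2, e3, e4, e5, e6⟩ := h
  refine ⟨?_, ?_, ?_, (a = true), (b = true), ?_, ?_⟩
  · rintro rfl
    rw [Nat.beq_refl] at e1
    exact absurd e1 (by decide)
  · intro h1
    rw [clsNN_of (by norm_num) τ N hN j h1] at e2
    exact absurd e2 (by decide)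
  · intro h1
    rw [clsNN_of (by norm_num) τ N hN k h1] at e3
    exact absurd e3 (by decide)
  · intro p hp h1
    by_contra h2
    refine clsI_of (by norm_num) j k _ T hT a (!b) e4 p hp ?_ ?_
    · rw [Bool.eq_iff_iff, clsC_bit]
      exact h1
    · rw [Bool.eq_iff_iff, clsC_bit, Bool.not_eq_true']
      cases b <;> simp_all
  · intro p hp
    constructor
    · intro h1 h2
      refine clsI_of (by norm_num) j k _ N hN a b e5 p hp ?_ ?_
      · rw [Bool.eq_iff_iff, clsC_bit]
        exact h1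
      · rw [Bool.eq_iff_iff, clsC_bit]
        exact h2
    · intro h1
      by_contra h2
      refine clsI_of (by norm_num) j k _ N hN (!a) (!b) e6 p hp ?_ ?_
      · rw [Bool.eq_iff_iff, clsC_bit, Bool.not_eq_true']
        cases a <;> simp_all
      · rw [Bool.eq_iff_iff, clsC_bit, Bool.not_eq_true']
        cases b <;> simp_all

/-- Finite check (python: of the 3^8 assignments of the 8 pairs `p, ¬ p` 1136 satisfy `h1, h2`; 944 of them have no
neutral edge, the other 192 satisfy `Opp` for some `j ≠ k` without neutral edges). Pairs with `τ p` and `τ (¬ p)` may be treated as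
neutral (this only makes the hypotheses of the check stronger and its conclusion stronger), so each of the 8 pairs has 3 states and a
boolean function of 8 variables in `Fin 3` (or of a code `< 6561`, with bit masks in `ℕ`: `Nat.land`, `Nat.shiftRight`, `Nat.testBit` are fast
in the kernel) is to be evaluated by `decide` in the kernel, no `native_decide`, no `ofReduceBool`. -/
theorem cls4 (τ : (Fin 4 → Prop) → Prop) (h1 : ∀ j, EdgeTT τ j) (h2 : ∀ j, EdgeTN τ j) (h3 : ∃ j, EdgeNN τ j) :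
    ∃ j k : Fin 4, j ≠ k ∧ ¬ EdgeNN τ j ∧ ¬ EdgeNN τ k ∧ Opp τ j k := by
  have hk : clsK clsTest4 (2 ^ 4) 8 0 0 = true := by decide +kernel
  obtain ⟨T, N, ht, hT, hN⟩ := cls_masks τ clsTest4 8 rfl hk
  have a0 : clsTT T 0 = true := clsTT_of (by norm_num) τ T hT 0 (h1 0)
  have a1 : clsTT T 1 = true := clsTT_of (by norm_num) τ T hT 1 (h1 1)
  have a2 : clsTT T 2 = true := clsTT_of (by norm_num) τ T hT 2 (h1 2)
  have a3 : clsTT T 3 = true := clsTT_of (by norm_num) τ T hT 3 (h1 3)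
  have b0 : clsTN T N 0 = true := clsTN_of (by norm_num) τ T N hT hN 0 (h2 0)
  have b1 : clsTN T N 1 = true := clsTN_of (by norm_num) τ T N hT hN 1 (h2 1)
  have b2 : clsTN T N 2 = true := clsTN_of (by norm_num) τ T N hT hN 2 (h2 2)
  have b3 : clsTN T N 3 = true := clsTN_of (by norm_num) τ T N hT hN 3 (h2 3)
  have c0 : (clsTT N 0 || (clsTT N 1 || (clsTT N 2 || clsTT N 3))) = true := by
    obtain ⟨j, hj⟩ := h3
    have hj2 := clsNN_of (by norm_num) τ N hN j hj
    fin_cases j
    · rw [show clsTT N 0 = true from hj2]; rfl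
    · rw [show clsTT N 1 = true from hj2]; simp
    · rw [show clsTT N 2 = true from hj2]; simp
    · rw [show clsTT N 3 = true from hj2]; simp
  unfold clsTest4 at ht
  rw [a0, a1, a2, a3, b0, b1, b2, b3, c0] at ht
  simp only [Bool.and_self, Bool.not_true, Bool.false_or] at ht
  rw [List.any_eq_true] at ht
  obtain ⟨⟨j, k, a, b⟩, -, h4⟩ := ht
  exact ⟨j, k, clsO_spec τ T N hT hN j k a b h4⟩


end Pool.Agent.BoolWidth
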