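import Pool.Agent.Lib_MP_0cf6e1_g.Defs

set_option autoImplicit false

open scoped Classical

namespace Pool.Agent.BoolWidth

/-- bad arcs of one order against the number of vertices with even label -/
theorem bad_count3 {w : ℕ} {V : Type} [Fintype V] (M : MG w V) (s b Q : ℕ) (lab : V → Fin Q)
    (hsize : ∀ i : Fin Q, Even i.val → (Finset.univ.filter (fun v => lab v = i)).card ≤ s)
    (hsp : ∀ S : Finset V, S.card ≤ s → b * eIn M.E S ≤ (b + 2) * S.card) :
    b * ((arcs M).filter (fun p => lab p.1 = lab p.2 ∧ Even (lab p.1).val)).card ≤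
      (b + 2) * (Finset.univ.filter (fun v => Even (lab v).val)).card := by
  set B := (arcs M).filter (fun p => lab p.1 = lab p.2 ∧ Even (lab p.1).val) with hB
  set T := Finset.univ.filter (fun v => Even (lab v).val) with hT
  have h1 : B.card = ∑ i : Fin Q, (B.filter (fun p => lab p.1 = i)).card :=
    Finset.card_eq_sum_card_fiberwise (f := fun p : V × V => lab p.1) (t := Finset.univ)
      (fun _ _ => Finset.mem_coe.2 (Finset.mem_univ _))
  have h2 : T.card = ∑ i : Fin Q, (T.filter (fun v => lab v = i)).card :=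
    Finset.card_eq_sum_card_fiberwise (f := lab) (t := Finset.univ)
      (fun _ _ => Finset.mem_coe.2 (Finset.mem_univ _))
  rw [h1, h2, Finset.mul_sum, Finset.mul_sum]
  apply Finset.sum_le_sum
  intro i _
  by_cases hi : Even i.val
  · have h3 := hsp _ (hsize i hi)
    have h4 : T.filter (fun v => lab v = i) = Finset.univ.filter (fun v => lab v = i) := by
      ext v
      rw [Finset.mem_filter, Finset.mem_filter, Finset.mem_filter]
      constructor
      · rintro ⟨⟨h, -⟩, h'⟩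
        exact ⟨h, h'⟩
      · rintro ⟨h, h'⟩
        exact ⟨⟨h, by rw [h']; exact hi⟩, h'⟩
    rw [h4]
    refine le_trans (Nat.mul_le_mul_left _ (Finset.card_le_card ?_)) h3
    intro p hp
    obtain ⟨hp1, hp2⟩ := Finset.mem_filter.1 hp
    obtain ⟨hp3, hp4, hp5⟩ := Finset.mem_filter.1 hp1
    have hE := (Finset.mem_filter.1 hp3).2
    rw [Finset.mem_filter, Finset.mem_product, Finset.mem_filter, Finset.mem_filter]
    exact ⟨⟨⟨Finset.mem_univ _, hp2⟩, ⟨Finset.mem_univ _, by rw [← hp4, hp2]⟩⟩, hE⟩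
  · have h3 : B.filter (fun p => lab p.1 = i) = ∅ := by
      rw [Finset.filter_eq_empty_iff]
      intro p hp hpi
      obtain ⟨hp3, hp4, hp5⟩ := Finset.mem_filter.1 hp
      rw [hpi] at hp5
      exact hi hp5
    rw [h3]
    simp

/-- arcs with an endpoint in `O` -/
theorem cg_deg {w : ℕ} {V : Type} [Fintype V] (M : MG w V) (O : Finset V) :
    ((arcs M).filter (fun p => p.1 ∈ O ∨ p.2 ∈ O)).card ≤ 2 * ((w - 1) * O.card) := by
  have h1 : ((arcs M).filter (fun p => p.1 ∈ O)).card ≤ (w - 1) * O.card := by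
    refine Finset.card_le_mul_card_image_of_maps_to (f := Prod.fst)
      (fun p hp => (Finset.mem_filter.1 hp).2) (w - 1) ?_
    intro v _
    have h2 := M.deg.1 v ((((arcs M).filter (fun p => p.1 ∈ O)).filter (fun p => p.1 = v)).image Prod.snd) (by
      intro u hu
      obtain ⟨p, hp, rfl⟩ := Finset.mem_image.1 hu
      obtain ⟨hp1, hp2⟩ := Finset.mem_filter.1 hp
      have hp3 := (Finset.mem_filter.1 (Finset.mem_filter.1 hp1).1).2
      rw [← hp2]
      exact hp3)
    rwa [Finset.card_image_of_injOn] at h2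
    intro p hp q hq hpq
    have h3 := (Finset.mem_filter.1 (Finset.mem_coe.1 hp)).2
    have h4 := (Finset.mem_filter.1 (Finset.mem_coe.1 hq)).2
    exact Prod.ext (h3.trans h4.symm) hpq
  have h2 : ((arcs M).filter (fun p => p.2 ∈ O)).card ≤ (w - 1) * O.card := by
    refine Finset.card_le_mul_card_image_of_maps_to (f := Prod.snd)
      (fun p hp => (Finset.mem_filter.1 hp).2) (w - 1) ?_
    intro v _
    have h2 := M.deg.2 v ((((arcs M).filter (fun p => p.2 ∈ O)).filter (fun p => p.2 = v)).image Prod.fst) (by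
      intro u hu
      obtain ⟨p, hp, rfl⟩ := Finset.mem_image.1 hu
      obtain ⟨hp1, hp2⟩ := Finset.mem_filter.1 hp
      have hp3 := (Finset.mem_filter.1 (Finset.mem_filter.1 hp1).1).2
      rw [← hp2]
      exact hp3)
    rwa [Finset.card_image_of_injOn] at h2
    intro p hp q hq hpq
    have h3 := (Finset.mem_filter.1 (Finset.mem_coe.1 hp)).2
    have h4 := (Finset.mem_filter.1 (Finset.mem_coe.1 hq)).2
    exact Prod.ext hpq (h3.trans h4.symm)
  have h3 : (arcs M).filter (fun p => p.1 ∈ O ∨ p.2 ∈ O) =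
      (arcs M).filter (fun p => p.1 ∈ O) ∪ (arcs M).filter (fun p => p.2 ∈ O) := Finset.filter_or _ _ _
  have h4 := Finset.card_union_le ((arcs M).filter (fun p => p.1 ∈ O)) ((arcs M).filter (fun p => p.2 ∈ O))
  rw [h3]
  omega

theorem cg_small (K0 b a v : ℕ) (hb : K0 ≤ b) (hpos : 0 < b) (h : b * a ≤ (b + 2) * v) :
    K0 * a ≤ (K0 + 2) * v := by
  apply Nat.le_of_mul_le_mul_left _ hpos
  have h1 : K0 * (b * a) ≤ K0 * ((b + 2) * v) := Nat.mul_le_mul_left _ h
  have h2 : K0 * (2 * v) ≤ b * (2 * v) := Nat.mul_le_mul_right _ hb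
  calc b * (K0 * a) = K0 * (b * a) := by ring
    _ ≤ K0 * ((b + 2) * v) := h1
    _ = b * (K0 * v) + K0 * (2 * v) := by ring
    _ ≤ b * (K0 * v) + b * (2 * v) := by omega
    _ = b * ((K0 + 2) * v) := by ring

/-- the final arithmetic -/
theorem cg_many (w K0 K N h : ℕ) (C : ℕ) (hC : C ≤ 8 * w ^ 3) (hw : 1 ≤ w) (hK : 8 * w ^ 3 * K ≤ K0)
    (hh : K0 * N ≤ K0 * h + C * N) : K * N ≤ K * h + N := by
  rcases Nat.le_total N h with h1 | h1
  · have := Nat.mul_le_mul_left K h1
    omega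
  · obtain ⟨t, rfl⟩ := Nat.exists_eq_add_of_le h1
    have h2 : K0 * t ≤ C * (h + t) := by
      have : K0 * (h + t) = K0 * h + K0 * t := by ring
      omega
    have h3 : (8 * w ^ 3) * (K * t) ≤ (8 * w ^ 3) * (h + t) := by
      calc (8 * w ^ 3) * (K * t) = (8 * w ^ 3 * K) * t := by ring
        _ ≤ K0 * t := Nat.mul_le_mul_right _ hK
        _ ≤ C * (h + t) := h2
        _ ≤ _ := Nat.mul_le_mul_right _ hC
    have h4 : 0 < 8 * w ^ 3 := by positivity
    have h5 := Nat.le_of_mul_le_mul_left h3 h4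
    have h6 : K * (h + t) = K * h + K * t := by ring
    omega

/-- The classes `H j`: arcs `(u, v)` of `M` with `weq (R j) u v`, in no common even class of an order `k ≠ j`, no endpoint of odd label for
any order. `labels2` gives `lab k : V → Fin Q`, `Q = 2 (N / s) + 2`. Let `A_k` = arcs in a common even class of the order `k`, `g_k` = number
of the vertices with odd `lab k`, `g = Σ g_k`. `bad_count3`: `b |A_k| ≤ (b + 2) (N - g_k)`. `good_count`: arcs outside `⋃ A_k` are
`≤ w ^ 2 Q ^ d ≤ w ^ 2 N / K0`. So `(w - 1) N - N / K0 ≤ e ≤ (1 + 2 / b) (d N - g) + w ^ 2 N / K0`: first `d = w - 1` (if `d ≤ w - 2` then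
`K0 ≤ 1 + 2 (w - 2) + w ^ 2`), then `g ≤ (w ^ 2 + 2 w - 1) N / K0` (this gives `odd`). `dir_count` for `j` (`htr`, `hco` for `j`):
arcs not tied in `j` and outside `⋃_{k ≠ j} A_k` are `≤ 2 w ^ 2 Q ^ d`. So
`|H j| ≥ e - Σ_{k ≠ j} |A_k| - 2 w ^ 2 N / K0 - 2 (w - 1) g ≥ N - (2 w ^ 3 + 4 w ^ 2) N / K0` (degrees `≤ w - 1`: `M.deg`), `many`. `ne`: both labels
of `k` are even, and the arc is not in `A_k`. -/
theorem hd_exists {w d n : ℕ} {V : Type} [Fintype V] (M : MG w V) (s b K0 K : ℕ) (hw : 3 ≤ w) (hdw : d < w)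
    (hs : 1 ≤ s) (hN : 0 < Fintype.card V) (hK1 : 1 ≤ K) (hK : 8 * w ^ 3 * K ≤ K0) (hb : K0 ≤ b)
    (harc : K0 * ((w - 1) * Fintype.card V) ≤ K0 * eIn M.E Finset.univ + Fintype.card V)
    (hsp : ∀ S : Finset V, S.card ≤ s → b * eIn M.E S ≤ (b + 2) * S.card)
    (hQ : K0 * (2 * (Fintype.card V / s) + 2) ^ (w - 1) ≤ Fintype.card V)
    (L : Fin d → V × Fin n → V × Fin n → Prop) (τ : (Fin d → Prop) → Prop)
    (hL : ∀ i, IsStrictTotalOrder (V × Fin n) (L i))
    (hτ : ∀ x y, x ≠ y → (liftLt M.lt M.E (fun _ _ => 0) n x y ↔ τ (fun i => L i x y)))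
    (z1 z2 : Fin n) (hz : z1 < z2)
    (htr : ∀ k u v t, L k (u, z1) (v, z2) → L k (v, z1) (t, z2) → L k (u, z1) (t, z2))
    (hco : ∀ k u v t, ¬ L k (u, z1) (v, z2) → ¬ L k (v, z1) (t, z2) → ¬ L k (u, z1) (t, z2)) :
    d + 1 = w ∧ ∃ (lab : Fin d → V → ℕ) (H : Fin d → V → V → Prop),
      HD M (fun k u v => L k (u, z1) (v, z2)) s K lab H := by
  have hw3 : 1 ≤ w ^ 3 := Nat.one_le_pow _ _ (by omega)
  have hK0pos : 0 < K0 := lt_of_lt_of_le (by positivity) hK
  have hbpos : 0 < b := lt_of_lt_of_le hK0pos hb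
  set N := Fintype.card V with hNdef
  set Q := 2 * (N / s) + 2 with hQdef
  have hlabs : ∀ k : Fin d, ∃ lab : V → Fin Q,
      (∀ i, Even i.val → (Finset.univ.filter (fun v => lab v = i)).card ≤ s) ∧
      (∀ u v u' v', lab u = lab v → lab u' = lab v' → ¬ (lab v = lab v' ∧ Even (lab v).val) →
        (L k (u, z1) (u', z2) ↔ L k (v, z1) (v', z2))) ∧
      ∀ u v, weq (fun u v => L k (u, z1) (v, z2)) u v → lab u = lab v :=
    fun k => labels2 (fun u v => L k (u, z1) (v, z2)) (htr k) (hco k) s hs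
  choose lab hsize hlab hleq using hlabs
  have hgood := good_count M d n _ L τ hL hτ z1 z2 hz lab hlab
  have hbad := fun k => bad_count3 M s b _ (lab k) (hsize k) hsp
  set A : Fin d → Finset (V × V) := fun k => (arcs M).filter (fun p => lab k p.1 = lab k p.2 ∧ Even (lab k p.1).val)
    with hA
  set ev : Fin d → ℕ := fun k => (Finset.univ.filter (fun v => Even (lab k v).val)).card with hev
  set od : Fin d → ℕ := fun k => (Finset.univ.filter (fun v => ¬ Even (lab k v).val)).card with hod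
  have hevod : ∀ k, ev k + od k = N := by
    intro k
    have := Finset.card_filter_add_card_filter_not (s := (Finset.univ : Finset V)) (fun v => Even (lab k v).val)
    rw [Finset.card_univ] at this
    exact this
  have hAk : ∀ k, K0 * (A k).card ≤ (K0 + 2) * ev k := fun k => cg_small K0 b _ _ hb hbpos (hbad k)
  set e := (arcs M).card with he
  rw [eIn_univ, ← he] at harc
  have hQd : K0 * Q ^ d ≤ N := by
    refine le_trans (Nat.mul_le_mul_left _ (Nat.pow_le_pow_right (by omega) (by omega))) hQ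
  -- the first count
  have hcover : arcs M ⊆ ((arcs M).filter (fun p => ∀ k, ¬ (lab k p.1 = lab k p.2 ∧ Even (lab k p.1).val))) ∪
      Finset.univ.biUnion A := by
    intro p hp
    by_cases hc : ∀ k, ¬ (lab k p.1 = lab k p.2 ∧ Even (lab k p.1).val)
    · exact Finset.mem_union_left _ (Finset.mem_filter.2 ⟨hp, hc⟩)
    · push Not at hc
      obtain ⟨k, hk⟩ := hc
      exact Finset.mem_union_right _ (Finset.mem_biUnion.2 ⟨k, Finset.mem_univ _, Finset.mem_filter.2 ⟨hp, hk⟩⟩)
  have hc1 := (Finset.card_le_card hcover).trans (Finset.card_union_le _ _)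
  have hc2 := Finset.card_biUnion_le (s := Finset.univ) (t := A)
  have hsumA : K0 * ∑ k, (A k).card ≤ (K0 + 2) * ∑ k, ev k := by
    rw [Finset.mul_sum, Finset.mul_sum]
    exact Finset.sum_le_sum (fun k _ => hAk k)
  have hsum : ∑ k, ev k + ∑ k, od k = d * N := by
    rw [← Finset.sum_add_distrib, Finset.sum_congr rfl (fun k _ => hevod k), Finset.sum_const, Finset.card_univ,
      Fintype.card_fin, smul_eq_mul]
  set g := ∑ k, od k with hg
  have hgoodK : K0 * ((arcs M).filter (fun p => ∀ k, ¬ (lab k p.1 = lab k p.2 ∧ Even (lab k p.1).val))).card ≤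
      w ^ 2 * N := by
    calc _ ≤ K0 * (w ^ 2 * Q ^ d) := Nat.mul_le_mul_left _ hgood
      _ = w ^ 2 * (K0 * Q ^ d) := by ring
      _ ≤ w ^ 2 * N := Nat.mul_le_mul_left _ hQd
  have hmain : K0 * ((w - 1) * N) + (K0 + 2) * g ≤ (K0 + 2) * (d * N) + (w ^ 2 + 1) * N := by
    have h1 : K0 * e ≤ K0 * ((arcs M).filter (fun p => ∀ k, ¬ (lab k p.1 = lab k p.2 ∧ Even (lab k p.1).val))).card +
        K0 * ∑ k, (A k).card := by
      rw [← Nat.mul_add]
      exact Nat.mul_le_mul_left _ (hc1.trans (Nat.add_le_add_left hc2 _))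
    have h2 : (K0 + 2) * (∑ k, ev k) + (K0 + 2) * g = (K0 + 2) * (d * N) := by
      rw [← Nat.mul_add, hsum]
    have h3 : (w ^ 2 + 1) * N = w ^ 2 * N + N := by ring
    omega
  obtain ⟨c, rfl⟩ : ∃ c, w = c + 1 := ⟨w - 1, by omega⟩
  rw [Nat.add_sub_cancel] at hmain harc
  have hd : d + 1 = c + 1 := by
    by_contra hne
    have hd1 : d + 1 ≤ c := by omega
    have h1 : (K0 + 2) * ((d + 1) * N) ≤ (K0 + 2) * (c * N) :=
      Nat.mul_le_mul_left _ (Nat.mul_le_mul_right _ hd1)
    have h2 : (K0 + 2) * ((d + 1) * N) = (K0 + 2) * (d * N) + (K0 + 2) * N := by ring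
    have h3 : (K0 + 2) * (c * N) = K0 * (c * N) + 2 * c * N := by ring
    have h4 : (K0 + 2) * N ≤ (2 * c + ((c + 1) ^ 2 + 1)) * N := by
      have h5 : (2 * c + ((c + 1) ^ 2 + 1)) * N = 2 * c * N + ((c + 1) ^ 2 + 1) * N := by ring
      omega
    have h5 : K0 + 2 ≤ 2 * c + ((c + 1) ^ 2 + 1) := Nat.le_of_mul_le_mul_right h4 hN
    have h6 : 8 * (c + 1) ^ 3 ≤ K0 := le_trans (Nat.le_mul_of_pos_right _ hK1) hK
    have h7 : 8 * (c + 1) ^ 3 = 8 * c ^ 3 + 24 * c ^ 2 + 24 * c + 8 := by ring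
    have h8 : (c + 1) ^ 2 = c ^ 2 + 2 * c + 1 := by ring
    omega
  have hdc : d = c := by omega
  refine ⟨hd, fun k v => (lab k v).val, fun j u v => M.E u v ∧ weq (fun u v => L j (u, z1) (v, z2)) u v ∧
    (∀ k, Even (lab k u).val ∧ Even (lab k v).val) ∧ ∀ k, k ≠ j → (lab k u).val ≠ (lab k v).val, ?_⟩
  have hgK : K0 * g ≤ ((c + 1) ^ 2 + 2 * c + 1) * N := by
    rw [hdc] at hmain
    have h1 : (K0 + 2) * (c * N) = K0 * (c * N) + 2 * c * N := by ring
    have h2 : (K0 + 2) * g = K0 * g + 2 * g := by ring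
    have h3 : ((c + 1) ^ 2 + 2 * c + 1) * N = ((c + 1) ^ 2 + 1) * N + 2 * c * N := by ring
    omega
  set O : Finset V := Finset.univ.filter (fun v => ∃ k, ¬ Even (lab k v).val) with hO
  have hOg : O.card ≤ g := by
    have h1 : O = Finset.univ.biUnion (fun k : Fin d => Finset.univ.filter (fun v => ¬ Even (lab k v).val)) := by
      ext v
      simp [hO]
    rw [h1]
    exact Finset.card_biUnion_le
  refine ⟨fun j u v h => h.1, fun j u v h => h.2.1, fun j u v h => h.2.2.1, fun j u v h => h.2.2.2,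
    fun k u v h => congrArg Fin.val (hleq k u v h), ?_, ?_, ?_⟩
  · intro k i hi
    by_cases hiQ : i < Q
    · refine le_trans (le_of_eq ?_) (hsize k ⟨i, hiQ⟩ hi)
      congr 1
      apply Finset.filter_congr
      intro v _
      rw [Fin.ext_iff]
    · have h1 : Finset.univ.filter (fun v => (lab k v).val = i) = ∅ := by
        rw [Finset.filter_eq_empty_iff]
        intro v _ hv
        have := (lab k v).isLt
        omega
      rw [h1]
      simp
  · intro j
    have hdir := dir_count M d n _ L τ hL hτ z1 z2 hz lab j (fun k _ => hlab k) (htr j) (hco j)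
    set Dj := (arcs M).filter (fun p => (¬ weq (fun u v => L j (u, z1) (v, z2)) p.1 p.2) ∧
      ∀ k, k ≠ j → ¬ (lab k p.1 = lab k p.2 ∧ Even (lab k p.1).val)) with hDj
    set Hj := ((Finset.univ ×ˢ Finset.univ : Finset (V × V)).filter (fun p => (M.E p.1 p.2 ∧
      weq (fun u v => L j (u, z1) (v, z2)) p.1 p.2 ∧
      (∀ k, Even (lab k p.1).val ∧ Even (lab k p.2).val) ∧ ∀ k, k ≠ j → (lab k p.1).val ≠ (lab k p.2).val))) with hHj
    set Oj := (arcs M).filter (fun p => p.1 ∈ O ∨ p.2 ∈ O) with hOj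
    have hcov : arcs M ⊆ (Hj ∪ Oj) ∪ (Dj ∪ (Finset.univ.erase j).biUnion A) := by
      intro p hp
      by_cases h1 : p.1 ∈ O ∨ p.2 ∈ O
      · exact Finset.mem_union_left _ (Finset.mem_union_right _ (Finset.mem_filter.2 ⟨hp, h1⟩))
      push Not at h1
      have he1 : ∀ k, Even (lab k p.1).val := by
        intro k
        by_contra h
        exact h1.1 (Finset.mem_filter.2 ⟨Finset.mem_univ _, k, h⟩)
      have he2 : ∀ k, Even (lab k p.2).val := by
        intro k
        by_contra h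
        exact h1.2 (Finset.mem_filter.2 ⟨Finset.mem_univ _, k, h⟩)
      by_cases h2 : ∃ k, k ≠ j ∧ lab k p.1 = lab k p.2
      · obtain ⟨k, hk1, hk2⟩ := h2
        refine Finset.mem_union_right _ (Finset.mem_union_right _ (Finset.mem_biUnion.2 ⟨k,
          Finset.mem_erase.2 ⟨hk1, Finset.mem_univ _⟩, Finset.mem_filter.2 ⟨hp, hk2, he1 k⟩⟩))
      push Not at h2
      by_cases h3 : weq (fun u v => L j (u, z1) (v, z2)) p.1 p.2
      · refine Finset.mem_union_left _ (Finset.mem_union_left _ (Finset.mem_filter.2 ⟨?_, ?_, h3,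
          fun k => ⟨he1 k, he2 k⟩, fun k hk h => h2 k hk (Fin.ext h)⟩))
        · exact Finset.mem_product.2 ⟨Finset.mem_univ _, Finset.mem_univ _⟩
        · exact (Finset.mem_filter.1 hp).2
      · exact Finset.mem_union_right _ (Finset.mem_union_left _ (Finset.mem_filter.2 ⟨hp, h3,
          fun k hk h => h2 k hk h.1⟩))
    have hcc : e ≤ (Hj.card + Oj.card) + (Dj.card + ∑ k ∈ Finset.univ.erase j, (A k).card) := by
      refine (Finset.card_le_card hcov).trans ((Finset.card_union_le _ _).trans ?_)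
      refine Nat.add_le_add (Finset.card_union_le _ _) ((Finset.card_union_le _ _).trans ?_)
      exact Nat.add_le_add_left Finset.card_biUnion_le _
    have hOc := cg_deg M O
    rw [← hOj, Nat.add_sub_cancel] at hOc
    have h5 : K0 * Oj.card ≤ 2 * c * (((c + 1) ^ 2 + 2 * c + 1) * N) := by
      calc K0 * Oj.card ≤ K0 * (2 * (c * g)) :=
            Nat.mul_le_mul_left _ (hOc.trans (Nat.mul_le_mul_left _ (Nat.mul_le_mul_left _ hOg)))
        _ = 2 * c * (K0 * g) := by ring
        _ ≤ _ := Nat.mul_le_mul_left _ hgK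
    have h6 : K0 * Dj.card ≤ 2 * (c + 1) ^ 2 * N := by
      calc K0 * Dj.card ≤ K0 * (2 * ((c + 1) ^ 2 * Q ^ d)) := Nat.mul_le_mul_left _ hdir
        _ = 2 * (c + 1) ^ 2 * (K0 * Q ^ d) := by ring
        _ ≤ _ := Nat.mul_le_mul_left _ hQd
    have h7 : K0 * ∑ k ∈ Finset.univ.erase j, (A k).card + (K0 + 2) * N ≤ (K0 + 2) * (c * N) := by
      have h8 : K0 * ∑ k ∈ Finset.univ.erase j, (A k).card ≤ ∑ k ∈ Finset.univ.erase j, (K0 + 2) * N := by
        rw [Finset.mul_sum]
        apply Finset.sum_le_sum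
        intro k _
        refine (hAk k).trans (Nat.mul_le_mul_left _ ?_)
        have := hevod k
        omega
      rw [Finset.sum_const, Finset.card_erase_of_mem (Finset.mem_univ _), Finset.card_univ, Fintype.card_fin,
        smul_eq_mul] at h8
      obtain ⟨c', hc'⟩ : ∃ c', c = c' + 1 := ⟨c - 1, by omega⟩
      have hdc' : d - 1 = c' := by omega
      rw [hdc'] at h8
      have h9 : (K0 + 2) * ((c' + 1) * N) = c' * ((K0 + 2) * N) + (K0 + 2) * N := by ring
      rw [hc']
      omega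
    have h8 : K0 * e ≤ (K0 * Hj.card + K0 * Oj.card) + (K0 * Dj.card + K0 * ∑ k ∈ Finset.univ.erase j, (A k).card) := by
      rw [← Nat.mul_add, ← Nat.mul_add, ← Nat.mul_add]
      exact Nat.mul_le_mul_left _ hcc
    have h9 : K0 * N ≤ K0 * Hj.card + (2 * c * ((c + 1) ^ 2 + 2 * c + 1) + 2 * (c + 1) ^ 2 + 2 * c + 1) * N := by
      have e1 : (2 * c * ((c + 1) ^ 2 + 2 * c + 1) + 2 * (c + 1) ^ 2 + 2 * c + 1) * N =
        2 * c * (((c + 1) ^ 2 + 2 * c + 1) * N) + 2 * (c + 1) ^ 2 * N + 2 * (c * N) + N := by ring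
      have e2 : (K0 + 2) * (c * N) = K0 * (c * N) + 2 * (c * N) := by ring
      have e3 : (K0 + 2) * N = K0 * N + 2 * N := by ring
      omega
    have h10 : 2 * c * ((c + 1) ^ 2 + 2 * c + 1) + 2 * (c + 1) ^ 2 + 2 * c + 1 ≤ 8 * (c + 1) ^ 3 := by
      have e1 : 8 * (c + 1) ^ 3 = 2 * c * ((c + 1) ^ 2 + 2 * c + 1) + 2 * (c + 1) ^ 2 + 2 * c + 1 +
          (6 * c ^ 3 + 14 * c ^ 2 + 14 * c + 5) := by ring
      omega
    have h11 := cg_many (c + 1) K0 K N Hj.card _ h10 (by omega) hK h9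
    unfold eIn
    convert h11
  · have h1 : K * g ≤ N := by
      have h2 : (8 * (c + 1) ^ 3) * (K * g) ≤ (8 * (c + 1) ^ 3) * N := by
        calc (8 * (c + 1) ^ 3) * (K * g) = (8 * (c + 1) ^ 3 * K) * g := by ring
          _ ≤ K0 * g := Nat.mul_le_mul_right _ hK
          _ ≤ ((c + 1) ^ 2 + 2 * c + 1) * N := hgK
          _ ≤ _ := by
            apply Nat.mul_le_mul_right
            have e1 : 8 * (c + 1) ^ 3 = (c + 1) ^ 2 + 2 * c + 1 + (8 * c ^ 3 + 23 * c ^ 2 + 20 * c + 6) := by ring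
            omega
      exact Nat.le_of_mul_le_mul_left h2 (by positivity)
    exact (Nat.mul_le_mul_left _ hOg).trans h1

end Pool.Agent.BoolWidth
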