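import Pool.Agent.Lib_MP_0cf6e1_b.PMain
import Pool.Agent.Lib_MP_0cf6e1_t.Exist2
import Pool.Agent.Lib_MP_0cf6e1_t.ClsA
import Pool.Agent.Lib_MP_0cf6e1_t.CntA
import Pool.Agent.Lib_MP_0cf6e1_t.Forest

/-!
# Width five: definitions
-/

set_option autoImplicit false

open scoped Classical

namespace Pool.Agent.BoolWidth

/-- the vectors `p` and `q` differ exactly in the coordinate `j` -/
def DiffAt {d : ℕ} (j : Fin d) (p q : Fin d → Prop) : Prop := ∀ k, (p k ↔ q k) ↔ k ≠ j

/-- `τ` holds at `p` and not at its complement -/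
def TS {d : ℕ} (τ : (Fin d → Prop) → Prop) (p : Fin d → Prop) : Prop := τ p ∧ ¬ τ (fun k => ¬ p k)

/-- `τ` holds neither at `p` nor at its complement -/
def NS {d : ℕ} (τ : (Fin d → Prop) → Prop) (p : Fin d → Prop) : Prop := ¬ τ p ∧ ¬ τ (fun k => ¬ p k)

def EdgeTT {d : ℕ} (τ : (Fin d → Prop) → Prop) (j : Fin d) : Prop := ∃ p q, DiffAt j p q ∧ TS τ p ∧ TS τ q
def EdgeTN {d : ℕ} (τ : (Fin d → Prop) → Prop) (j : Fin d) : Prop := ∃ p q, DiffAt j p q ∧ TS τ p ∧ NS τ q
def EdgeNN {d : ℕ} (τ : (Fin d → Prop) → Prop) (j : Fin d) : Prop := ∃ p q, DiffAt j p q ∧ NS τ p ∧ NS τ q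

/-- the reduced realizer on the vertices of the graph -/
structure Rep {w d : ℕ} {V : Type} (M : MG w V) (R : Fin d → V → V → Prop) (τ : (Fin d → Prop) → Prop) : Prop where
  tr : ∀ k u v t, R k u v → R k v t → R k u t
  co : ∀ k u v t, ¬ R k u v → ¬ R k v t → ¬ R k u t
  full : ∀ u v, M.lt u v → ¬ M.E u v → TS τ (fun k => R k u v) ∧ TS τ (fun k => ¬ R k v u)
  arc : ∀ u v, M.E u v → TS τ (fun k => R k u v) ∧ NS τ (fun k => ¬ R k v u)
  inc : ∀ u v, u ≠ v → ¬ M.lt u v → ¬ M.lt v u → NS τ (fun k => R k u v) ∧ NS τ (fun k => ¬ R k v u)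

/-- levels `0, …, T - 1`; each cell (chain, level) has `m` elements -/
structure Graded {w : ℕ} {V : Type} [Fintype V] (M : MG w V) (lev : V → ℕ) (T m : ℕ) : Prop where
  lt : ∀ v, lev v < T
  arc : ∀ u v, M.E u v → lev v = lev u + 1
  full : ∀ u v, lev u + 2 ≤ lev v → M.lt u v
  inc : ∀ u v, lev u = lev v → M.ch u ≠ M.ch v → ¬ M.lt u v
  cell : ∀ c t, t < T → (Finset.univ.filter (fun v => M.ch v = c ∧ lev v = t)).card = m

/-- the classes of arcs served by exactly one order -/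
structure HD {w d : ℕ} {V : Type} [Fintype V] (M : MG w V) (R : Fin d → V → V → Prop) (s K : ℕ)
    (lab : Fin d → V → ℕ) (H : Fin d → V → V → Prop) : Prop where
  sub : ∀ j u v, H j u v → M.E u v
  tie : ∀ j u v, H j u v → weq (R j) u v
  ev : ∀ j u v, H j u v → ∀ k, Even (lab k u) ∧ Even (lab k v)
  ne : ∀ j u v, H j u v → ∀ k, k ≠ j → lab k u ≠ lab k v
  labeq : ∀ k u v, weq (R k) u v → lab k u = lab k v
  small : ∀ k i, Even i → (Finset.univ.filter (fun v => lab k v = i)).card ≤ s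
  many : ∀ j, K * Fintype.card V ≤ K * eIn (H j) Finset.univ + Fintype.card V
  odd : K * (Finset.univ.filter (fun v => ∃ k, ¬ Even (lab k v))).card ≤ Fintype.card V

/-- `c 0, …, c r` is a path -/
def IsPath {V : Type} (A : V → V → Prop) (r : ℕ) (c : ℕ → V) : Prop :=
  (∀ i, i < r → Adj A (c i) (c (i + 1))) ∧ ∀ i j, i ≤ r → j ≤ r → c i = c j → i = j

/-- classes of arcs all of whose short paths are rigid -/
structure CD {w d : ℕ} {V : Type} [Fintype V] (M : MG w V) (R : Fin d → V → V → Prop) (K : ℕ)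
    (H : Fin d → V → V → Prop) : Prop where
  sub : ∀ j u v, H j u v → M.E u v
  rigid : ∀ j r c, 1 ≤ r → r ≤ w → IsPath (H j) r c → ∀ k, weq (R k) (c 0) (c r) ↔ k = j
  many : ∀ j, K * Fintype.card V ≤ K * eIn (H j) Finset.univ + Fintype.card V

/-- a window of `Λ` levels on which the sets closed under `weq R` have almost constant size and
almost all blocks are small -/
structure Win {V : Type} [Fintype V] (lev : V → ℕ) (R : V → V → Prop) (t0 Λ β : ℕ) : Prop where
  step : ∀ S : V → Prop, (∀ u v, weq R u v → (S u ↔ S v)) → ∀ t t', t0 ≤ t → t < t0 + Λ → t0 ≤ t' →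
    t' < t0 + Λ → (Finset.univ.filter (fun v => lev v = t ∧ S v)).card ≤
      (Finset.univ.filter (fun v => lev v = t' ∧ S v)).card + β
  block : (Finset.univ.filter (fun v => (t0 ≤ lev v ∧ lev v < t0 + Λ) ∧
    β < (Finset.univ.filter (fun u => weq R u v)).card)).card ≤ β

end Pool.Agent.BoolWidth
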