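import Pool.Agent.Lib_MP_0cf6e1_g.TreeG

set_option autoImplicit false

open scoped Classical

namespace Pool.Agent.BoolWidth

private theorem edge_diff {d : ℕ} {V : Type} (R : Fin d → V → V → Prop) (u v : V) (j : Fin d)
    (h : ∀ k, weq (R k) u v ↔ k = j) : DiffAt j (fun k => R k u v) (fun k => ¬ R k v u) := by
  intro k
  have h1 := h k
  unfold weq at h1
  rw [Ne, ← h1]
  tauto

private theorem edge_weq_comm {V : Type} (R : V → V → Prop) (u v : V) : weq R u v ↔ weq R v u := by
  unfold weq
  tauto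

private theorem edge_path1 {w d : ℕ} {V : Type} [Fintype V] {M : MG w V} {R : Fin d → V → V → Prop} {K : ℕ}
    {H : Fin d → V → V → Prop} (hH : CD M R K H) (hw : 1 ≤ w) (j : Fin d) {u v : V} (h : H j u v) :
    ∀ k, weq (R k) u v ↔ k = j := by
  have hne : u ≠ v := by
    rintro rfl
    exact M.irr _ (M.elt _ _ (hH.sub j _ _ h))
  have h1 := hH.rigid j 1 (fun i => if i = 0 then u else v) le_rfl hw ?_
  · simpa using h1
  · refine ⟨?_, ?_⟩
    · intro i hi
      obtain rfl : i = 0 := by omega
      left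
      simpa using h
    · intro a b ha hb hab
      have hab' : (if a = 0 then u else v) = (if b = 0 then u else v) := hab
      by_cases h1 : a = 0 <;> by_cases h2 : b = 0
      · omega
      · rw [if_pos h1, if_neg h2] at hab'
        exact absurd hab' hne
      · rw [if_neg h1, if_pos h2] at hab'
        exact absurd hab'.symm hne
      · omega

private theorem edge_path2 {w d : ℕ} {V : Type} [Fintype V] {M : MG w V} {R : Fin d → V → V → Prop} {K : ℕ}
    {H : Fin d → V → V → Prop} (hH : CD M R K H) (hw : 2 ≤ w) (j : Fin d) {x y z : V}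
    (h1 : Adj (H j) x y) (h2 : Adj (H j) y z) (hxz : x ≠ z) :
    ∀ k, weq (R k) x z ↔ k = j := by
  have hne : ∀ {a b : V}, Adj (H j) a b → a ≠ b := by
    rintro a b (h | h) rfl
    · exact M.irr _ (M.elt _ _ (hH.sub j _ _ h))
    · exact M.irr _ (M.elt _ _ (hH.sub j _ _ h))
  have hxy := hne h1
  have hyz := hne h2
  have h3 := hH.rigid j 2 (fun i => if i = 0 then x else if i = 1 then y else z) (by norm_num) hw ?_
  · simpa using h3
  · refine ⟨?_, ?_⟩
    · intro i hi
      have hi' : i = 0 ∨ i = 1 := by omega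
      rcases hi' with rfl | rfl
      · simpa using h1
      · simpa using h2
    · intro a b ha hb hab
      have hab' : (if a = 0 then x else if a = 1 then y else z) =
        (if b = 0 then x else if b = 1 then y else z) := hab
      have ha' : a = 0 ∨ a = 1 ∨ a = 2 := by omega
      have hb' : b = 0 ∨ b = 1 ∨ b = 2 := by omega
      have h5 : ∀ {P : Prop}, x = y ∨ x = z ∨ y = z ∨ y = x ∨ z = x ∨ z = y → P := by
        intro P h
        rcases h with h | h | h | h | h | h
        · exact absurd h hxy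
        · exact absurd h hxz
        · exact absurd h hyz
        · exact absurd h.symm hxy
        · exact absurd h.symm hxz
        · exact absurd h.symm hyz
      rcases ha' with rfl | rfl | rfl <;> rcases hb' with rfl | rfl | rfl <;> simp at hab' <;>
        first
        | rfl
        | exact h5 (by tauto)

theorem edge_tt {w d : ℕ} {V : Type} [Fintype V] (M : MG w V) (R : Fin d → V → V → Prop) (τ : (Fin d → Prop) → Prop)
    (hR : Rep M R τ) (K g : ℕ) (H : Fin d → V → V → Prop) (hH : CD M R K H) (hg : Gir M.E g) (hgw : w + 1 ≤ g)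
    (hK : w < K) (hw : 1 ≤ w) (hN : 0 < Fintype.card V) (j : Fin d) : EdgeTT τ j := by
  obtain ⟨r, c, hr1, hrw, hp, hc⟩ := tt_path M (H j) (hH.sub j) g K hg hgw hK hN (hH.many j)
  have hne : c 0 ≠ c r := by
    intro h
    have h1 := hp.2 0 r (Nat.zero_le _) le_rfl h
    omega
  have hrig := hH.rigid j r c hr1 hrw hp
  rcases M.chain _ _ hc hne with hlt | hlt
  · have h1 := hR.full _ _ hlt (fun hE => M.ech _ _ hE hc)
    exact ⟨_, _, edge_diff R _ _ j hrig, h1.1, h1.2⟩
  · have h1 := hR.full _ _ hlt (fun hE => M.ech _ _ hE hc.symm)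
    exact ⟨_, _, edge_diff R _ _ j (fun k => (edge_weq_comm _ _ _).trans (hrig k)), h1.1, h1.2⟩

theorem edge_tn {w d : ℕ} {V : Type} [Fintype V] (M : MG w V) (R : Fin d → V → V → Prop) (τ : (Fin d → Prop) → Prop)
    (hR : Rep M R τ) (K : ℕ) (H : Fin d → V → V → Prop) (hH : CD M R K H)
    (hK : 2 ≤ K) (hw : 1 ≤ w) (hN : 0 < Fintype.card V) (j : Fin d) : EdgeTN τ j := by
  have hmany := hH.many j
  have hpos : 0 < eIn (H j) Finset.univ := by
    by_contra h0
    have h0' : eIn (H j) Finset.univ = 0 := by omega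
    rw [h0'] at hmany
    nlinarith
  unfold eIn at hpos
  obtain ⟨⟨u, v⟩, huv⟩ := Finset.card_pos.mp hpos
  have huv' : H j u v := (Finset.mem_filter.mp huv).2
  have h1 := hR.arc u v (hH.sub j u v huv')
  exact ⟨_, _, edge_diff R _ _ j (edge_path1 hH hw j huv'), h1.1, h1.2⟩

/-- without a neutral edge in direction `j` the arcs of `H j` form a partial injection -/
theorem strand {w d : ℕ} {V : Type} [Fintype V] (M : MG w V) (R : Fin d → V → V → Prop) (τ : (Fin d → Prop) → Prop)
    (hR : Rep M R τ) (K : ℕ) (H : Fin d → V → V → Prop) (hH : CD M R K H) (hw : 2 ≤ w) (j : Fin d)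
    (hj : ¬ EdgeNN τ j) :
    (∀ u u' v, H j u v → H j u' v → u = u') ∧ ∀ u v v', H j u v → H j u v' → v = v' := by
  refine ⟨?_, ?_⟩
  · intro u u' v h1 h2
    by_contra hne
    have e1 := hH.sub j _ _ h1
    have e2 := hH.sub j _ _ h2
    have h3 := hR.inc u u' hne (fun hlt => M.ecov _ _ _ e1 hlt (M.elt _ _ e2))
      (fun hlt => M.ecov _ _ _ e2 hlt (M.elt _ _ e1))
    exact hj ⟨_, _, edge_diff R _ _ j (edge_path2 hH hw j (Or.inl h1) (Or.inr h2) hne), h3.1, h3.2⟩
  · intro u v v' h1 h2
    by_contra hne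
    have e1 := hH.sub j _ _ h1
    have e2 := hH.sub j _ _ h2
    have h3 := hR.inc v v' hne (fun hlt => M.ecov _ _ _ e2 (M.elt _ _ e1) hlt)
      (fun hlt => M.ecov _ _ _ e1 (M.elt _ _ e2) hlt)
    exact hj ⟨_, _, edge_diff R _ _ j (edge_path2 hH hw j (Or.inr h1) (Or.inl h2) hne), h3.1, h3.2⟩

end Pool.Agent.BoolWidth
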