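import Pool.Agent.Lib_MP_0cf6e1_g.SubG

set_option autoImplicit false

open scoped Classical

namespace Pool.Agent.BoolWidth

private theorem pow_aux (w N W K s' : ℕ) (hw : 3 ≤ w) (hK : 1 ≤ K) (hs' : 1 ≤ s') (hN : 0 < N)
    (hW : 2 * K * (2 * K + 1) ^ (w - 1) + K * w + 8 = W)
    (h : w * W * (2 * (N / s') + 2) ^ (w - 1) ≤ 2 * N) :
    1 ≤ s' / K ∧ K * (2 * (N / (s' / K)) + 2) ^ (w - 1) ≤ N := by
  set y : ℕ := N / s' + 1 with hy
  have hx : 2 * (N / s') + 2 = 2 * y := by omega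
  rw [hx] at h
  have hys : N < y * s' := by
    rw [hy, mul_comm]
    exact Nat.lt_mul_div_succ N (by omega)
  have hy1 : 1 ≤ y := by omega
  have hKW : K < W := by
    have : K * 1 ≤ K * w := Nat.mul_le_mul_left K (by omega)
    omega
  have hKs : K ≤ s' := by
    by_contra hlt
    push Not at hlt
    have h1 : w * W * (2 * y) ^ 1 ≤ w * W * (2 * y) ^ (w - 1) :=
      Nat.mul_le_mul_left _ (Nat.pow_le_pow_right (by omega) (by omega))
    have h2 : y * s' ≤ y * K := Nat.mul_le_mul_left y hlt.le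
    have h3 : w * W * (2 * y) ≤ 2 * (y * K) := by
      rw [pow_one] at h1
      omega
    have h4 : y * K < y * W := by
      exact (Nat.mul_lt_mul_left (by omega)).2 hKW
    have h5 : 2 * (y * W) ≤ w * W * (2 * y) := by nlinarith
    omega
  have hs1 : 1 ≤ s' / K := (Nat.one_le_div_iff (by omega)).2 hKs
  refine ⟨hs1, ?_⟩
  set s := s' / K with hs
  have hlt : s' < K * (s + 1) := by
    rw [hs]
    exact Nat.lt_mul_div_succ s' (by omega)
  have hle : s' ≤ 2 * K * s := by nlinarith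
  have hNs : N / s < 2 * K * y := by
    rw [Nat.div_lt_iff_lt_mul (by omega)]
    calc N < y * s' := hys
      _ ≤ y * (2 * K * s) := Nat.mul_le_mul_left y hle
      _ = 2 * K * y * s := by ring
  have hb : 2 * (N / s) + 2 ≤ 2 * K * (2 * y) := by
    have : N / s + 1 ≤ 2 * K * y := hNs
    calc 2 * (N / s) + 2 = 2 * (N / s + 1) := by ring
      _ ≤ 2 * (2 * K * y) := Nat.mul_le_mul_left 2 this
      _ = 2 * K * (2 * y) := by ring
  have h1 : K * (2 * (N / s) + 2) ^ (w - 1) ≤ K * ((2 * K) ^ (w - 1) * (2 * y) ^ (w - 1)) := by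
    rw [← mul_pow]
    exact Nat.mul_le_mul_left K (Nat.pow_le_pow_left hb _)
  have h2 : (2 * K) ^ (w - 1) ≤ (2 * K + 1) ^ (w - 1) := Nat.pow_le_pow_left (by omega) _
  have h3 : 2 * (K * (2 * K) ^ (w - 1)) ≤ w * W := by
    have h4 : 2 * (K * (2 * K) ^ (w - 1)) ≤ W := by
      calc 2 * (K * (2 * K) ^ (w - 1)) ≤ 2 * (K * (2 * K + 1) ^ (w - 1)) :=
            Nat.mul_le_mul_left 2 (Nat.mul_le_mul_left K h2)
        _ = 2 * K * (2 * K + 1) ^ (w - 1) := by ring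
        _ ≤ W := by omega
    calc 2 * (K * (2 * K) ^ (w - 1)) ≤ W := h4
      _ = 1 * W := by ring
      _ ≤ w * W := Nat.mul_le_mul_right W (by omega)
  have h5 : 2 * (K * ((2 * K) ^ (w - 1) * (2 * y) ^ (w - 1))) ≤ 2 * N := by
    calc 2 * (K * ((2 * K) ^ (w - 1) * (2 * y) ^ (w - 1)))
        = 2 * (K * (2 * K) ^ (w - 1)) * (2 * y) ^ (w - 1) := by ring
      _ ≤ w * W * (2 * y) ^ (w - 1) := Nat.mul_le_mul_right _ h3
      _ ≤ 2 * N := h
  omega

/-- From `exist_sub_gr` with `W ≥ 2 K (2 K + 1) ^ (w - 1) + K w + 8` (its `s` called `s'`), `b = 8 W`, `s = s' / K`. `s' ≥ K`: with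
`x = 2 (N / s') + 2`, `x s' ≥ 2 N`, so if `s' < K` then `x K ≥ 2 N` and `w W x ^ 2 ≤ w W x ^ (w - 1) ≤ 2 N ≤ x K`, `w W x ≤ K`, false.
`2 (N / s) + 2 ≤ (2 K + 1) x` as `2 K s ≥ s'`. `K (w - 1) ≤ 2 (W - 1)` for the arcs. `1 ≤ m` since `card V = w m T > 0`. -/
theorem exist_graded (w K : ℕ) (hw : 3 ≤ w) (hK : 1 ≤ K) :
    ∃ (V : Type) (_ : Fintype V) (M : MG w V) (lev : V → ℕ) (T m s b : ℕ), Graded M lev T m ∧ 1 ≤ m ∧ K ≤ T ∧
      K ≤ b ∧ 1 ≤ s ∧ K * ((w - 1) * Fintype.card V) ≤ K * eIn M.E Finset.univ + Fintype.card V ∧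
      (∀ S : Finset V, S.card ≤ K * s → b * eIn M.E S ≤ (b + 2) * S.card) ∧
      K * (2 * (Fintype.card V / s) + 2) ^ (w - 1) ≤ Fintype.card V ∧ Gir M.E K := by
  obtain ⟨W, hW⟩ : ∃ W, 2 * K * (2 * K + 1) ^ (w - 1) + K * w + 8 = W := ⟨_, rfl⟩
  have hKw : K ≤ K * w := by
    calc K = K * 1 := by ring
      _ ≤ K * w := Nat.mul_le_mul_left K (by omega)
  have hwK : w ≤ K * w := by
    calc w = 1 * w := by ring
      _ ≤ K * w := Nat.mul_le_mul_right w hK
  have hKW : K ≤ W := by omega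
  obtain ⟨V, hV, M, lev, T, m, s', hG, hT, hs', hN, he, hS, hpow, hg⟩ :=
    exist_sub_gr w W (by omega) (by omega) (by omega)
  obtain ⟨hs, hp⟩ := pow_aux w (Fintype.card V) W K s' hw hK hs' hN hW hpow
  refine ⟨V, hV, M, lev, T, m, s' / K, 8 * W, hG, ?_, by omega, by omega, hs, ?_, ?_, hp, ?_⟩
  · obtain ⟨v⟩ : Nonempty V := Fintype.card_pos_iff.1 hN
    rw [← hG.cell (M.ch v) (lev v) (hG.lt v)]
    exact Finset.card_pos.2 ⟨v, Finset.mem_filter.2 ⟨Finset.mem_univ _, rfl, rfl⟩⟩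
  · set N := Fintype.card V with hNdef
    set e := eIn M.E Finset.univ with hedef
    have hW1 : 0 < 2 * (W - 1) := by omega
    apply Nat.le_of_mul_le_mul_left _ hW1
    have h1 : K * (w - 1) ≤ 2 * (W - 1) := by
      have : K * (w - 1) ≤ K * w := Nat.mul_le_mul_left K (by omega)
      omega
    calc 2 * (W - 1) * (K * ((w - 1) * N)) = K * (2 * (W - 1) * ((w - 1) * N)) := by ring
      _ ≤ K * (2 * (W - 1) * e + (w - 1) * N) := Nat.mul_le_mul_left K he
      _ = 2 * (W - 1) * (K * e) + K * (w - 1) * N := by ring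
      _ ≤ 2 * (W - 1) * (K * e) + 2 * (W - 1) * N :=
          Nat.add_le_add_left (Nat.mul_le_mul_right N h1) _
      _ = 2 * (W - 1) * (K * e + N) := by ring
  · intro S hSc
    apply hS S
    exact le_trans hSc (Nat.mul_div_le s' K)
  · exact hg.mono (fun _ _ h => h) hKW

end Pool.Agent.BoolWidth
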