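import Pool.Agent.Lib_MP_0cf6e1_g.Defs

set_option autoImplicit false

open scoped Classical

namespace Pool.Agent.BoolWidth

private theorem width_smallG (w : ℕ) : @HasWidth (Fin 2 × Fin w) (spo w) w := by
  let _ := spo w
  constructor
  · refine ⟨Finset.univ.map ⟨fun a : Fin w => ((0 : Fin 2), a), ?_⟩, ?_, ?_⟩
    · intro a b hab
      exact congrArg Prod.snd hab
    · intro x hx y hy hxy hle
      rw [Finset.coe_map, Set.mem_image] at hx hy
      obtain ⟨a, _, rfl⟩ := hx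
      obtain ⟨b, _, rfl⟩ := hy
      rcases hle with h | h
      · exact hxy h
      · exact lt_irrefl _ h
    · simp
  · intro s hs
    have hinj : Set.InjOn (fun x : Fin 2 × Fin w => x.2) (s : Set _) := by
      intro x hx y hy hxy
      by_contra hne
      have h1 : x.1 ≠ y.1 := fun h => hne (Prod.ext h hxy)
      rcases lt_or_gt_of_ne h1 with h | h
      · exact hs hx hy hne (Or.inr h)
      · exact hs hy hx (Ne.symm hne) (Or.inr h)
    calc s.card = (s.image (fun x : Fin 2 × Fin w => x.2)).card := (Finset.card_image_of_injOn hinj).symm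
      _ ≤ (Finset.univ : Finset (Fin w)).card := Finset.card_le_card (Finset.subset_univ _)
      _ = w := by simp

private theorem zero_smallG (w : ℕ) (hw : 1 ≤ w) : ¬ @HasBoolRealizer (Fin 2 × Fin w) (spo w) 0 := by
  rintro ⟨L, τ, hL, hτ⟩
  let _ := spo w
  have hw0 : 0 < w := hw
  have hne : ((0 : Fin 2), (⟨0, hw0⟩ : Fin w)) ≠ ((1 : Fin 2), ⟨0, hw0⟩) := by
    intro h
    have h0 : (0 : Fin 2) = 1 := congrArg Prod.fst h
    exact absurd h0 (by decide)
  have h1 := hτ ((0 : Fin 2), (⟨0, hw0⟩ : Fin w)) ((1 : Fin 2), ⟨0, hw0⟩) hne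
  have h2 := hτ ((1 : Fin 2), (⟨0, hw0⟩ : Fin w)) ((0 : Fin 2), ⟨0, hw0⟩) hne.symm
  have e1 : (fun i : Fin 0 => L i ((0 : Fin 2), (⟨0, hw0⟩ : Fin w)) ((1 : Fin 2), ⟨0, hw0⟩)) =
      fun i : Fin 0 => L i ((1 : Fin 2), (⟨0, hw0⟩ : Fin w)) ((0 : Fin 2), ⟨0, hw0⟩) := by
    funext i
    exact i.elim0
  rw [e1, ← h2] at h1
  have h3 : SLt w ((0 : Fin 2), (⟨0, hw0⟩ : Fin w)) ((1 : Fin 2), ⟨0, hw0⟩) := by
    change (0 : Fin 2) < 1
    decide
  have h4 : SLt w ((1 : Fin 2), (⟨0, hw0⟩ : Fin w)) ((0 : Fin 2), ⟨0, hw0⟩) := h1.1 h3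
  have h5 : (1 : Fin 2) < 0 := h4
  exact absurd h5 (by decide)

private theorem one_smallG : ¬ @HasBoolRealizer (Fin 2 × Fin 2) (spo 2) 1 := by
  rintro ⟨L, τ, hL, hτ⟩
  let _ := spo 2
  have hL0 := hL 0
  set a0 : Fin 2 × Fin 2 := (0, 0) with ha0
  set a1 : Fin 2 × Fin 2 := (0, 1) with ha1
  set b0 : Fin 2 × Fin 2 := (1, 0) with hb0
  have n1 : a0 ≠ b0 := by decide
  have n2 : a0 ≠ a1 := by decide
  have t1 : τ (fun i => L i a0 b0) := by
    rw [← hτ a0 b0 n1]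
    change SLt 2 a0 b0
    change (0 : Fin 2) < 1
    decide
  have t2 : ¬ τ (fun i => L i a0 a1) := by
    rw [← hτ a0 a1 n2]
    intro h
    have h' : (0 : Fin 2) < 0 := h
    exact absurd h' (by decide)
  have t3 : ¬ τ (fun i => L i a1 a0) := by
    rw [← hτ a1 a0 n2.symm]
    intro h
    have h' : (0 : Fin 2) < 0 := h
    exact absurd h' (by decide)
  have e : ∀ x y : Fin 2 × Fin 2, (L 0 x y ↔ L 0 a0 b0) →
      (fun i => L i x y) = fun i => L i a0 b0 := by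
    intro x y h
    funext i
    have hi : i = 0 := Subsingleton.elim _ _
    rw [hi]
    exact propext h
  have hor : (L 0 a0 a1 ∧ ¬ L 0 a1 a0) ∨ (L 0 a1 a0 ∧ ¬ L 0 a0 a1) := by
    rcases trichotomous_of (L 0) a0 a1 with h | h | h
    · exact Or.inl ⟨h, fun h' => asymm_of (L 0) h h'⟩
    · exact absurd h n2
    · exact Or.inr ⟨h, fun h' => asymm_of (L 0) h h'⟩
  by_cases hp : L 0 a0 b0
  · rcases hor with ⟨h, -⟩ | ⟨h, -⟩
    · exact t2 (by rw [e a0 a1 ⟨fun _ => hp, fun _ => h⟩]; exact t1)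
    · exact t3 (by rw [e a1 a0 ⟨fun _ => hp, fun _ => h⟩]; exact t1)
  · rcases hor with ⟨-, h⟩ | ⟨-, h⟩
    · exact t3 (by rw [e a1 a0 ⟨fun h' => absurd h' h, fun h' => absurd h' hp⟩]; exact t1)
    · exact t2 (by rw [e a0 a1 ⟨fun h' => absurd h' h, fun h' => absurd h' hp⟩]; exact t1)

/-- `w = 1` (chain with two elements) and `w = 2` (`spo 2`, or any poset of width 2 with a comparability) -/
theorem small_g (w : ℕ) (hw : 1 ≤ w) (hw2 : w ≤ 2) : ∃ (X : Type) (_ : Fintype X) (_ : PartialOrder X), HasWidth X w ∧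
    ∀ d : ℕ, HasBoolRealizer X d → w ≤ d := by
  refine ⟨Fin 2 × Fin w, inferInstance, spo w, width_smallG w, ?_⟩
  intro d hd
  by_contra hcon
  have hw' : w = 1 ∨ w = 2 := by omega
  have hd' : d = 0 ∨ (d = 1 ∧ w = 2) := by omega
  rcases hd' with rfl | ⟨rfl, rfl⟩
  · exact zero_smallG w hw hd
  · exact one_smallG hd

end Pool.Agent.BoolWidth
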