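import Pool.Agent.Lib_MP_0cf6e1_g.MasterG
import Pool.Agent.Lib_MP_0cf6e1_g.SmallG
import Pool.Agent.Lib_MP_0cf6e1_t.TDefs

/-!
# The final theorems
-/

set_option autoImplicit false

open scoped Classical

namespace Pool.Agent.BoolWidth

/-- `B(w) ≥ w` for `w ≤ 5` -/
theorem five (w : ℕ) (hw : 1 ≤ w) (hw5 : w ≤ 5) : ∃ (X : Type) (_ : Fintype X) (_ : PartialOrder X), HasWidth X w ∧
    ∀ d : ℕ, HasBoolRealizer X d → w ≤ d := by
  rcases Nat.lt_or_ge 2 w with h3 | h3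
  swap
  · exact small_g w hw h3
  obtain ⟨V, fV, M, n, hM⟩ := master w h3
  refine ⟨(V × Fin n) ⊕ Fin w, inferInstance, xpo M n, xwidth M n, ?_⟩
  intro d hd
  by_contra hcon
  obtain ⟨L, τ, hL, hτ⟩ := restrict M n d hd
  obtain ⟨h1, h2, h4, h5⟩ := hM d L τ (by omega) hL hτ
  have hw' : w = 3 ∨ w = 4 ∨ w = 5 := by omega
  rcases hw' with rfl | rfl | rfl
  · obtain rfl : d = 2 := by omega
    exact cls2 τ h2 h4
  · obtain rfl : d = 3 := by omega
    exact cls3 τ h2 h4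
  · obtain rfl : d = 4 := by omega
    obtain ⟨h6, h7⟩ := h5 (by norm_num)
    obtain ⟨j0, -, hj0⟩ := h6 0
    obtain ⟨j, k, hjk, hj, hk, ho⟩ := cls4 τ h2 h4 ⟨j0, hj0⟩
    exact h7 j k hjk hj hk ho

/-- the vectors of `(x, y)` and `(x', y')` differ exactly in the coordinate `i` -/
def DiffOnly {X : Type} {d : ℕ} (L : Fin d → X → X → Prop) (i : Fin d) (x y x' y' : X) : Prop :=
  ∀ k, (L k x y ↔ L k x' y') ↔ k ≠ i

theorem edges (w : ℕ) (hw : 4 ≤ w) : ∃ (X : Type) (_ : Fintype X) (_ : PartialOrder X), HasWidth X w ∧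
    ∀ (d : ℕ) (L : Fin d → X → X → Prop) (τ : (Fin d → Prop) → Prop), Pool.Agent.BoolTurn.IsBoolRealizer X L τ → d < w →
      d + 1 = w ∧
      (∀ i, ∃ x y x' y' : X, x < y ∧ x' < y' ∧ DiffOnly L i x y x' y') ∧
      (∀ i, ∃ x y x' y' : X, x < y ∧ (¬ x' ≤ y' ∧ ¬ y' ≤ x') ∧ DiffOnly L i x y x' y') ∧
      ∀ i, ∃ j, j ≠ i ∧ ∃ x y x' y' : X, (¬ x ≤ y ∧ ¬ y ≤ x) ∧ (¬ x' ≤ y' ∧ ¬ y' ≤ x') ∧ DiffOnly L j x y x' y' := by
  obtain ⟨V, fV, M, n, hM⟩ := master w (by omega)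
  refine ⟨(V × Fin n) ⊕ Fin w, inferInstance, xpo M n, xwidth M n, ?_⟩
  intro d L τ hL hd
  let _ := xpo M n
  obtain ⟨hL1, hL2⟩ := hL
  set L' : Fin d → V × Fin n → V × Fin n → Prop := fun i x y => L i (Sum.inl x) (Sum.inl y) with hL'
  set lt' := liftLt M.lt M.E (fun _ _ => 0) n with hlt'
  have hlt : ∀ x y : V × Fin n, ((Sum.inl x : (V × Fin n) ⊕ Fin w) < Sum.inl y) ↔ lt' x y := fun x y => Iff.rfl
  have hL1' : ∀ i, IsStrictTotalOrder (V × Fin n) (L' i) := by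
    intro i
    have := hL1 i
    refine { trichotomous := ?_, irrefl := ?_, trans := ?_ }
    · intro x y hxy hyx
      rcases trichotomous_of (L i) (Sum.inl x) (Sum.inl y) with h | h | h
      · exact absurd h hxy
      · exact Sum.inl.inj h
      · exact absurd h hyx
    · intro x h
      exact irrefl_of (L i) _ h
    · intro x y z h1 h2
      exact trans_of (L i) h1 h2
  -- the vector of `(y, x)` is the complement of the vector of `(x, y)`
  have hflip : ∀ x y : V × Fin n, x ≠ y → (fun k => L' k y x) = fun k => ¬ L' k x y := by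
    intro x y hxy
    funext k
    have := hL1' k
    apply propext
    constructor
    · intro h h'
      exact asymm_of (L' k) h h'
    · intro h
      rcases trichotomous_of (L' k) x y with h' | h' | h'
      · exact absurd h' h
      · exact absurd h' hxy
      · exact h'
  have hτ0 : ∀ x y, x ≠ y → (lt' x y ↔ τ (fun i => L' i x y)) := by
    intro x y hxy
    rw [← hlt, hL2 (Sum.inl x) (Sum.inl y) (fun h => hxy (Sum.inl.inj h))]
  set τ' : (Fin d → Prop) → Prop := fun p => (∃ x y, x ≠ y ∧ lt' x y ∧ (fun i => L' i x y) = p) ∨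
    ¬ ∃ x y, x ≠ y ∧ (fun i => L' i x y) = p with hτ'
  have hτ1 : ∀ x y, x ≠ y → (lt' x y ↔ τ' (fun i => L' i x y)) := by
    intro x y hxy
    constructor
    · intro h
      exact Or.inl ⟨x, y, hxy, h, rfl⟩
    · rintro (⟨x', y', h1, h2, h3⟩ | h)
      · rw [hτ0 x y hxy, ← h3, ← hτ0 x' y' h1]
        exact h2
      · exact absurd ⟨x, y, hxy, rfl⟩ h
  obtain ⟨h1, h2, h3, h4⟩ := hM d L' τ' hd hL1' hτ1
  have hreal : ∀ p, ¬ (τ' p ∧ τ' (fun k => ¬ p k)) → ∃ x y, x ≠ y ∧ (fun i => L' i x y) = p := by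
    intro p hp
    by_contra hno
    apply hp
    refine ⟨Or.inr hno, Or.inr ?_⟩
    rintro ⟨x, y, hxy, hv⟩
    apply hno
    refine ⟨y, x, hxy.symm, ?_⟩
    rw [hflip x y hxy]
    funext k
    have h9 : L' k x y = ¬ p k := congrFun hv k
    rw [h9]
    exact propext not_not
  have hT : ∀ p, TS τ' p → ∃ x y : (V × Fin n) ⊕ Fin w, x < y ∧ (fun i => L i x y) = p := by
    rintro p ⟨ha, hb⟩
    obtain ⟨x, y, hxy, hv⟩ := hreal p (fun h => hb h.2)
    refine ⟨Sum.inl x, Sum.inl y, ?_, hv⟩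
    rw [hlt, hτ1 x y hxy, hv]
    exact ha
  have hN : ∀ p, NS τ' p → ∃ x y : (V × Fin n) ⊕ Fin w, (¬ x ≤ y ∧ ¬ y ≤ x) ∧ (fun i => L i x y) = p := by
    rintro p ⟨ha, hb⟩
    obtain ⟨x, y, hxy, hv⟩ := hreal p (fun h => hb h.2)
    have hxy1 : (Sum.inl x : (V × Fin n) ⊕ Fin w) ≠ Sum.inl y := fun h => hxy (Sum.inl.inj h)
    refine ⟨Sum.inl x, Sum.inl y, ⟨?_, ?_⟩, hv⟩
    · intro h
      have h' := lt_of_le_of_ne h hxy1
      rw [hlt, hτ1 x y hxy, hv] at h'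
      exact ha h'
    · intro h
      have h' := lt_of_le_of_ne h hxy1.symm
      rw [hlt, hτ1 y x hxy.symm, hflip x y hxy] at h'
      apply hb
      have e : (fun k => ¬ L' k x y) = fun k => ¬ p k := by
        funext k
        have h9 : L' k x y = p k := congrFun hv k
        rw [h9]
      rwa [e] at h'
  refine ⟨h1, ?_, ?_, ?_⟩
  · intro i
    obtain ⟨p, q, hpq, hp, hq⟩ := h2 i
    obtain ⟨x, y, hxy, rfl⟩ := hT p hp
    obtain ⟨x', y', hxy', rfl⟩ := hT q hq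
    exact ⟨x, y, x', y', hxy, hxy', hpq⟩
  · intro i
    obtain ⟨p, q, hpq, hp, hq⟩ := h3 i
    obtain ⟨x, y, hxy, rfl⟩ := hT p hp
    obtain ⟨x', y', hxy', rfl⟩ := hN q hq
    exact ⟨x, y, x', y', hxy, hxy', hpq⟩
  · intro i
    obtain ⟨j, hji, p, q, hpq, hp, hq⟩ := (h4 hw).1 i
    obtain ⟨x, y, hxy, rfl⟩ := hN p hp
    obtain ⟨x', y', hxy', rfl⟩ := hN q hq
    exact ⟨j, hji, x, y, x', y', hxy, hxy', hpq⟩

end Pool.Agent.BoolWidth
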