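import Pool.Agent.Lib_MP_0cf6e1_g.CardG

set_option autoImplicit false

open scoped Classical

namespace Pool.Agent.BoolWidth

/-- the classes of a grid defined at the level `t0` are small in every level of the window; `g v` is the integer
part of `G #{u : lev u = t0, wpr R u v} / (w m)`. At `t0`: a class without the vertices in blocks of size `> β` has at most
`(r max - r min) + β` vertices. -/
theorem grid_one {w T m : ℕ} {V : Type} [Fintype V] (M : MG w V) (lev : V → ℕ) (hG : Graded M lev T m)
    (R : V → V → Prop) (htr : ∀ u v t, R u v → R v t → R u t) (hco : ∀ u v t, ¬ R u v → ¬ R v t → ¬ R u t)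
    (t0 Λ β G : ℕ) (ht : t0 + Λ ≤ T) (hΛ : 1 ≤ Λ) (hm : 1 ≤ m) (hw : 1 ≤ w) (hW : Win lev R t0 Λ β) (hG1 : 1 ≤ G) :
    ∃ g : V → Fin (G + 1), (∀ u v, g u < g v → wpr R u v) ∧
      ∀ (c : Fin (G + 1)) (t : ℕ), t0 ≤ t → t < t0 + Λ →
        G * (Finset.univ.filter (fun v => lev v = t ∧ g v = c)).card ≤ w * m + 3 * G * β := by
  have hwm : 1 ≤ w * m := Nat.mul_pos hw hm
  have hcard := (card_graded M lev T m hG).2 t0 (by omega)
  let P : V → Finset V := fun v => Finset.univ.filter (fun u => lev u = t0 ∧ wpr R u v)
  let r : V → ℕ := fun v => (P v).card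
  have hrle : ∀ v, r v ≤ w * m := by
    intro v
    rw [← hcard]
    apply Finset.card_le_card
    intro u hu
    exact Finset.mem_filter.2 ⟨Finset.mem_univ _, (Finset.mem_filter.1 hu).2.1⟩
  have hsub_wpr : ∀ u v, wpr R u v → P u ⊆ P v := by
    intro u v h x hx
    have hx' := (Finset.mem_filter.1 hx).2
    exact Finset.mem_filter.2 ⟨Finset.mem_univ _, hx'.1, wpr_trans R htr hco _ _ _ hx'.2 h⟩
  have hsub_weq : ∀ u v, weq R u v → P u ⊆ P v := by
    intro u v h x hx
    have hx' := (Finset.mem_filter.1 hx).2
    exact Finset.mem_filter.2 ⟨Finset.mem_univ _, hx'.1, wpr_weq R htr hco _ _ _ hx'.2 h⟩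
  have hr_weq : ∀ u v, weq R u v → r u = r v := by
    intro u v h
    exact le_antisymm (Finset.card_le_card (hsub_weq u v h)) (Finset.card_le_card (hsub_weq v u h.symm))
  have hr_wpr : ∀ u v, wpr R u v → r u ≤ r v := fun u v h => Finset.card_le_card (hsub_wpr u v h)
  have hr_wpr' : ∀ u v, lev u = t0 → wpr R u v → r u < r v := by
    intro u v hu h
    apply Finset.card_lt_card
    refine ⟨hsub_wpr u v h, fun h' => ?_⟩
    have h1 : u ∈ P v := Finset.mem_filter.2 ⟨Finset.mem_univ _, hu, h⟩
    have h2 := (Finset.mem_filter.1 (h' h1)).2.2
    exact h2.2 h2.1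
  have hglt : ∀ v, G * r v / (w * m) < G + 1 := by
    intro v
    rw [Nat.div_lt_iff_lt_mul hwm]
    have h1 := Nat.mul_le_mul_left G (hrle v)
    calc G * r v ≤ G * (w * m) := h1
      _ < (G + 1) * (w * m) := by
        rw [Nat.add_mul, one_mul]
        omega
  refine ⟨fun v => ⟨G * r v / (w * m), hglt v⟩, ?_, ?_⟩
  · intro u v huv
    have h1 : G * r u / (w * m) < G * r v / (w * m) := huv
    have h2 : r u < r v := by
      by_contra h3
      push Not at h3
      have h4 : G * r v / (w * m) ≤ G * r u / (w * m) := Nat.div_le_div_right (Nat.mul_le_mul_left _ h3)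
      omega
    rcases wtri R u v with h | h | h
    · exact h
    · have := hr_wpr v u h
      omega
    · have := hr_weq u v h
      omega
  · intro c t ht0 htΛ
    have hstep := hW.step (fun v => (⟨G * r v / (w * m), hglt v⟩ : Fin (G + 1)) = c) (by
      intro u v h
      have h1 := hr_weq u v h
      constructor
      · intro h2
        rw [← h2]
        apply Fin.ext
        show G * r v / (w * m) = G * r u / (w * m)
        rw [h1]
      · intro h2
        rw [← h2]
        apply Fin.ext
        show G * r u / (w * m) = G * r v / (w * m)
        rw [h1]) t t0 ht0 htΛ le_rfl (by omega)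
    have hstep' : (Finset.univ.filter (fun v => lev v = t ∧
          (⟨G * r v / (w * m), hglt v⟩ : Fin (G + 1)) = c)).card ≤
        (Finset.univ.filter (fun v => lev v = t0 ∧
          (⟨G * r v / (w * m), hglt v⟩ : Fin (G + 1)) = c)).card + β := by
      convert hstep
    have hblock := hW.block
    -- the class at the level t0
    have hC : G * (Finset.univ.filter (fun v => lev v = t0 ∧
        (⟨G * r v / (w * m), hglt v⟩ : Fin (G + 1)) = c)).card ≤ w * m + 2 * (G * β) := by
      have hsplit : (Finset.univ.filter (fun v => lev v = t0 ∧
          (⟨G * r v / (w * m), hglt v⟩ : Fin (G + 1)) = c)) ⊆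
          (Finset.univ.filter (fun v => (t0 ≤ lev v ∧ lev v < t0 + Λ) ∧
            β < (Finset.univ.filter (fun u => weq R u v)).card)) ∪
          (Finset.univ.filter (fun v => (lev v = t0 ∧
            (⟨G * r v / (w * m), hglt v⟩ : Fin (G + 1)) = c) ∧
            (Finset.univ.filter (fun u => weq R u v)).card ≤ β)) := by
        intro v hv
        have hv' := (Finset.mem_filter.1 hv).2
        rw [Finset.mem_union, Finset.mem_filter, Finset.mem_filter]
        rcases Nat.lt_or_ge β (Finset.univ.filter (fun u => weq R u v)).card with h | h
        · left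
          refine ⟨Finset.mem_univ _, ⟨?_, ?_⟩, h⟩
          · omega
          · omega
        · exact Or.inr ⟨Finset.mem_univ _, hv', h⟩
      have h1 := (Finset.card_le_card hsplit).trans (Finset.card_union_le _ _)
      have h2 : G * (Finset.univ.filter (fun v => (lev v = t0 ∧
            (⟨G * r v / (w * m), hglt v⟩ : Fin (G + 1)) = c) ∧
            (Finset.univ.filter (fun u => weq R u v)).card ≤ β)).card ≤ w * m + G * β := by
        set C' := Finset.univ.filter (fun v => (lev v = t0 ∧
            (⟨G * r v / (w * m), hglt v⟩ : Fin (G + 1)) = c) ∧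
            (Finset.univ.filter (fun u => weq R u v)).card ≤ β) with hC'
        rcases C'.eq_empty_or_nonempty with he | hne
        · rw [he]
          simp
        · obtain ⟨a, ha, hamin⟩ := Finset.exists_min_image C' r hne
          obtain ⟨b, hb, hbmax⟩ := Finset.exists_max_image C' r hne
          have ha' := (Finset.mem_filter.1 ha).2
          have hb' := (Finset.mem_filter.1 hb).2
          have hga : G * r a / (w * m) = (c : ℕ) := congrArg Fin.val ha'.1.2
          have hgb : G * r b / (w * m) = (c : ℕ) := congrArg Fin.val hb'.1.2
          have hab : P a ⊆ P b := by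
            rcases wtri R a b with h | h | h
            · exact hsub_wpr a b h
            · have h3 := hr_wpr' b a hb'.1.1 h
              have h4 := hamin b hb
              omega
            · exact hsub_weq a b h
          have hsub : C' ⊆ (P b \ P a) ∪ Finset.univ.filter (fun u => weq R u b) := by
            intro v hv
            have hv' := (Finset.mem_filter.1 hv).2
            rw [Finset.mem_union]
            rcases wtri R v b with h | h | h
            · left
              rw [Finset.mem_sdiff]
              refine ⟨Finset.mem_filter.2 ⟨Finset.mem_univ _, hv'.1.1, h⟩, fun h3 => ?_⟩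
              have h4 := (Finset.mem_filter.1 h3).2
              have h5 := hr_wpr' v a hv'.1.1 h4.2
              have h6 := hamin v hv
              omega
            · have h5 := hr_wpr' b v hb'.1.1 h
              have h6 := hbmax v hv
              omega
            · right
              exact Finset.mem_filter.2 ⟨Finset.mem_univ _, h⟩
          have h3 := (Finset.card_le_card hsub).trans (Finset.card_union_le _ _)
          rw [Finset.card_sdiff_of_subset hab] at h3
          have h4 : (Finset.univ.filter (fun u => weq R u b)).card ≤ β := hb'.2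
          have h5 : r a ≤ r b := Finset.card_le_card hab
          have h6 : C'.card ≤ (r b - r a) + β := by
            have : (P b).card - (P a).card = r b - r a := rfl
            omega
          have h7 : G * r b < (c + 1) * (w * m) := by
            have := Nat.lt_succ_of_le hgb.le
            rwa [Nat.lt_succ_iff, Nat.le_iff_lt_add_one, Nat.div_lt_iff_lt_mul hwm] at this
          have h8 : (c : ℕ) * (w * m) ≤ G * r a := by
            rw [← Nat.le_div_iff_mul_le hwm]
            exact hga.ge
          have h9 : G * (r b - r a) ≤ w * m := by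
            rw [Nat.mul_sub]
            have h10 : ((c : ℕ) + 1) * (w * m) = (c : ℕ) * (w * m) + w * m := by ring
            omega
          calc G * C'.card ≤ G * ((r b - r a) + β) := Nat.mul_le_mul_left _ h6
            _ = G * (r b - r a) + G * β := by ring
            _ ≤ w * m + G * β := by omega
      calc G * (Finset.univ.filter (fun v => lev v = t0 ∧
            (⟨G * r v / (w * m), hglt v⟩ : Fin (G + 1)) = c)).card
          ≤ G * (β + (Finset.univ.filter (fun v => (lev v = t0 ∧
            (⟨G * r v / (w * m), hglt v⟩ : Fin (G + 1)) = c) ∧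
            (Finset.univ.filter (fun u => weq R u v)).card ≤ β)).card) :=
              Nat.mul_le_mul_left _ (h1.trans (by omega))
        _ = G * β + G * (Finset.univ.filter (fun v => (lev v = t0 ∧
            (⟨G * r v / (w * m), hglt v⟩ : Fin (G + 1)) = c) ∧
            (Finset.univ.filter (fun u => weq R u v)).card ≤ β)).card := by ring
        _ ≤ w * m + 2 * (G * β) := by omega
    calc G * (Finset.univ.filter (fun v => lev v = t ∧
          (⟨G * r v / (w * m), hglt v⟩ : Fin (G + 1)) = c)).card
        ≤ G * ((Finset.univ.filter (fun v => lev v = t0 ∧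
          (⟨G * r v / (w * m), hglt v⟩ : Fin (G + 1)) = c)).card + β) := Nat.mul_le_mul_left _ hstep'
      _ = G * (Finset.univ.filter (fun v => lev v = t0 ∧
          (⟨G * r v / (w * m), hglt v⟩ : Fin (G + 1)) = c)).card + G * β := by ring
      _ ≤ w * m + 3 * G * β := by
        have : 3 * G * β = 2 * (G * β) + G * β := by ring
        omega

end Pool.Agent.BoolWidth
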