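import Pool.Agent.Lib_MP_0cf6e1_g.Defs

set_option autoImplicit false

open scoped Classical

namespace Pool.Agent.BoolWidth

theorem last_disj {w d : ℕ} {V : Type} [Fintype V] (M : MG w V) (R : Fin d → V → V → Prop) (K : ℕ)
    (H : Fin d → V → V → Prop) (hH : CD M R K H) (hw : 1 ≤ w) (j k : Fin d) (u v : V) (h1 : H j u v)
    (h2 : H k u v) : j = k := by
  have hne : u ≠ v := by
    intro h
    subst h
    exact M.irr _ (M.elt _ _ (hH.sub j _ _ h1))
  let c : ℕ → V := fun n => if n = 0 then u else v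
  have hp : ∀ j, H j u v → IsPath (H j) 1 c := by
    intro j hj
    constructor
    · intro n hn
      obtain rfl : n = 0 := by omega
      exact Or.inl (by simpa [c] using hj)
    · intro a b ha hb hab
      rcases Nat.eq_zero_or_pos a with ha0 | ha0 <;> rcases Nat.eq_zero_or_pos b with hb0 | hb0
      · omega
      · exfalso
        have hb1 : b ≠ 0 := by omega
        simp only [c, ha0, hb1, if_true, if_false] at hab
        exact hne hab
      · exfalso
        have ha1 : a ≠ 0 := by omega
        simp only [c, hb0, ha1, if_true, if_false] at hab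
        exact hne hab.symm
      · omega
  have e1 := hH.rigid j 1 c le_rfl hw (hp j h1) j
  have e2 := hH.rigid k 1 c le_rfl hw (hp k h2) j
  exact e2.1 (e1.2 rfl)

theorem last_missing {V : Type} [Fintype V] (A : V → V → Prop) (K : ℕ)
    (hout : ∀ u v v', A u v → A u v' → v = v') (hmany : K * Fintype.card V ≤ K * eIn A Finset.univ + Fintype.card V) :
    K * (Finset.univ.filter (fun u => ∀ v, ¬ A u v)).card ≤ Fintype.card V := by
  have h1 : eIn A Finset.univ ≤ (Finset.univ.filter (fun u => ∃ v, A u v)).card := by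
    unfold eIn
    refine Finset.card_le_card_of_injOn (fun p => p.1) ?_ ?_
    · intro p hp
      have hp' := (Finset.mem_filter.1 (Finset.mem_coe.1 hp)).2
      exact Finset.mem_coe.2 (Finset.mem_filter.2 ⟨Finset.mem_univ _, p.2, hp'⟩)
    · intro p hp q hq hpq
      have hp' := (Finset.mem_filter.1 (Finset.mem_coe.1 hp)).2
      have hq' := (Finset.mem_filter.1 (Finset.mem_coe.1 hq)).2
      have e : p.1 = q.1 := hpq
      rw [← e] at hq'
      exact Prod.ext e (hout _ _ _ hp' hq')
  have h2 : (Finset.univ.filter (fun u => ∃ v, A u v)).card + (Finset.univ.filter (fun u => ∀ v, ¬ A u v)).card =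
      Fintype.card V := by
    have h3 := Finset.card_filter_add_card_filter_not (s := (Finset.univ : Finset V)) (fun u => ∃ v, A u v)
    rw [Finset.card_univ] at h3
    simpa only [not_exists] using h3
  have h3 : K * eIn A Finset.univ ≤ K * (Finset.univ.filter (fun u => ∃ v, A u v)).card := Nat.mul_le_mul_left _ h1
  rw [← h2, Nat.mul_add] at hmany
  rw [← h2]
  omega

theorem last_missing' {V : Type} [Fintype V] (A : V → V → Prop) (K : ℕ)
    (hin : ∀ u u' v, A u v → A u' v → u = u') (hmany : K * Fintype.card V ≤ K * eIn A Finset.univ + Fintype.card V) :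
    K * (Finset.univ.filter (fun v => ∀ u, ¬ A u v)).card ≤ Fintype.card V := by
  have h0 : eIn (fun u v => A v u) Finset.univ = eIn A Finset.univ := by
    unfold eIn
    refine Finset.card_bij (fun p _ => (p.2, p.1)) ?_ ?_ ?_
    · intro p hp
      rw [Finset.mem_filter] at hp ⊢
      exact ⟨by simp, hp.2⟩
    · intro p _ q _ h
      exact Prod.ext (congrArg Prod.snd h) (congrArg Prod.fst h)
    · intro p hp
      rw [Finset.mem_filter] at hp
      exact ⟨(p.2, p.1), Finset.mem_filter.2 ⟨by simp, hp.2⟩, rfl⟩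
  exact last_missing (fun u v => A v u) K (fun u v v' h h' => hin v v' u h h') (by rw [h0]; exact hmany)

/-- few vertices lack a successor in one of the classes `j ≠ i` -/
theorem last_X {V : Type} [Fintype V] {d : ℕ} (B : Fin d → V → Prop) (K : ℕ) (i : Fin d)
    (hB : ∀ j, j ≠ i → K * (Finset.univ.filter (fun u => B j u)).card ≤ Fintype.card V) :
    K * (Finset.univ.filter (fun u => ∃ j, j ≠ i ∧ B j u)).card ≤ (d - 1) * Fintype.card V := by
  have hsub : Finset.univ.filter (fun u => ∃ j, j ≠ i ∧ B j u) ⊆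
      (Finset.univ.erase i).biUnion (fun j => Finset.univ.filter (fun u => B j u)) := by
    intro u hu
    obtain ⟨j, hj, hb⟩ := (Finset.mem_filter.1 hu).2
    exact Finset.mem_biUnion.2 ⟨j, Finset.mem_erase.2 ⟨hj, Finset.mem_univ _⟩, Finset.mem_filter.2 ⟨Finset.mem_univ _, hb⟩⟩
  calc K * (Finset.univ.filter (fun u => ∃ j, j ≠ i ∧ B j u)).card
      ≤ K * ∑ j ∈ Finset.univ.erase i, (Finset.univ.filter (fun u => B j u)).card :=
        Nat.mul_le_mul_left _ ((Finset.card_le_card hsub).trans Finset.card_biUnion_le)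
    _ = ∑ j ∈ Finset.univ.erase i, K * (Finset.univ.filter (fun u => B j u)).card := Finset.mul_sum _ _ _
    _ ≤ (Finset.univ.erase i).card • Fintype.card V :=
        Finset.sum_le_card_nsmul _ _ _ (fun j hj => hB j (Finset.ne_of_mem_erase hj))
    _ = (d - 1) * Fintype.card V := by
        rw [Finset.card_erase_of_mem (Finset.mem_univ _), Finset.card_univ, Fintype.card_fin, smul_eq_mul]

/-- a vertex with successors in all the classes `j ≠ i` has at most one in the class `i` -/
theorem last_uniq {V : Type} {d : ℕ} (E : V → Prop) (P : Fin d → V → Prop) (i : Fin d)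
    (hE : ∀ j v, P j v → E v) (hdeg : ∀ S : Finset V, (∀ u ∈ S, E u) → S.card ≤ d)
    (hdisj : ∀ j k v, P j v → P k v → j = k) (hex : ∀ j, j ≠ i → ∃ v, P j v) (v v' : V) (hv : P i v) (hv' : P i v') :
    v = v' := by
  by_contra hne
  have hex' : ∀ j, ∃ x, P j x ∧ (j = i → x = v) := by
    intro j
    by_cases h : j = i
    · subst h
      exact ⟨v, hv, fun _ => rfl⟩
    · obtain ⟨x, hx⟩ := hex j h
      exact ⟨x, hx, fun h' => absurd h' h⟩
  choose f hf hfi using hex'
  have hinj : Function.Injective f := by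
    intro a b hab
    exact hdisj a b (f a) (hf a) (by rw [hab]; exact hf b)
  have hnot : v' ∉ (Finset.univ.image f) := by
    intro h
    obtain ⟨j, _, hj⟩ := Finset.mem_image.1 h
    have h1 : j = i := hdisj j i v' (by rw [← hj]; exact hf j) hv'
    exact hne ((hfi j h1).symm.trans hj)
  have h1 := hdeg (insert v' (Finset.univ.image f)) (by
    intro u hu
    rcases Finset.mem_insert.1 hu with h | h
    · rw [h]
      exact hE _ _ hv'
    · obtain ⟨j, _, rfl⟩ := Finset.mem_image.1 h
      exact hE _ _ (hf j))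
  rw [Finset.card_insert_of_notMem hnot, Finset.card_image_of_injective _ hinj, Finset.card_univ, Fintype.card_fin] at h1
  omega

/-- arcs starting in `X` -/
theorem last_from {V : Type} [Fintype V] (A : V → V → Prop) (D : ℕ)
    (hdeg : ∀ (v : V) (S : Finset V), (∀ u ∈ S, A v u) → S.card ≤ D) (X : Finset V) :
    (Finset.univ.filter (fun p : V × V => A p.1 p.2 ∧ p.1 ∈ X)).card ≤ D * X.card := by
  have h1 := Finset.card_eq_sum_card_fiberwise (s := Finset.univ.filter (fun p : V × V => A p.1 p.2 ∧ p.1 ∈ X))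
    (t := X) (f := Prod.fst) (fun p hp => Finset.mem_coe.2 (Finset.mem_filter.1 (Finset.mem_coe.1 hp)).2.2)
  rw [h1]
  refine (Finset.sum_le_card_nsmul _ _ D ?_).trans (le_of_eq (by rw [smul_eq_mul, mul_comm]))
  intro x _
  have h2 : (Finset.filter (fun p : V × V => p.1 = x) (Finset.univ.filter (fun p : V × V => A p.1 p.2 ∧ p.1 ∈ X))).card ≤
      (Finset.univ.filter (fun u => A x u)).card := by
    refine Finset.card_le_card_of_injOn (fun p => p.2) ?_ ?_
    · intro p hp
      obtain ⟨h3, h4⟩ := Finset.mem_filter.1 (Finset.mem_coe.1 hp)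
      refine Finset.mem_coe.2 (Finset.mem_filter.2 ⟨Finset.mem_univ _, ?_⟩)
      have h5 := (Finset.mem_filter.1 h3).2.1
      rw [h4] at h5
      exact h5
    · intro p hp q hq hpq
      have h4 := (Finset.mem_filter.1 (Finset.mem_coe.1 hp)).2
      have h4' := (Finset.mem_filter.1 (Finset.mem_coe.1 hq)).2
      exact Prod.ext (h4.trans h4'.symm) hpq
  exact h2.trans (hdeg x _ (fun u hu => (Finset.mem_filter.1 hu).2))

theorem last_to {V : Type} [Fintype V] (A : V → V → Prop) (D : ℕ)
    (hdeg : ∀ (v : V) (S : Finset V), (∀ u ∈ S, A u v) → S.card ≤ D) (X : Finset V) :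
    (Finset.univ.filter (fun p : V × V => A p.1 p.2 ∧ p.2 ∈ X)).card ≤ D * X.card := by
  have h0 : (Finset.univ.filter (fun p : V × V => A p.1 p.2 ∧ p.2 ∈ X)).card =
      (Finset.univ.filter (fun p : V × V => A p.2 p.1 ∧ p.1 ∈ X)).card := by
    refine Finset.card_bij (fun p _ => (p.2, p.1)) ?_ ?_ ?_
    · intro p hp
      rw [Finset.mem_filter] at hp ⊢
      exact ⟨by simp, hp.2⟩
    · intro p _ q _ h
      exact Prod.ext (congrArg Prod.snd h) (congrArg Prod.fst h)
    · intro p hp
      rw [Finset.mem_filter] at hp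
      exact ⟨(p.2, p.1), Finset.mem_filter.2 ⟨by simp, hp.2⟩, rfl⟩
  rw [h0]
  exact last_from (fun u v => A v u) D hdeg X

/-- If all the orders but `i` have strands then so has `i` after the deletion of few arcs (remark of helper62). The sets `H j` are
disjoint (`rigid` with `r = 1`). `X1` = vertices without an `H j`-successor for some `j ≠ i`: `K1 |X1| ≤ (d - 1) N`; outside `X1` a vertex has
`d - 1` arcs of colours `j ≠ i`, at most `w - 1 = d` arcs in all (`M.deg`), so at most one of colour `i`. In the same way `X2` for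
predecessors. `H' i u v` = `H i u v`, `u` not in `X1`, `v` not in `X2`: at most `2 (w - 1) (d - 1) N / K1` arcs are lost. `H' j = H j` for `j ≠ i`. -/
theorem cd_last {w d : ℕ} {V : Type} [Fintype V] (M : MG w V) (R : Fin d → V → V → Prop) (K1 K : ℕ)
    (H : Fin d → V → V → Prop) (hH : CD M R K1 H) (hdw : d + 1 = w) (hw : 2 ≤ w) (i : Fin d)
    (hK : 2 * w ^ 2 * K ≤ K1)
    (hst : ∀ j, j ≠ i → (∀ u u' v, H j u v → H j u' v → u = u') ∧ ∀ u v v', H j u v → H j u v' → v = v') :
    ∃ H' : Fin d → V → V → Prop, CD M R K H' ∧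
      ∀ j, (∀ u u' v, H' j u v → H' j u' v → u = u') ∧ ∀ u v v', H' j u v → H' j u v' → v = v' := by
  set N := Fintype.card V with hN
  obtain ⟨X1, hX1⟩ : ∃ X : Finset V, X = Finset.univ.filter (fun u => ∃ j, j ≠ i ∧ ∀ v, ¬ H j u v) := ⟨_, rfl⟩
  obtain ⟨X2, hX2⟩ : ∃ X : Finset V, X = Finset.univ.filter (fun v => ∃ j, j ≠ i ∧ ∀ u, ¬ H j u v) := ⟨_, rfl⟩
  have hX1c : K1 * X1.card ≤ (d - 1) * N := by
    rw [hX1]
    have h := last_X (fun j u => ∀ v, ¬ H j u v) K1 i (fun j hj => by
      have h1 := last_missing (H j) K1 (hst j hj).2 (hH.many j)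
      convert h1)
    convert h
  have hX2c : K1 * X2.card ≤ (d - 1) * N := by
    rw [hX2]
    have h := last_X (fun j v => ∀ u, ¬ H j u v) K1 i (fun j hj => by
      have h1 := last_missing' (H j) K1 (hst j hj).1 (hH.many j)
      convert h1)
    convert h
  have hdis := fun j k u v => last_disj M R K1 H hH (by omega) j k u v
  have hdeg := M.deg
  have hout : ∀ u, u ∉ X1 → ∀ v v', H i u v → H i u v' → v = v' := by
    intro u hu v v' h1 h2
    refine last_uniq (M.E u) (fun j v => H j u v) i (fun j v h => hH.sub j u v h) ?_ (fun j k v => hdis j k u v) ?_ v v' h1 h2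
    · intro S hS
      have := hdeg.1 u S hS
      omega
    · intro j hj
      by_contra hno
      push Not at hno
      exact hu (by rw [hX1]; exact Finset.mem_filter.2 ⟨Finset.mem_univ _, j, hj, hno⟩)
  have hin : ∀ v, v ∉ X2 → ∀ u u', H i u v → H i u' v → u = u' := by
    intro v hv u u' h1 h2
    refine last_uniq (fun u => M.E u v) (fun j u => H j u v) i (fun j u h => hH.sub j u v h) ?_ (fun j k u => hdis j k u v) ?_ u u' h1 h2
    · intro S hS
      have := hdeg.2 v S hS
      omega
    · intro j hj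
      by_contra hno
      push Not at hno
      exact hv (by rw [hX2]; exact Finset.mem_filter.2 ⟨Finset.mem_univ _, j, hj, hno⟩)
  refine ⟨fun j u v => H j u v ∧ (j = i → u ∉ X1 ∧ v ∉ X2), ⟨?_, ?_, ?_⟩, ?_⟩
  · intro j u v h
    exact hH.sub j u v h.1
  · intro j r c h1 h2 hp k
    refine hH.rigid j r c h1 h2 ⟨?_, hp.2⟩ k
    intro n hn
    rcases hp.1 n hn with h | h
    · exact Or.inl h.1
    · exact Or.inr h.1
  · intro j
    have hKK : K ≤ K1 := by
      have : 1 ≤ w ^ 2 := Nat.one_le_pow _ _ (by omega)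
      nlinarith
    -- number of arcs lost
    have hlost : eIn (H j) Finset.univ ≤ eIn (fun u v => H j u v ∧ (j = i → u ∉ X1 ∧ v ∉ X2)) Finset.univ +
        ((w - 1) * X1.card + (w - 1) * X2.card) := by
      have hf := last_from (H j) (w - 1) (fun v S hS => hdeg.1 v S (fun u hu => hH.sub j _ _ (hS u hu))) X1
      have ht := last_to (H j) (w - 1) (fun v S hS => hdeg.2 v S (fun u hu => hH.sub j _ _ (hS u hu))) X2
      have hsub : (Finset.univ ×ˢ Finset.univ).filter (fun p : V × V => H j p.1 p.2) ⊆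
          (Finset.univ ×ˢ Finset.univ).filter (fun p : V × V => H j p.1 p.2 ∧ (j = i → p.1 ∉ X1 ∧ p.2 ∉ X2)) ∪
          (Finset.univ.filter (fun p : V × V => H j p.1 p.2 ∧ p.1 ∈ X1) ∪
            Finset.univ.filter (fun p : V × V => H j p.1 p.2 ∧ p.2 ∈ X2)) := by
        intro p hp
        obtain ⟨hp1, hp2⟩ := Finset.mem_filter.1 hp
        by_cases h1 : p.1 ∈ X1
        · exact Finset.mem_union_right _ (Finset.mem_union_left _ (Finset.mem_filter.2 ⟨Finset.mem_univ _, hp2, h1⟩))
        · by_cases h2 : p.2 ∈ X2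
          · exact Finset.mem_union_right _ (Finset.mem_union_right _ (Finset.mem_filter.2 ⟨Finset.mem_univ _, hp2, h2⟩))
          · exact Finset.mem_union_left _ (Finset.mem_filter.2 ⟨hp1, hp2, fun _ => ⟨h1, h2⟩⟩)
      have hc := (Finset.card_le_card hsub).trans ((Finset.card_union_le _ _).trans
        (Nat.add_le_add_left (Finset.card_union_le _ _) _))
      unfold eIn
      refine hc.trans ((Nat.add_le_add_left (Nat.add_le_add hf ht) _).trans (le_of_eq ?_))
      congr 2
      ext p
      simp only [Finset.mem_filter]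
    set e' := eIn (fun u v => H j u v ∧ (j = i → u ∉ X1 ∧ v ∉ X2)) Finset.univ with he'
    have hm := hH.many j
    rw [← hN] at hm
    -- `K1 N ≤ K1 e' + (1 + 2 (w - 1) (d - 1)) N`
    have h1 : K1 * N ≤ K1 * e' + (1 + 2 * ((w - 1) * (d - 1))) * N := by
      have h2 := Nat.mul_le_mul_left K1 hlost
      have h3 : K1 * (e' + ((w - 1) * X1.card + (w - 1) * X2.card)) =
          K1 * e' + ((w - 1) * (K1 * X1.card) + (w - 1) * (K1 * X2.card)) := by ring
      rw [h3] at h2
      have h4 := Nat.mul_le_mul_left (w - 1) hX1c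
      have h5 := Nat.mul_le_mul_left (w - 1) hX2c
      have h6 : (1 + 2 * ((w - 1) * (d - 1))) * N = N + ((w - 1) * ((d - 1) * N) + (w - 1) * ((d - 1) * N)) := by ring
      omega
    rcases Nat.le_total N e' with h | h
    · exact (Nat.mul_le_mul_left _ h).trans (Nat.le_add_right _ _)
    · obtain ⟨x, hx⟩ := Nat.exists_eq_add_of_le h
      have h2 : K1 * x ≤ (1 + 2 * ((w - 1) * (d - 1))) * N := by
        rw [hx, Nat.mul_add] at h1
        rw [hx]
        omega
      have h3 : 1 + 2 * ((w - 1) * (d - 1)) ≤ 2 * w ^ 2 := by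
        obtain ⟨a, rfl⟩ : ∃ a, d = a + 1 := ⟨d - 1, by have := i.2; omega⟩
        subst hdw
        simp only [Nat.add_sub_cancel]
        nlinarith
      have h4 : 2 * w ^ 2 * (K * x) ≤ 2 * w ^ 2 * N := by
        calc 2 * w ^ 2 * (K * x) = 2 * w ^ 2 * K * x := by ring
          _ ≤ K1 * x := Nat.mul_le_mul_right _ hK
          _ ≤ (1 + 2 * ((w - 1) * (d - 1))) * N := h2
          _ ≤ 2 * w ^ 2 * N := Nat.mul_le_mul_right _ h3
      have h5 : K * x ≤ N := by
        have : 0 < 2 * w ^ 2 := by positivity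
        exact Nat.le_of_mul_le_mul_left h4 this
      rw [← hN, hx, Nat.mul_add]
      rw [hx] at h5
      omega
  · intro j
    by_cases hj : j = i
    · subst hj
      exact ⟨fun u u' v h h' => hin v (h.2 rfl).2 u u' h.1 h'.1, fun u v v' h h' => hout u (h.2 rfl).1 v v' h.1 h'.1⟩
    · exact ⟨fun u u' v h h' => (hst j hj).1 u u' v h.1 h'.1, fun u v v' h h' => (hst j hj).2 u v v' h.1 h'.1⟩

end Pool.Agent.BoolWidth
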