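import Pool.Agent.Lib_MP_0cf6e1_g.Defs

set_option autoImplicit false

open scoped Classical

namespace Pool.Agent.BoolWidth

/-- levels are kept by lifts (`E1` a subset of the arcs) -/
theorem lift_graded {w : ℕ} {V : Type} [Fintype V] (M : MG w V) (lev : V → ℕ) (T m : ℕ) (hG : Graded M lev T m)
    (t : V → V → ℕ) (D : ℕ) :
    Graded (liftMG M M.E (fun _ _ h => h) t D) (fun p => lev p.1) T (m * D) := by
  refine ⟨fun p => hG.lt p.1, fun p q h => hG.arc _ _ h.1, ?_, ?_, ?_⟩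
  · intro p q h
    refine Or.inr (Or.inl ⟨hG.full _ _ h, fun hE => ?_⟩)
    have h2 := hG.arc _ _ hE
    have h3 : lev p.1 + 2 ≤ lev q.1 := h
    omega
  · rintro p q h hc (⟨h1, -⟩ | ⟨h1, -⟩ | ⟨h1, -⟩)
    · exact hc (congrArg M.ch h1)
    · exact hG.inc _ _ h hc h1
    · have h2 := hG.arc _ _ h1
      have h3 : lev p.1 = lev q.1 := h
      omega
  · intro c t0 ht0
    have h1 : (Finset.univ.filter (fun v : V × Fin D => M.ch v.1 = c ∧ lev v.1 = t0)) =
        (Finset.univ.filter (fun v : V => M.ch v = c ∧ lev v = t0)) ×ˢ (Finset.univ : Finset (Fin D)) := by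
      ext v
      simp only [Finset.mem_filter, Finset.mem_univ, true_and, Finset.mem_product, and_true]
    have h2 := hG.cell c t0 ht0
    show (Finset.univ.filter (fun v : V × Fin D => M.ch v.1 = c ∧ lev v.1 = t0)).card = m * D
    rw [h1, Finset.card_product, h2, Finset.card_univ, Fintype.card_fin]

/-- `gbase` with levels: copy of the proof of `gbase`; base `gbaseMG w T` with `lev p = p.2`, `m = 1` -/
theorem gbase_gr (w T g k : ℕ) (hw : 2 ≤ w) (hT : 1 ≤ T) :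
    ∃ (V : Type) (_ : Fintype V) (M : MG w V) (lev : V → ℕ) (m : ℕ), Graded M lev T m ∧
      Fintype.card V = w * T * (T * ((g + 1) ^ 2 * (2 * (w - 1)) ^ g + 1)) ^ k ∧
      Gir M.E (min (2 ^ (k + 1) - 1) g) ∧
      (T - 1) * (w * (w - 1)) * ((T - 1) * ((g + 1) ^ 2 * (2 * (w - 1)) ^ g + 1)) ^ k ≤ eIn M.E Finset.univ := by
  induction k with
  | zero =>
    refine ⟨Fin w × Fin T, inferInstance, gbaseMG w T, fun p => (p.2 : ℕ), 1, ?_, ?_, ?_, ?_⟩
    · refine ⟨fun v => v.2.2, fun u v h => h.2.symm, ?_, ?_, ?_⟩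
      · intro u v h
        show u.2 < v.2
        rw [Fin.lt_def]
        have h3 : (u.2 : ℕ) + 2 ≤ (v.2 : ℕ) := h
        omega
      · intro u v h _ h2
        have h3 : (u.2 : ℕ) = (v.2 : ℕ) := h
        have h4 : u.2 < v.2 := h2
        rw [Fin.lt_def] at h4
        omega
      · intro c t ht
        rw [Finset.card_eq_one]
        refine ⟨(c, ⟨t, ht⟩), ?_⟩
        ext v
        simp only [Finset.mem_filter, Finset.mem_univ, true_and, Finset.mem_singleton]
        constructor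
        · rintro ⟨h1, h2⟩
          exact Prod.ext h1 (Fin.ext h2)
        · rintro rfl
          exact ⟨rfl, rfl⟩
    · rw [Fintype.card_prod, Fintype.card_fin, Fintype.card_fin, pow_zero, mul_one]
    · have h0 : Gir (gbaseMG w T).E 1 := by
        intro c l h1 h2 hc h0
        obtain rfl : l = 1 := le_antisymm h2 h1
        have h := hc.1 0 (by norm_num)
        simp only [zero_add] at h
        rw [← h0] at h
        rcases h with h | h
        · exact h.1 rfl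
        · exact h.1 rfl
      exact h0.mono (fun _ _ h => h) (by
        have : (2 : ℕ) ^ (0 + 1) - 1 = 1 := by norm_num
        rw [this]
        exact min_le_left _ _)
    · rw [pow_zero, mul_one]
      exact gbase_card w T
  | succ k ih =>
    obtain ⟨V, hV, M, lev, m, hG, hcard, hgir, hE⟩ := ih
    obtain ⟨t, ht1, ht2⟩ := greedy (E := M.E) M.asym (w - 1) (by omega) M.deg g
    set Cb : ℕ := (g + 1) ^ 2 * (2 * (w - 1)) ^ g + 1 with hCb
    have hg2 := gir_double (E := M.E) M.asym (min (2 ^ (k + 1) - 1) g) g hgir t ht2 (T * Cb)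
    have hle : Cb ≤ T * Cb := Nat.le_mul_of_pos_left Cb hT
    have hl := eIn_lift t (T * Cb) M.E Cb (fun u v => (ht1 u v).le) hle
    refine ⟨V × Fin (T * Cb), inferInstance, liftMG M M.E (fun _ _ h => h) t (T * Cb),
      fun p => lev p.1, m * (T * Cb), lift_graded M lev T m hG t (T * Cb), ?_, ?_, ?_⟩
    · rw [Fintype.card_prod, Fintype.card_fin, hcard, pow_succ]
      ring
    · refine Gir.mono (E := liftE M.E t (T * Cb)) hg2 (fun _ _ h => h) ?_
      have h2 : 2 ^ (k + 1 + 1) = 2 * 2 ^ (k + 1) := by rw [pow_succ]; ring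
      have h3 : 1 ≤ 2 ^ (k + 1) := Nat.one_le_two_pow
      rw [h2]
      omega
    · show _ ≤ eIn (liftE M.E t (T * Cb)) Finset.univ
      refine le_trans ?_ hl
      have h4 : T * Cb - Cb = (T - 1) * Cb := by rw [Nat.sub_mul, one_mul]
      rw [h4, pow_succ, ← mul_assoc]
      exact Nat.mul_le_mul_right _ hE

/-- `tower` with levels: copy of the proof of `tower` -/
theorem tower_gr (w C D L K B M r0 s y : ℕ) (hw : 2 ≤ w) (hB : 1 ≤ B) (hgrow : M * (2 * (w - 1) * B) ^ r0 ≤ (2 * (w - 1) * B + 1) ^ r0)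
    (hM : 1 ≤ M) (hC : 0 < C) (hCD : C ≤ D) (hL : 2 < L) (hK : 32 ≤ K) (hK2 : 32 * r0 ≤ K) (hDL : (D + 1) ^ L ≤ 2 ^ M) (hs : 2 ^ s * (2 * L) ≤ C)
    (hy : B * y ≤ s) (hy2 : (2 * (w - 1)) ^ 2 * 2 ^ (w - 1) * 4 ≤ 2 ^ y) (ξ : ℝ) (hξ : 0 < ξ)
    (V0 : Type) [Fintype V0] (M0 : MG w V0) (hg : Gir M0.E (2 * r0))
    (lev0 : V0 → ℕ) (T m0 : ℕ) (hG : Graded M0 lev0 T m0) (n : ℕ)
    (hV : Fintype.card V0 * D ^ n < 2 ^ (M - 1)) :
    ∃ (V : Type) (_ : Fintype V) (MM : MG w V) (lev : V → ℕ) (m : ℕ), Graded MM lev T m ∧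
      Fintype.card V = Fintype.card V0 * D ^ n ∧ Gir MM.E (2 * r0) ∧
      eIn M0.E Finset.univ * (D - C) ^ n ≤ eIn MM.E Finset.univ ∧
      ∀ (ρ : ℝ), 1 + 2 / (B : ℝ) ≤ ρ → ∀ (a : V → ℝ) (N : V → V → ℝ), Sys MM.E ρ a N →
        ∃ (a' : V0 → ℝ) (N' : V0 → V0 → ℝ), Sys M0.E ρ a' N' ∧ ∑ p, a' p = ∑ p, a p ∧
          (n : ℝ) * (1 - ξ) * ∑ p, a p ≤ 8 * ((w - 1 : ℕ) : ℝ) * (B : ℝ) ^ 2 * (2 + K) ^ 2 / ξ * (Phi M0.E a' - Phi MM.E a) +
            (Ent a' - Ent a) / Real.log ((L : ℝ) / 2) := by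
  induction n with
  | zero =>
    refine ⟨V0, inferInstance, M0, lev0, m0, hG, by simp, hg, by simp, ?_⟩
    intro ρ _ a N hsys
    refine ⟨a, N, hsys, rfl, ?_⟩
    simp
  | succ n ih =>
    have hD : 1 ≤ D := by omega
    have hle : D ^ n ≤ D ^ (n + 1) := Nat.pow_le_pow_right hD (by omega)
    have hV' : Fintype.card V0 * D ^ n < 2 ^ (M - 1) := lt_of_le_of_lt (Nat.mul_le_mul_left _ hle) hV
    obtain ⟨V, fV, MM, lev, m, hGG, hcard, hgV, heV, hsysV⟩ := ih hV'
    obtain ⟨t, ht, hN⟩ := rand MM.E (w - 1) C D L K B M r0 s y MM.asym (by omega) MM.deg hB hgV hgrow hM hC (by omega)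
      hK hK2 hDL hs hy hy2 (by rw [hcard]; exact hV')
    refine ⟨V × Fin D, inferInstance, liftMG MM MM.E (fun _ _ h => h) t D, fun p => lev p.1, m * D,
      lift_graded MM lev T m hGG t D, ?_, ?_, ?_, ?_⟩
    · rw [Fintype.card_prod, Fintype.card_fin, hcard, pow_succ]
      ring
    · exact hgV.lift MM.asym t D
    · have h1 := eIn_lift t D MM.E C (fun u v => (ht u v).le) hCD
      calc eIn M0.E Finset.univ * (D - C) ^ (n + 1) = (eIn M0.E Finset.univ * (D - C) ^ n) * (D - C) := by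
            rw [pow_succ]; ring
        _ ≤ eIn MM.E Finset.univ * (D - C) := Nat.mul_le_mul_right _ heV
        _ ≤ _ := h1
    · intro ρ hρ a N hsys
      have hsys1 := sys_push MM.E t ρ a N hsys
      obtain ⟨a', N', h1, h2, h3⟩ := hsysV ρ hρ (push a) (pushN N) hsys1
      refine ⟨a', N', h1, by rw [h2, sum_push], ?_⟩
      have h4 := one_level MM.E (w - 1) MM.deg t L K B hL hB hN ρ hρ ξ hξ a N hsys
      rw [sum_push] at h3
      have h5 : (liftMG MM MM.E (fun _ _ h => h) t D).E = liftE MM.E t D := rfl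
      rw [h5]
      push_cast
      have e1 : ((n : ℝ) + 1) * (1 - ξ) * ∑ p, a p = (n : ℝ) * (1 - ξ) * ∑ p, a p + (1 - ξ) * ∑ p, a p := by ring
      rw [e1]
      have e2 : 8 * ((w - 1 : ℕ) : ℝ) * (B : ℝ) ^ 2 * (2 + K) ^ 2 / ξ * (Phi M0.E a' - Phi (liftE MM.E t D) a) =
          8 * ((w - 1 : ℕ) : ℝ) * (B : ℝ) ^ 2 * (2 + K) ^ 2 / ξ * (Phi M0.E a' - Phi MM.E (push a)) +
          8 * ((w - 1 : ℕ) : ℝ) * (B : ℝ) ^ 2 * (2 + K) ^ 2 / ξ * (Phi MM.E (push a) - Phi (liftE MM.E t D) a) := by ring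
      have e3 : (Ent a' - Ent a) / Real.log ((L : ℝ) / 2) =
          (Ent a' - Ent (push a)) / Real.log ((L : ℝ) / 2) + (Ent (push a) - Ent a) / Real.log ((L : ℝ) / 2) := by ring
      rw [e2, e3]
      linarith

end Pool.Agent.BoolWidth
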