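import Pool.Agent.Lib_MP_0cf6e1_g.FinalG

/-!
# Realizers by weighted majority
-/

set_option autoImplicit false

open scoped Classical

namespace Pool.Agent.BoolWidth

/-- The strict linear orders `L 0, …, L (d-1)` on `X` with the weights `c 0, …, c (d-1)` represent the
poset `X` by weighted majority: for all distinct `x` and `y`, `x < y` in `X` if and only if the
orders with `x` before `y` have a larger total weight than the orders with `y` before `x`. -/
def IsMajRealizer (X : Type) [PartialOrder X] {d : ℕ} (L : Fin d → X → X → Prop) (c : Fin d → ℝ) : Prop :=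
  (∀ i, IsStrictTotalOrder X (L i)) ∧
    ∀ x y : X, x ≠ y → (x < y ↔ ∑ i, (if L i y x then c i else 0) < ∑ i, (if L i x y then c i else 0))

theorem neutral (w : ℕ) (hw : 4 ≤ w) :
    ∃ (X : Type) (_ : Fintype X) (_ : PartialOrder X), HasWidth X w ∧
      (∀ (d : ℕ) (L : Fin d → X → X → Prop) (τ : (Fin d → Prop) → Prop),
        Pool.Agent.BoolTurn.IsBoolRealizer X L τ → d < w → d + 1 = w ∧
          (∀ i, ∃ x y x' y' : X, x < y ∧ x' < y' ∧ DiffOnly L i x y x' y') ∧
          (∀ i, ∃ x y x' y' : X, x < y ∧ (¬ x' ≤ y' ∧ ¬ y' ≤ x') ∧ DiffOnly L i x y x' y') ∧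
          ∀ i, ∃ j, j ≠ i ∧ ∃ x y x' y' : X,
            (¬ x ≤ y ∧ ¬ y ≤ x) ∧ (¬ x' ≤ y' ∧ ¬ y' ≤ x') ∧ DiffOnly L j x y x' y') ∧
      ∀ (d : ℕ) (L : Fin d → X → X → Prop) (c : Fin d → ℝ), IsMajRealizer X L c → w ≤ d := by
  obtain ⟨X, fX, pX, hX, hmain⟩ := edges w hw
  refine ⟨X, fX, pX, hX, hmain, ?_⟩
  intro d L c ⟨hL, hc⟩
  by_contra hcon
  have hd : d < w := by omega
  -- the difference of the two weights
  set D : X → X → ℝ := fun x y => ∑ i, (if L i x y then c i else -c i) with hD
  have hsum : ∀ x y, x ≠ y → D x y = ∑ i, (if L i x y then c i else 0) - ∑ i, (if L i y x then c i else 0) := by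
    intro x y hxy
    rw [hD, ← Finset.sum_sub_distrib]
    apply Finset.sum_congr rfl
    intro i _
    have := hL i
    rcases trichotomous_of (L i) x y with h | h | h
    · have h' : ¬ L i y x := fun h' => asymm_of (L i) h h'
      simp [h, h']
    · exact absurd h hxy
    · have h' : ¬ L i x y := fun h' => asymm_of (L i) h h'
      simp [h, h']
  have hpos : ∀ x y, x ≠ y → (x < y ↔ 0 < D x y) := by
    intro x y hxy
    rw [hc x y hxy, hsum x y hxy, sub_pos]
  have hanti : ∀ x y, x ≠ y → D y x = - D x y := by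
    intro x y hxy
    rw [hsum x y hxy, hsum y x hxy.symm]
    ring
  set τ : (Fin d → Prop) → Prop := fun p => 0 < ∑ i, (if p i then c i else -c i) with hτ
  have hre : Pool.Agent.BoolTurn.IsBoolRealizer X L τ := ⟨hL, fun x y hxy => hpos x y hxy⟩
  obtain ⟨h1, -, h3, h4⟩ := hmain d L τ hre hd
  have hinc : ∀ x y : X, (¬ x ≤ y ∧ ¬ y ≤ x) → D x y = 0 := by
    rintro x y ⟨h5, h6⟩
    have hne : x ≠ y := fun h => h5 (h ▸ le_rfl)
    have h7 : ¬ 0 < D x y := fun h => h5 ((hpos x y hne).2 h).le
    have h8 : ¬ 0 < D y x := fun h => h6 ((hpos y x hne.symm).2 h).le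
    rw [hanti x y hne] at h8
    linarith
  have hdiff : ∀ i (x y x' y' : X), DiffOnly L i x y x' y' → |D x y - D x' y'| = 2 * |c i| := by
    intro i x y x' y' h
    have e : D x y - D x' y' = (if L i x y then c i else -c i) - (if L i x' y' then c i else -c i) := by
      rw [hD]
      simp only
      rw [← Finset.sum_sub_distrib]
      rw [Finset.sum_eq_single i]
      · intro k _ hk
        have := (h k).2 hk
        simp only [this, sub_self]
      · intro hi
        exact absurd (Finset.mem_univ i) hi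
    have h5 : ¬ (L i x y ↔ L i x' y') := fun h6 => (h i).1 h6 rfl
    rw [e]
    by_cases h6 : L i x y
    · have h7 : ¬ L i x' y' := fun h7 => h5 ⟨fun _ => h7, fun _ => h6⟩
      simp only [h6, h7, if_true, if_false]
      rw [sub_neg_eq_add, ← two_mul, abs_mul, abs_two]
    · have h7 : L i x' y' := by
        by_contra h7
        exact h5 ⟨fun h => absurd h h6, fun h => absurd h h7⟩
      simp only [h6, h7, if_true, if_false]
      have : -c i - c i = -(2 * c i) := by ring
      rw [this, abs_neg, abs_mul, abs_two]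
  have hd0 : 0 < d := by omega
  obtain ⟨j, -, x, y, x', y', h5, h6, h7⟩ := h4 ⟨0, hd0⟩
  have h8 := hdiff j x y x' y' h7
  rw [hinc x y h5, hinc x' y' h6, sub_zero, abs_zero] at h8
  obtain ⟨x, y, x', y', h9, h10, h11⟩ := h3 j
  have h12 := hdiff j x y x' y' h11
  rw [hinc x' y' h10, sub_zero, ← h8] at h12
  have h13 := (hpos x y h9.ne).1 h9
  have h14 := abs_eq_zero.1 h12
  linarith

end Pool.Agent.BoolWidth
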