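import Pool.Agent.Lib_MP_0cf6e1_g.GridG

set_option autoImplicit false

open scoped Classical

namespace Pool.Agent.BoolWidth

/-- two full comparabilities with opposite vectors, if all the orders have strands: `G = 2 d + 1`, `g = (g_k)` from
`grid_one`, `Λ = 2 * 2 ^ ((G + 1) ^ d) + 1`, levels `t0 + 2 i`; by pigeonhole two levels `t < t'` have the same set of
values of `g`; `x, y` in level `t` with `g_k x ≠ g_k y` for all `k`; `x', y'` in level `t'` with the same values -/
theorem nogrid (d : ℕ) : ∃ Λ c : ℕ, 1 ≤ Λ ∧ 1 ≤ c ∧ ∀ (w T m : ℕ) (V : Type) (_ : Fintype V) (M : MG w V) (lev : V → ℕ),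
    Graded M lev T m → ∀ (R : Fin d → V → V → Prop),
    (∀ k u v t, R k u v → R k v t → R k u t) → (∀ k u v t, ¬ R k u v → ¬ R k v t → ¬ R k u t) →
    ∀ (t0 β : ℕ), t0 + Λ ≤ T → 1 ≤ m → 1 ≤ w → c * β ≤ m → (∀ k, Win lev (R k) t0 Λ β) →
    ∃ x y x' y' : V, lev x + 2 ≤ lev y' ∧ lev y + 2 ≤ lev x' ∧ ∀ k, R k x y' ↔ ¬ R k y x' := by
  refine ⟨2 * Fintype.card (Finset (Fin d → Fin (2 * d + 1 + 1))) + 1, 3 * (2 * d + 1), by omega, by omega, ?_⟩
  intro w T m V _ M lev hG R htr hco t0 β hT hm hw hβ hW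
  have h1 := fun k => grid_one M lev hG (R k) (htr k) (hco k) t0 _ β (2 * d + 1) hT (by omega) hm hw (hW k) (by omega)
  choose g hg hgc using h1
  -- two levels with the same values
  obtain ⟨N, hN⟩ : ∃ N, N = Fintype.card (Finset (Fin d → Fin (2 * d + 1 + 1))) := ⟨_, rfl⟩
  rw [← hN] at hT hgc
  let F : Fin (N + 1) → Finset (Fin d → Fin (2 * d + 1 + 1)) := fun i =>
    (Finset.univ.filter (fun v => lev v = t0 + 2 * i)).image (fun v k => g k v)
  obtain ⟨i, j, hij, hF⟩ : ∃ i j : Fin (N + 1), i < j ∧ F i = F j := by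
    obtain ⟨i, j, hne, h⟩ := Fintype.exists_ne_map_eq_of_card_lt F (by rw [Fintype.card_fin, ← hN]; omega)
    rcases lt_or_gt_of_ne hne with h' | h'
    · exact ⟨i, j, h', h⟩
    · exact ⟨j, i, h', h.symm⟩
  have hij' : (i : ℕ) < j := hij
  have hjN := j.2
  have hs : t0 + 2 * (i : ℕ) < T := by omega
  -- a vertex in the lower level
  have hlev := (card_graded M lev T m hG).2 _ hs
  have hpos : 0 < (Finset.univ.filter (fun v => lev v = t0 + 2 * (i : ℕ))).card := by
    rw [hlev]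
    exact Nat.mul_pos hw hm
  obtain ⟨x, hx⟩ := Finset.card_pos.mp hpos
  have hxl : lev x = t0 + 2 * (i : ℕ) := (Finset.mem_filter.mp hx).2
  -- a vertex with other values
  obtain ⟨y, hyl, hy⟩ : ∃ y, lev y = t0 + 2 * (i : ℕ) ∧ ∀ k, g k y ≠ g k x := by
    by_contra hno
    push Not at hno
    have hsub : Finset.univ.filter (fun v => lev v = t0 + 2 * (i : ℕ)) ⊆
        Finset.univ.biUnion fun k : Fin d => Finset.univ.filter (fun v => lev v = t0 + 2 * (i : ℕ) ∧ g k v = g k x) := by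
      intro y hy
      have hyl : lev y = t0 + 2 * (i : ℕ) := (Finset.mem_filter.mp hy).2
      obtain ⟨k, hk⟩ := hno y hyl
      exact Finset.mem_biUnion.mpr ⟨k, Finset.mem_univ k, Finset.mem_filter.mpr ⟨Finset.mem_univ _, hyl, hk⟩⟩
    have hc1 := Finset.card_le_card hsub
    rw [hlev] at hc1
    have hc2 : (2 * d + 1) * (w * m) ≤ ∑ k : Fin d, (w * m + 3 * (2 * d + 1) * β) := by
      calc (2 * d + 1) * (w * m) ≤ (2 * d + 1) * ∑ k : Fin d, (Finset.univ.filter (fun v => lev v = t0 + 2 * (i : ℕ) ∧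
            g k v = g k x)).card := Nat.mul_le_mul_left _ (hc1.trans Finset.card_biUnion_le)
        _ = ∑ k : Fin d, (2 * d + 1) * (Finset.univ.filter (fun v => lev v = t0 + 2 * (i : ℕ) ∧
            g k v = g k x)).card := Finset.mul_sum _ _ _
        _ ≤ _ := Finset.sum_le_sum fun k _ => hgc k (g k x) _ (by omega) (by omega)
    rw [Finset.sum_const, Finset.card_univ, Fintype.card_fin, smul_eq_mul] at hc2
    have hwm : 1 * m ≤ w * m := Nat.mul_le_mul_right _ hw
    have hc3 : d * (w * m + 3 * (2 * d + 1) * β) ≤ d * (w * m + w * m) := by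
      apply Nat.mul_le_mul_left
      omega
    have hc4 : (2 * d + 1) * (w * m) = d * (w * m + w * m) + w * m := by ring
    omega
  -- the vertices in the upper level
  have hup : ∀ z, lev z = t0 + 2 * (i : ℕ) → ∃ z', lev z' = t0 + 2 * (j : ℕ) ∧ ∀ k, g k z' = g k z := by
    intro z hz
    have hmem : (fun k => g k z) ∈ F i :=
      Finset.mem_image.mpr ⟨z, Finset.mem_filter.mpr ⟨Finset.mem_univ _, hz⟩, rfl⟩
    rw [hF] at hmem
    obtain ⟨z', hz', hzz⟩ := Finset.mem_image.mp hmem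
    exact ⟨z', (Finset.mem_filter.mp hz').2, fun k => congrFun hzz k⟩
  obtain ⟨x', hx'l, hx'⟩ := hup x hxl
  obtain ⟨y', hy'l, hy'⟩ := hup y hyl
  refine ⟨x, y, x', y', by omega, by omega, fun k => ?_⟩
  rcases lt_or_gt_of_ne (hy k) with h | h
  · have a1 : wpr (R k) y' x := hg k y' x (by rw [hy' k]; exact h)
    have a2 : wpr (R k) y x' := hg k y x' (by rw [hx' k]; exact h)
    exact ⟨fun h3 => absurd h3 a1.2, fun h3 => absurd a2.1 h3⟩
  · have a1 : wpr (R k) x y' := hg k x y' (by rw [hy' k]; exact h)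
    have a2 : wpr (R k) x' y := hg k x' y (by rw [hx' k]; exact h)
    exact ⟨fun _ => a2.2, fun _ => a1.1⟩

end Pool.Agent.BoolWidth
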