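import Pool.Agent.Lib_MP_0cf6e1_g.CardG

set_option autoImplicit false

open scoped Classical

namespace Pool.Agent.BoolWidth

section rank

variable {V : Type} [Fintype V]

/-- number of the elements of the level `s` before `v` -/
private noncomputable def lowc (lev : V → ℕ) (R : V → V → Prop) (s : ℕ) (v : V) : ℕ :=
  (Finset.univ.filter (fun y => lev y = s ∧ wpr R y v)).card

/-- number of the elements of the level `s` after `v` -/
private noncomputable def upc (lev : V → ℕ) (R : V → V → Prop) (s : ℕ) (v : V) : ℕ :=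
  (Finset.univ.filter (fun y => lev y = s ∧ wpr R v y)).card

omit [Fintype V] in
private theorem wpr_asymm (R : V → V → Prop) (u v : V) (h : wpr R u v) : ¬ wpr R v u := by
  unfold wpr at *
  tauto

variable (lev : V → ℕ) (R : V → V → Prop) (htr : ∀ u v t, R u v → R v t → R u t)
  (hco : ∀ u v t, ¬ R u v → ¬ R v t → ¬ R u t) (s : ℕ)

include htr hco

private theorem lowc_mono (u v : V) (h : wpr R u v) : lowc lev R s u ≤ lowc lev R s v := by
  refine Finset.card_le_card fun y hy => ?_
  rw [Finset.mem_filter] at hy ⊢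
  exact ⟨hy.1, hy.2.1, wpr_trans R htr hco _ _ _ hy.2.2 h⟩

private theorem lowc_lt (u v : V) (h : wpr R u v) (hu : lev u = s) : lowc lev R s u < lowc lev R s v := by
  refine Finset.card_lt_card ?_
  rw [Finset.ssubset_iff_of_subset]
  · refine ⟨u, Finset.mem_filter.2 ⟨Finset.mem_univ _, hu, h⟩, fun h1 => ?_⟩
    exact wpr_asymm R u u (Finset.mem_filter.1 h1).2.2 (Finset.mem_filter.1 h1).2.2
  · intro y hy
    rw [Finset.mem_filter] at hy ⊢
    exact ⟨hy.1, hy.2.1, wpr_trans R htr hco _ _ _ hy.2.2 h⟩

private theorem lowc_weq (u v : V) (h : weq R u v) : lowc lev R s u ≤ lowc lev R s v := by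
  refine Finset.card_le_card fun y hy => ?_
  rw [Finset.mem_filter] at hy ⊢
  exact ⟨hy.1, hy.2.1, wpr_weq R htr hco _ _ _ hy.2.2 h⟩

private theorem wpr_of_lowc (u v : V) (h : lowc lev R s u < lowc lev R s v) : wpr R u v := by
  rcases wtri R u v with h1 | h1 | h1
  · exact h1
  · exact absurd (lowc_mono lev R htr hco s v u h1) (not_le.2 h)
  · exact absurd (lowc_weq lev R htr hco s v u (weq_symm R htr hco _ _ h1)) (not_le.2 h)

omit htr hco in
private theorem low_up (v : V) : lowc lev R s v + upc lev R s v ≤
    (Finset.univ.filter (fun y => lev y = s)).card := by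
  unfold lowc upc
  rw [← Finset.card_union_of_disjoint]
  · refine Finset.card_le_card fun y hy => ?_
    rw [Finset.mem_filter]
    rcases Finset.mem_union.1 hy with h | h
    · exact ⟨Finset.mem_univ _, (Finset.mem_filter.1 h).2.1⟩
    · exact ⟨Finset.mem_univ _, (Finset.mem_filter.1 h).2.1⟩
  · rw [Finset.disjoint_left]
    intro y h1 h2
    exact wpr_asymm R y v (Finset.mem_filter.1 h1).2.2 (Finset.mem_filter.1 h2).2.2

omit htr hco in
private theorem low_up' (v : V) : (Finset.univ.filter (fun y => lev y = s)).card ≤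
    lowc lev R s v + upc lev R s v + (Finset.univ.filter (fun u => weq R u v)).card := by
  unfold lowc upc
  refine le_trans (Finset.card_le_card (t := (Finset.univ.filter (fun y => lev y = s ∧ wpr R y v) ∪
    Finset.univ.filter (fun y => lev y = s ∧ wpr R v y)) ∪ Finset.univ.filter (fun u => weq R u v)) ?_) ?_
  · intro y hy
    have hy' := (Finset.mem_filter.1 hy).2
    rw [Finset.mem_union, Finset.mem_union, Finset.mem_filter, Finset.mem_filter, Finset.mem_filter]
    rcases wtri R y v with h1 | h1 | h1
    · exact Or.inl (Or.inl ⟨Finset.mem_univ _, hy', h1⟩)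
    · exact Or.inl (Or.inr ⟨Finset.mem_univ _, hy', h1⟩)
    · exact Or.inr ⟨Finset.mem_univ _, h1⟩
  · exact (Finset.card_union_le _ _).trans (Nat.add_le_add_right (Finset.card_union_le _ _) _)

end rank

/-- Two orders with strands, the first contained in the second on full comparabilities: some incomparable pair is
ordered in the same way by both. Proof. `n = w m` = size of the levels, `s = t0 + 2`. For `x` in level `s` let `a⁺ = #{y : lev y = s, wpr A x y}`,
`a⁻ = #{y : lev y = s, wpr A y x}`, `b⁺, b⁻` the same for `B`. `step` for `{y | wpr A x y}`: `a⁺ ≤ #{lev y = s + 2, wpr A x y} + β ≤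
#{lev y = s + 2, wpr B x y} + β ≤ b⁺ + 2 β`; in the same way with level `s - 2`: `a⁻ ≤ b⁻ + 2 β`. If the `A`-block of `x` has `≤ β` elements then
`a⁺ + a⁻ ≥ n - β`, `b⁺ + b⁻ ≤ n`, hence `b⁻ ≤ a⁻ + 3 β`. Low = `{x : 3 a⁻ < n}` has `≥ n / 3` elements of level `s` (if its complement in level `s` is not
empty take `v` there with `a⁻` minimal: all the `a⁻(v) ≥ n / 3` elements before `v` are low). High = `{x : 2 n < 3 a⁻}` has `≥ n / 3 - 2 β` elements
(take `v` not high, in no large block, with `a⁻` maximal: the others not high and in no large block are before `v` or tied with `v`).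
Remove the `≤ β` vertices in large `A`-blocks (`block`). The remaining low and high vertices are more than `m` in number (`n ≥ 2 m`,
`100 β ≤ m`) so they are not all in one chain (cells have `m` elements); take `x` low, `y` high in different chains.
`a⁻ x < a⁻ y` gives `wpr A x y`; `b⁻ x ≤ a⁻ x + 3 β < n / 3 + 3 β < 2 n / 3 - 2 β < a⁻ y - 2 β ≤ b⁻ y` gives `wpr B x y`. -/
theorem norank {w T m : ℕ} {V : Type} [Fintype V] (M : MG w V) (lev : V → ℕ) (hG : Graded M lev T m)
    (A B : V → V → Prop) (hAtr : ∀ u v t, A u v → A v t → A u t) (hAco : ∀ u v t, ¬ A u v → ¬ A v t → ¬ A u t)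
    (hBtr : ∀ u v t, B u v → B v t → B u t) (hBco : ∀ u v t, ¬ B u v → ¬ B v t → ¬ B u t)
    (t0 β : ℕ) (ht : t0 + 5 ≤ T) (hm : 1 ≤ m) (hw : 2 ≤ w) (hβ : 100 * β ≤ m)
    (hA : Win lev A t0 5 β) (hB : Win lev B t0 5 β)
    (hAB : ∀ u v, lev u + 2 ≤ lev v → wpr A u v → wpr B u v) :
    ∃ x y : V, lev x = lev y ∧ M.ch x ≠ M.ch y ∧ wpr A x y ∧ wpr B x y := by
  set s := t0 + 2 with hs
  set n := w * m with hn
  have hL : (Finset.univ.filter (fun v => lev v = s)).card = n :=
    (card_graded M lev T m hG).2 s (by omega)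
  have hn2 : 2 * m ≤ n := Nat.mul_le_mul_right m hw
  -- comparison of the numbers of elements after and before `x`
  have hup : ∀ x, lev x = s → upc lev A s x ≤ upc lev B s x + 2 * β := by
    intro x hx
    have h1 := hA.step (fun y => wpr A x y)
      (fun u v huv => ⟨fun h => wpr_weq A hAtr hAco _ _ _ h huv,
        fun h => wpr_weq A hAtr hAco _ _ _ h (weq_symm A hAtr hAco _ _ huv)⟩) s (s + 2)
      (by omega) (by omega) (by omega) (by omega)
    have h2 := hB.step (fun y => wpr B x y)
      (fun u v huv => ⟨fun h => wpr_weq B hBtr hBco _ _ _ h huv,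
        fun h => wpr_weq B hBtr hBco _ _ _ h (weq_symm B hBtr hBco _ _ huv)⟩) (s + 2) s
      (by omega) (by omega) (by omega) (by omega)
    have h3 : (Finset.univ.filter (fun y => lev y = s + 2 ∧ wpr A x y)).card ≤
        (Finset.univ.filter (fun y => lev y = s + 2 ∧ wpr B x y)).card := by
      refine Finset.card_le_card fun y hy => ?_
      rw [Finset.mem_filter] at hy ⊢
      exact ⟨hy.1, hy.2.1, hAB x y (by omega) hy.2.2⟩
    unfold upc
    omega
  have hlo : ∀ x, lev x = s → lowc lev A s x ≤ lowc lev B s x + 2 * β := by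
    intro x hx
    have h1 := hA.step (fun y => wpr A y x)
      (fun u v huv => ⟨fun h => weq_wpr A hAtr hAco _ _ _ (weq_symm A hAtr hAco _ _ huv) h,
        fun h => weq_wpr A hAtr hAco _ _ _ huv h⟩) s t0
      (by omega) (by omega) (by omega) (by omega)
    have h2 := hB.step (fun y => wpr B y x)
      (fun u v huv => ⟨fun h => weq_wpr B hBtr hBco _ _ _ (weq_symm B hBtr hBco _ _ huv) h,
        fun h => weq_wpr B hBtr hBco _ _ _ huv h⟩) t0 s
      (by omega) (by omega) (by omega) (by omega)
    have h3 : (Finset.univ.filter (fun y => lev y = t0 ∧ wpr A y x)).card ≤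
        (Finset.univ.filter (fun y => lev y = t0 ∧ wpr B y x)).card := by
      refine Finset.card_le_card fun y hy => ?_
      rw [Finset.mem_filter] at hy ⊢
      exact ⟨hy.1, hy.2.1, hAB y x (by omega) hy.2.2⟩
    unfold lowc
    omega
  -- the vertices of the level `s` in large blocks
  set Bad := Finset.univ.filter (fun v => lev v = s ∧ β < (Finset.univ.filter (fun u => weq A u v)).card) with hBad
  have hBadc : Bad.card ≤ β := by
    refine le_trans (Finset.card_le_card ?_) hA.block
    intro v hv
    rw [hBad, Finset.mem_filter] at hv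
    rw [Finset.mem_filter]
    exact ⟨hv.1, ⟨by omega, by omega⟩, hv.2.2⟩
  have hbad : ∀ v, lev v = s → v ∉ Bad → (Finset.univ.filter (fun u => weq A u v)).card ≤ β := by
    intro v hv hvB
    by_contra hcon
    exact hvB (Finset.mem_filter.2 ⟨Finset.mem_univ _, hv, not_le.1 hcon⟩)
  have hb : ∀ x, lev x = s → x ∉ Bad → lowc lev B s x ≤ lowc lev A s x + 3 * β := by
    intro x hx hxB
    have h1 := hup x hx
    have h2 := low_up lev B s x
    have h3 := low_up' lev A s x
    have h4 := hbad x hx hxB
    omega
  -- the low vertices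
  set Low := Finset.univ.filter (fun v => lev v = s ∧ 3 * lowc lev A s v < n) with hLow
  have hLowc : n ≤ 3 * Low.card := by
    rcases (Finset.univ.filter (fun v => lev v = s ∧ ¬ 3 * lowc lev A s v < n)).eq_empty_or_nonempty with he | hne
    · have h1 : (Finset.univ.filter (fun v => lev v = s)).card ≤ Low.card := by
        refine Finset.card_le_card fun v hv => ?_
        have hv' := (Finset.mem_filter.1 hv).2
        rw [hLow, Finset.mem_filter]
        refine ⟨Finset.mem_univ _, hv', ?_⟩
        by_contra hcon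
        have h2 : v ∈ (Finset.univ.filter (fun v => lev v = s ∧ ¬ 3 * lowc lev A s v < n)) :=
          Finset.mem_filter.2 ⟨Finset.mem_univ _, hv', hcon⟩
        rw [he] at h2
        exact absurd h2 (Finset.notMem_empty _)
      omega
    · obtain ⟨v, hv, hmin⟩ := Finset.exists_min_image _ (fun v => lowc lev A s v) hne
      have hv' := (Finset.mem_filter.1 hv).2
      have h1 : lowc lev A s v ≤ Low.card := by
        refine Finset.card_le_card fun z hz => ?_
        have hz' := (Finset.mem_filter.1 hz).2
        rw [hLow, Finset.mem_filter]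
        refine ⟨Finset.mem_univ _, hz'.1, ?_⟩
        by_contra hcon
        have h2 := hmin z (Finset.mem_filter.2 ⟨Finset.mem_univ _, hz'.1, hcon⟩)
        exact absurd (lowc_lt lev A hAtr hAco s z v hz'.2 hz'.1) (not_lt.2 h2)
      have h2 := hv'.2
      omega
  -- the high vertices
  set High := Finset.univ.filter (fun v => lev v = s ∧ 2 * n < 3 * lowc lev A s v) with hHigh
  set NH := Finset.univ.filter (fun v => lev v = s ∧ v ∉ Bad ∧ ¬ 2 * n < 3 * lowc lev A s v) with hNH
  have hcov : n ≤ High.card + Bad.card + NH.card := by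
    rw [← hL]
    refine le_trans (Finset.card_le_card (t := (High ∪ Bad) ∪ NH) ?_) ?_
    · intro v hv
      have hv' := (Finset.mem_filter.1 hv).2
      rw [Finset.mem_union, Finset.mem_union]
      by_cases h1 : v ∈ Bad
      · exact Or.inl (Or.inr h1)
      · by_cases h2 : 2 * n < 3 * lowc lev A s v
        · exact Or.inl (Or.inl (Finset.mem_filter.2 ⟨Finset.mem_univ _, hv', h2⟩))
        · exact Or.inr (Finset.mem_filter.2 ⟨Finset.mem_univ _, hv', h1, h2⟩)
    · exact (Finset.card_union_le _ _).trans (Nat.add_le_add_right (Finset.card_union_le _ _) _)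
  have hHighc : n ≤ 3 * High.card + 6 * β := by
    rcases NH.eq_empty_or_nonempty with he | hne
    · rw [he, Finset.card_empty] at hcov
      omega
    · obtain ⟨v, hv, hmax⟩ := Finset.exists_max_image NH (fun v => lowc lev A s v) hne
      have hv' := (Finset.mem_filter.1 hv).2
      have h1 : NH.card ≤ lowc lev A s v + (Finset.univ.filter (fun u => weq A u v)).card := by
        unfold lowc
        refine le_trans (Finset.card_le_card (t := Finset.univ.filter (fun y => lev y = s ∧ wpr A y v) ∪
          Finset.univ.filter (fun u => weq A u v)) ?_) (Finset.card_union_le _ _)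
        intro z hz
        have hz' := (Finset.mem_filter.1 hz).2
        rw [Finset.mem_union, Finset.mem_filter, Finset.mem_filter]
        rcases wtri A z v with h1 | h1 | h1
        · exact Or.inl ⟨Finset.mem_univ _, hz'.1, h1⟩
        · have h2 := hmax z hz
          exact absurd (lowc_lt lev A hAtr hAco s v z h1 hv'.1) (not_lt.2 h2)
        · exact Or.inr ⟨Finset.mem_univ _, h1⟩
      have h2 := hbad v hv'.1 hv'.2.1
      have h3 := hv'.2.2
      omega
  -- two vertices in different chains
  set Low' := Low \ Bad with hLow'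
  have hLow'c : Low.card ≤ Low'.card + Bad.card := Finset.card_le_card_sdiff_add_card
  have hdisj : Disjoint Low' High := by
    rw [Finset.disjoint_left]
    intro v h1 h2
    have h3 := (Finset.mem_filter.1 (Finset.mem_sdiff.1 h1).1).2.2
    have h4 := (Finset.mem_filter.1 h2).2.2
    omega
  obtain ⟨x, hx, y, hy, hne⟩ : ∃ x ∈ Low', ∃ y ∈ High, M.ch x ≠ M.ch y := by
    by_contra hcon
    push Not at hcon
    have hL1 : 0 < Low'.card := by omega
    have hH1 : 0 < High.card := by omega
    obtain ⟨x0, hx0⟩ := Finset.card_pos.1 hL1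
    obtain ⟨y0, hy0⟩ := Finset.card_pos.1 hH1
    have h1 : (Low' ∪ High).card ≤ m := by
      rw [← hG.cell (M.ch x0) s (by omega)]
      refine Finset.card_le_card fun v hv => ?_
      rw [Finset.mem_filter]
      rcases Finset.mem_union.1 hv with h | h
      · exact ⟨Finset.mem_univ _, by rw [hcon v h y0 hy0, hcon x0 hx0 y0 hy0],
          (Finset.mem_filter.1 (Finset.mem_sdiff.1 h).1).2.1⟩
      · exact ⟨Finset.mem_univ _, (hcon x0 hx0 v h).symm, (Finset.mem_filter.1 h).2.1⟩
    rw [Finset.card_union_of_disjoint hdisj] at h1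
    omega
  have hx1 := (Finset.mem_filter.1 (Finset.mem_sdiff.1 hx).1).2
  have hxB := (Finset.mem_sdiff.1 hx).2
  have hy1 := (Finset.mem_filter.1 hy).2
  refine ⟨x, y, by rw [hx1.1, hy1.1], hne, ?_, ?_⟩
  · refine wpr_of_lowc lev A hAtr hAco s x y ?_
    have h1 := hx1.2
    have h2 := hy1.2
    omega
  · refine wpr_of_lowc lev B hBtr hBco s x y ?_
    have h1 := hx1.2
    have h2 := hy1.2
    have h3 := hb x hx1.1 hxB
    have h4 := hlo y hy1.1
    omega

end Pool.Agent.BoolWidth
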