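import Pool.Agent.Lib_MP_0cf6e1_g.Defs

set_option autoImplicit false

open scoped Classical

namespace Pool.Agent.BoolWidth

/-- Ramsey: see the beginning of the proof of `box_main` -/
theorem rep_exists {w : ℕ} {V : Type} [Fintype V] (M : MG w V) (d : ℕ) :
    ∃ n0 : ℕ, 0 < n0 ∧ ∀ n : ℕ, n0 ≤ n → ∀ (L : Fin d → V × Fin n → V × Fin n → Prop) (τ : (Fin d → Prop) → Prop),
      (∀ i, IsStrictTotalOrder (V × Fin n) (L i)) →
      (∀ x y, x ≠ y → (liftLt M.lt M.E (fun _ _ => 0) n x y ↔ τ (fun i => L i x y))) →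
      ∃ z1 z2 : Fin n, z1 < z2 ∧ Rep M (fun k u v => L k (u, z1) (v, z2)) τ := by
  obtain ⟨n0, hn0, hram⟩ := ramsey3 (Fin d → V → V → Prop)
  refine ⟨n0, hn0, ?_⟩
  intro n hn L τ hL hτ
  obtain ⟨z1, z2, z3, h12, h23, e1, e2⟩ := hram n hn (fun a b k u v => L k (u, a) (v, b))
  have hR12 : ∀ k u v, L k (u, z1) (v, z2) ↔ L k (u, z2) (v, z3) := by
    intro k u v
    have := congrFun (congrFun (congrFun e1 k) u) v
    exact iff_of_eq this
  have hR13 : ∀ k u v, L k (u, z1) (v, z2) ↔ L k (u, z1) (v, z3) := by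
    intro k u v
    have := congrFun (congrFun (congrFun e2 k) u) v
    exact iff_of_eq this
  have hz12 : z1 ≠ z2 := ne_of_lt h12
  have hz23 : z2 ≠ z3 := ne_of_lt h23
  -- the negation of `L` is the reversed order
  have hrev : ∀ k (x y : V × Fin n), x ≠ y → (¬ L k x y ↔ L k y x) := by
    intro k x y hxy
    have := hL k
    constructor
    · intro h
      rcases trichotomous_of (L k) x y with h' | h' | h'
      · exact absurd h' h
      · exact absurd h' hxy
      · exact h'
    · intro h h'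
      exact asymm_of (L k) h h'
  have hne : ∀ u v : V, ((u, z1) : V × Fin n) ≠ (v, z2) := fun u v h => hz12 (congrArg Prod.snd h)
  -- the four vectors
  have v1 : ∀ u v, liftLt M.lt M.E (fun _ _ => 0) n (u, z1) (v, z2) ↔
      τ (fun k => L k (u, z1) (v, z2)) := fun u v => hτ _ _ (hne u v)
  have v2 : ∀ u v, liftLt M.lt M.E (fun _ _ => 0) n (v, z2) (u, z1) ↔
      τ (fun k => ¬ L k (u, z1) (v, z2)) := by
    intro u v
    rw [hτ _ _ (hne u v).symm]
    have e : (fun k => L k (v, z2) (u, z1)) = fun k => ¬ L k (u, z1) (v, z2) := by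
      funext k
      exact propext (hrev k _ _ (hne u v)).symm
    rw [e]
  have v3 : ∀ u v, liftLt M.lt M.E (fun _ _ => 0) n (v, z1) (u, z2) ↔
      τ (fun k => ¬ ¬ L k (v, z1) (u, z2)) := by
    intro u v
    rw [v1 v u]
    have e : (fun k => ¬ ¬ L k (v, z1) (u, z2)) = fun k => L k (v, z1) (u, z2) := by
      funext k
      exact propext not_not
    rw [e]
  have hasym : ∀ u v, M.lt u v → ¬ M.lt v u := fun u v h h' => M.irr u (M.tr _ _ _ h h')
  refine ⟨z1, z2, h12, ?_, ?_, ?_, ?_, ?_⟩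
  · intro k u v t h1 h2
    have := hL k
    have h2' : L k (v, z2) (t, z3) := (hR12 k v t).1 h2
    exact (hR13 k u t).2 (trans_of (L k) h1 h2')
  · intro k u v t h1 h2 h3
    have := hL k
    have h2' : ¬ L k (v, z2) (t, z3) := fun h => h2 ((hR12 k v t).2 h)
    have h3' : L k (u, z1) (t, z3) := (hR13 k u t).1 h3
    have h4 : L k (v, z2) (u, z1) := (hrev k _ _ (hne u v)).1 h1
    have h5 : L k (t, z3) (v, z2) :=
      (hrev k _ _ (fun h => hz23 (congrArg Prod.snd h))).1 h2'
    exact asymm_of (L k) (trans_of (L k) h5 h4) h3'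
  · intro u v hlt hE
    have huv : u ≠ v := fun h => M.irr u (by rw [← h] at hlt; exact hlt)
    have hno := hasym u v hlt
    refine ⟨⟨(v1 u v).1 (Or.inr (Or.inl ⟨hlt, hE⟩)), fun h => ?_⟩,
      ⟨(v2 v u).1 (Or.inr (Or.inl ⟨hlt, hE⟩)), fun h => ?_⟩⟩
    · rcases (v2 u v).2 h with h | h | h
      · exact huv h.1.symm
      · exact hno h.1
      · exact hno (M.elt _ _ h.1)
    · rcases (v3 u v).2 h with h | h | h
      · exact huv h.1.symm
      · exact hno h.1
      · exact hno (M.elt _ _ h.1)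
  · intro u v hE
    have hlt := M.elt _ _ hE
    have huv : u ≠ v := fun h => M.irr u (by rw [← h] at hlt; exact hlt)
    have hno := hasym u v hlt
    refine ⟨⟨(v1 u v).1 (Or.inr (Or.inr ⟨hE, ?_⟩)), fun h => ?_⟩, ⟨fun h => ?_, fun h => ?_⟩⟩
    · have : (z1 : ℕ) < (z2 : ℕ) := h12
      show (z1 : ℕ) + 0 ≤ (z2 : ℕ)
      omega
    · rcases (v2 u v).2 h with h | h | h
      · exact huv h.1.symm
      · exact hno h.1
      · exact hno (M.elt _ _ h.1)
    · rcases (v2 v u).2 h with h | h | h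
      · exact huv h.1
      · exact h.2 hE
      · have h5 : (z2 : ℕ) + 0 ≤ (z1 : ℕ) := h.2
        have : (z1 : ℕ) < (z2 : ℕ) := h12
        omega
    · rcases (v3 u v).2 h with h | h | h
      · exact huv h.1.symm
      · exact hno h.1
      · exact hno (M.elt _ _ h.1)
  · intro u v huv h1 h2
    refine ⟨⟨fun h => ?_, fun h => ?_⟩, ⟨fun h => ?_, fun h => ?_⟩⟩
    · rcases (v1 u v).2 h with h | h | h
      · exact huv h.1
      · exact h1 h.1
      · exact h1 (M.elt _ _ h.1)
    · rcases (v2 u v).2 h with h | h | h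
      · exact huv h.1.symm
      · exact h2 h.1
      · exact h2 (M.elt _ _ h.1)
    · rcases (v2 v u).2 h with h | h | h
      · exact huv h.1
      · exact h1 h.1
      · exact h1 (M.elt _ _ h.1)
    · rcases (v3 u v).2 h with h | h | h
      · exact huv h.1.symm
      · exact h2 h.1
      · exact h2 (M.elt _ _ h.1)

end Pool.Agent.BoolWidth
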