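import Pool.Agent.Lib_MP_0cf6e1_g.CardG

set_option autoImplicit false

open scoped Classical

namespace Pool.Agent.BoolWidth

private theorem smallsg_arith (w m T N e b K : ℕ) (hw : 4 ≤ w) (hm : 1 ≤ m) (hT : 2 ≤ T)
    (hN : N = w * m * T) (hb : K ≤ b) (hK6 : 6 ≤ K) (harc : K * ((w - 1) * N) ≤ K * e + N)
    (he : b * e ≤ (T - 1) * ((b + 2) * (2 * (w * m)))) : False := by
  have hN0 : 0 < N := by
    rw [hN]
    exact Nat.mul_pos (Nat.mul_pos (by omega) (by omega)) (by omega)
  have h1 : b * e ≤ (b + 2) * (2 * N) := by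
    refine he.trans ?_
    have e1 : (T - 1) * ((b + 2) * (2 * (w * m))) ≤ T * ((b + 2) * (2 * (w * m))) :=
      Nat.mul_le_mul_right _ (by omega)
    refine e1.trans (le_of_eq ?_)
    rw [hN]
    ring
  have h2 : K * (3 * N) ≤ K * e + N :=
    (Nat.mul_le_mul_left _ (Nat.mul_le_mul_right _ (by omega))).trans harc
  have h3 : b * (K * (3 * N)) ≤ K * (b * e) + b * N := by
    refine (Nat.mul_le_mul_left b h2).trans (le_of_eq ?_)
    ring
  have h4 : b * (K * (3 * N)) ≤ K * ((b + 2) * (2 * N)) + b * N :=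
    h3.trans (Nat.add_le_add_right (Nat.mul_le_mul_left _ h1) _)
  have h5 : (b * K) * N ≤ (4 * K + b) * N := by
    have e1 : b * (K * (3 * N)) = (b * K) * N + 2 * (b * K) * N := by ring
    have e2 : K * ((b + 2) * (2 * N)) + b * N = (4 * K + b) * N + 2 * (b * K) * N := by ring
    rw [e1, e2] at h4
    omega
  have h6 : b * K ≤ 4 * K + b := Nat.le_of_mul_le_mul_right h5 hN0
  obtain ⟨q, hq⟩ : ∃ q, K = q + 1 := ⟨K - 1, by omega⟩
  have h7 : b * K = b * q + b := by rw [hq]; ring
  have h8 : K * 5 ≤ b * q := Nat.mul_le_mul hb (by omega)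
  omega

/-- Two adjacent levels are dense, so `s` is small against the levels (`w ≥ 4`). If `m < c s` then two adjacent levels have `2 w m ≤ K s`
vertices, so `b eIn ≤ (b + 2) 2 w m` for them; each arc joins adjacent levels, so `b eIn M.E univ ≤ (T - 1) (b + 2) 2 w m ≤ (b + 2) 2 N`
(`card_graded`), while `eIn ≥ (w - 1) N - N / K ≥ 3 N - N / K`: `b K ≤ 4 K + b`, false as `b ≥ K ≥ 6`. -/
theorem small_s {w : ℕ} {V : Type} [Fintype V] (M : MG w V) (lev : V → ℕ) (T m : ℕ) (hG : Graded M lev T m)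
    (hw : 4 ≤ w) (s b K c : ℕ) (hm : 1 ≤ m) (hT : 2 ≤ T) (hb : K ≤ b) (hK6 : 6 ≤ K) (hK : 2 * w * c ≤ K)
    (harc : K * ((w - 1) * Fintype.card V) ≤ K * eIn M.E Finset.univ + Fintype.card V)
    (hsp : ∀ S : Finset V, S.card ≤ K * s → b * eIn M.E S ≤ (b + 2) * S.card) : c * s ≤ m := by
  by_contra hc
  obtain ⟨hN, hL⟩ := card_graded M lev T m hG
  have hcard : ∀ t, t + 1 < T →
      (Finset.univ.filter (fun v => lev v = t) ∪ Finset.univ.filter (fun v => lev v = t + 1)).card ≤
        2 * (w * m) := by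
    intro t ht
    refine (Finset.card_union_le _ _).trans ?_
    rw [hL t (by omega), hL (t + 1) ht]
    omega
  have hKs : 2 * (w * m) ≤ K * s := by
    have e1 : 2 * (w * m) ≤ 2 * w * c * s := by
      have e2 : 2 * w * c * s = 2 * (w * (c * s)) := by ring
      rw [e2]
      exact Nat.mul_le_mul_left _ (Nat.mul_le_mul_left _ (by omega))
    exact e1.trans (Nat.mul_le_mul_right _ hK)
  have hS : ∀ t ∈ Finset.range (T - 1),
      b * eIn M.E (Finset.univ.filter (fun v => lev v = t) ∪
        Finset.univ.filter (fun v => lev v = t + 1)) ≤ (b + 2) * (2 * (w * m)) := by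
    intro t ht
    have ht' : t + 1 < T := by
      have := Finset.mem_range.1 ht
      omega
    exact (hsp _ ((hcard t ht').trans hKs)).trans (Nat.mul_le_mul_left _ (hcard t ht'))
  have hsum : eIn M.E Finset.univ ≤ ∑ t ∈ Finset.range (T - 1),
      eIn M.E (Finset.univ.filter (fun v => lev v = t) ∪
        Finset.univ.filter (fun v => lev v = t + 1)) := by
    unfold eIn
    refine (Finset.card_le_card ?_).trans Finset.card_biUnion_le
    intro p hp
    have hE : M.E p.1 p.2 := (Finset.mem_filter.1 hp).2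
    have h1 := hG.arc _ _ hE
    have h2 := hG.lt p.2
    rw [Finset.mem_biUnion]
    refine ⟨lev p.1, Finset.mem_range.2 (by omega), ?_⟩
    rw [Finset.mem_filter, Finset.mem_product]
    refine ⟨⟨?_, ?_⟩, hE⟩
    · rw [Finset.mem_union]
      exact Or.inl (Finset.mem_filter.2 ⟨Finset.mem_univ _, rfl⟩)
    · rw [Finset.mem_union]
      exact Or.inr (Finset.mem_filter.2 ⟨Finset.mem_univ _, h1⟩)
  have he : b * eIn M.E Finset.univ ≤ (T - 1) * ((b + 2) * (2 * (w * m))) := by
    refine (Nat.mul_le_mul_left b hsum).trans ?_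
    rw [Finset.mul_sum]
    refine (Finset.sum_le_sum hS).trans (le_of_eq ?_)
    rw [Finset.sum_const, Finset.card_range, smul_eq_mul]
  exact smallsg_arith w m T (Fintype.card V) (eIn M.E Finset.univ) b K hw hm hT hN hb hK6 harc he

end Pool.Agent.BoolWidth
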