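import Pool.Agent.Lib_MP_0cf6e1_g.WindowG

set_option autoImplicit false

open scoped Classical

namespace Pool.Agent.BoolWidth

private theorem WinG_weq {w d K : ℕ} {V : Type} [Fintype V] (M : MG w V) (R : Fin d → V → V → Prop)
    (H' : Fin d → V → V → Prop) (hH' : CD M R K H') (hw : 1 ≤ w) (j : Fin d) (u v : V) (h : H' j u v) :
    weq (R j) u v := by
  have hne : u ≠ v := by
    rintro rfl
    exact M.irr _ (M.elt _ _ (hH'.sub j _ _ h))
  have h1 := hH'.rigid j 1 (fun i => if i = 0 then u else v) le_rfl hw ?_ j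
  · simpa using h1.2 rfl
  · constructor
    · intro i hi
      have : i = 0 := by omega
      subst this
      simp only [if_true]
      exact Or.inl (by simpa using h)
    · intro i k hi hk hik
      simp only at hik
      by_cases h2 : i = 0
      · by_cases h3 : k = 0
        · omega
        · rw [if_pos h2, if_neg h3] at hik
          exact absurd hik hne
      · by_cases h3 : k = 0
        · rw [if_neg h2, if_pos h3] at hik
          exact absurd hik.symm hne
        · omega

private theorem WinG_nosucc {V : Type} [Fintype V] (A : V → V → Prop)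
    (hout : ∀ u v v', A u v → A u v' → v = v') :
    eIn A Finset.univ + (Finset.univ.filter (fun u => ∀ v, ¬ A u v)).card ≤ Fintype.card V := by
  have h1 : eIn A Finset.univ ≤ (Finset.univ.filter (fun u : V => ¬ ∀ v, ¬ A u v)).card := by
    unfold eIn
    refine Finset.card_le_card_of_injOn (fun p => p.1) ?_ ?_
    · intro p hp
      have h2 := (Finset.mem_filter.1 (Finset.mem_coe.1 hp)).2
      exact Finset.mem_coe.2 (Finset.mem_filter.2 ⟨Finset.mem_univ _, fun h => h _ h2⟩)
    · rintro ⟨u, v⟩ hp ⟨u', v'⟩ hp' h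
      have h2 := (Finset.mem_filter.1 (Finset.mem_coe.1 hp)).2
      have h3 := (Finset.mem_filter.1 (Finset.mem_coe.1 hp')).2
      simp only at h h2 h3
      subst h
      rw [hout _ _ _ h2 h3]
  have h2 := Finset.card_filter_add_card_filter_not (s := (Finset.univ : Finset V))
    (fun u => ∀ v, ¬ A u v)
  rw [Finset.card_univ] at h2
  omega

/-- windows on which all the orders of `P` have strands: `window` for the set `Bd` of the vertices with an odd label and of
the vertices without a successor in some `H' j` with `P j` (`K |Bd| ≤ (d + 1) card V`), `β = max s (count)`, then `win_step` -/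
theorem win_exists {w d T m s K K1 : ℕ} {V : Type} [Fintype V] (M : MG w V) (lev : V → ℕ) (hG : Graded M lev T m)
    (R : Fin d → V → V → Prop) (lab : Fin d → V → ℕ) (H H' : Fin d → V → V → Prop) (hHD : HD M R s K1 lab H)
    (hKK : K ≤ K1) (P : Fin d → Prop) (hH' : CD M R K H')
    (hst : ∀ j, P j → (∀ u u' v, H' j u v → H' j u' v → u = u') ∧ ∀ u v v', H' j u v → H' j u v' → v = v')
    (Λ c : ℕ) (hΛ : 1 ≤ Λ) (hΛT : Λ ≤ T) (hK : 2 * (d + 1) * (c * Λ) * w ≤ K) (hs : c * s ≤ m) (hm : 1 ≤ m)
    (hw : 1 ≤ w) (hc : 1 ≤ c) :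
    ∃ t0 β, t0 + Λ ≤ T ∧ c * β ≤ m ∧ ∀ j, P j → Win lev (R j) t0 Λ β := by
  set B0 : Finset V := Finset.univ.filter (fun v => ∃ k, ¬ Even (lab k v)) with hB0
  set B1 : Fin d → Finset V := fun j =>
    if P j then Finset.univ.filter (fun u => ∀ v, ¬ H' j u v) else ∅ with hB1
  set Bd : Finset V := B0 ∪ Finset.univ.biUnion B1 with hBd
  have hV := (card_graded M lev T m hG).1
  have hK0 : 0 < K := by
    have : 0 < 2 * (d + 1) * (c * Λ) * w := by positivity
    omega
  have h0 : K * B0.card ≤ Fintype.card V :=
    (Nat.mul_le_mul_right _ hKK).trans hHD.odd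
  have h1 : ∀ j, K * (B1 j).card ≤ Fintype.card V := by
    intro j
    by_cases hP : P j
    · have h2 := WinG_nosucc (H' j) (hst j hP).2
      have h3 := hH'.many j
      have h4 : K * (eIn (H' j) Finset.univ +
          (Finset.univ.filter (fun u => ∀ v, ¬ H' j u v)).card) ≤ K * Fintype.card V :=
        Nat.mul_le_mul_left _ h2
      rw [mul_add] at h4
      have h5 : B1 j = Finset.univ.filter (fun u => ∀ v, ¬ H' j u v) := by
        rw [hB1]
        simp only [hP, if_true]
      rw [h5]
      omega
    · have h5 : B1 j = ∅ := by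
        rw [hB1]
        simp only [hP, if_false]
      rw [h5]
      simp
  have h2 : K * Bd.card ≤ (d + 1) * Fintype.card V := by
    have h3 : Bd.card ≤ B0.card + ∑ j, (B1 j).card :=
      (Finset.card_union_le _ _).trans (Nat.add_le_add_left Finset.card_biUnion_le _)
    calc K * Bd.card ≤ K * (B0.card + ∑ j, (B1 j).card) := Nat.mul_le_mul_left _ h3
      _ = K * B0.card + ∑ j, K * (B1 j).card := by rw [mul_add, Finset.mul_sum]
      _ ≤ Fintype.card V + ∑ _j : Fin d, Fintype.card V :=
          Nat.add_le_add h0 (Finset.sum_le_sum fun j _ => h1 j)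
      _ = (d + 1) * Fintype.card V := by
          rw [Finset.sum_const, Finset.card_univ, Fintype.card_fin, smul_eq_mul]
          ring
  have h3 : 2 * c * Λ * Bd.card ≤ T * m := by
    have h4 : K * (2 * c * Λ * Bd.card) ≤ K * (T * m) := by
      calc K * (2 * c * Λ * Bd.card) = 2 * c * Λ * (K * Bd.card) := by ring
        _ ≤ 2 * c * Λ * ((d + 1) * Fintype.card V) := Nat.mul_le_mul_left _ h2
        _ = 2 * (d + 1) * (c * Λ) * w * (T * m) := by rw [hV]; ring
        _ ≤ K * (T * m) := Nat.mul_le_mul_right _ hK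
    exact Nat.le_of_mul_le_mul_left h4 hK0
  obtain ⟨t0, ht0, hb⟩ := window lev Bd T m Λ c hΛ hΛT h3
  set b := (Bd.filter (fun v => t0 ≤ lev v ∧ lev v < t0 + Λ)).card with hbdef
  refine ⟨t0, max s b, ht0, ?_, ?_⟩
  · rcases le_total s b with h | h
    · rw [max_eq_right h]
      exact hb
    · rw [max_eq_left h]
      exact hs
  · intro j hP
    constructor
    · intro S hS t t' h4 h5 h6 h7
      refine win_step M lev hG (H' j) (fun u v h => hG.arc u v (hH'.sub j u v h)) (hst j hP).1
        (hst j hP).2 t0 Λ (max s b) ht0 ?_ S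
        (fun u v h => hS u v (WinG_weq M R H' hH' hw j u v h)) t t' h4 h5 h6 h7
      refine le_trans (Finset.card_le_card ?_) (le_max_right _ _)
      intro u hu
      obtain ⟨-, hu1, hu2⟩ := Finset.mem_filter.1 hu
      refine Finset.mem_filter.2 ⟨?_, hu1⟩
      refine Finset.mem_union_right _ (Finset.mem_biUnion.2 ⟨j, Finset.mem_univ _, ?_⟩)
      rw [hB1]
      simp only [hP, if_true]
      exact Finset.mem_filter.2 ⟨Finset.mem_univ _, hu2⟩
    · refine le_trans (Finset.card_le_card ?_) (le_max_right _ _)
      intro v hv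
      obtain ⟨-, hv1, hv2⟩ := Finset.mem_filter.1 hv
      refine Finset.mem_filter.2 ⟨?_, hv1⟩
      refine Finset.mem_union_left _ (Finset.mem_filter.2 ⟨Finset.mem_univ _, j, fun he => ?_⟩)
      have h4 : (Finset.univ.filter (fun u => weq (R j) u v)).card ≤ s := by
        refine le_trans (Finset.card_le_card ?_) (hHD.small j (lab j v) he)
        intro u hu
        exact Finset.mem_filter.2 ⟨Finset.mem_univ _,
          hHD.labeq j u v (Finset.mem_filter.1 hu).2⟩
      have h5 : s ≤ max s b := le_max_left _ _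
      omega

end Pool.Agent.BoolWidth
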