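import Pool.Agent.Lib_MP_0cf6e1_g.ExistG
import Pool.Agent.Lib_MP_0cf6e1_g.SmallSG
import Pool.Agent.Lib_MP_0cf6e1_g.CountG
import Pool.Agent.Lib_MP_0cf6e1_g.CleanG
import Pool.Agent.Lib_MP_0cf6e1_g.EdgeG
import Pool.Agent.Lib_MP_0cf6e1_g.LastG
import Pool.Agent.Lib_MP_0cf6e1_g.WinG
import Pool.Agent.Lib_MP_0cf6e1_g.NoGridG
import Pool.Agent.Lib_MP_0cf6e1_g.RankG
import Pool.Agent.Lib_MP_0cf6e1_g.ClsG
import Pool.Agent.Lib_MP_0cf6e1_g.RepG

/-!
# The assembly
-/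

set_option autoImplicit false

open scoped Classical

namespace Pool.Agent.BoolWidth

/-- `R` or its reverse -/
def sgn {V : Type} (a : Prop) (R : V → V → Prop) (u v : V) : Prop := (a ∧ R u v) ∨ (¬ a ∧ R v u)

theorem sgn_wpr {V : Type} (a : Prop) (R : V → V → Prop) (u v : V) :
    wpr (sgn a R) u v ↔ ((R u v ↔ a) ∧ ((¬ R v u) ↔ a)) := by
  unfold wpr sgn
  by_cases ha : a <;> simp [ha]
  tauto

theorem sgn_weq {V : Type} (a : Prop) (R : V → V → Prop) (u v : V) : weq (sgn a R) u v ↔ weq R u v := by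
  unfold weq sgn
  by_cases ha : a <;> simp [ha]
  tauto

theorem sgn_tr {V : Type} (a : Prop) (R : V → V → Prop) (h : ∀ u v t, R u v → R v t → R u t) :
    ∀ u v t, sgn a R u v → sgn a R v t → sgn a R u t := by
  intro u v t h1 h2
  unfold sgn at *
  by_cases ha : a
  · simp only [ha, true_and, not_true_eq_false, false_and, or_false] at *
    exact h _ _ _ h1 h2
  · simp only [ha, false_and, not_false_eq_true, true_and, false_or] at *
    exact h _ _ _ h2 h1

theorem sgn_co {V : Type} (a : Prop) (R : V → V → Prop) (h : ∀ u v t, ¬ R u v → ¬ R v t → ¬ R u t) :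
    ∀ u v t, ¬ sgn a R u v → ¬ sgn a R v t → ¬ sgn a R u t := by
  intro u v t h1 h2
  unfold sgn at *
  by_cases ha : a
  · simp only [ha, true_and, not_true_eq_false, false_and, or_false] at *
    exact h _ _ _ h1 h2
  · simp only [ha, false_and, not_false_eq_true, true_and, false_or] at *
    exact h _ _ _ h2 h1

theorem sgn_win {V : Type} [Fintype V] (lev : V → ℕ) (a : Prop) (R : V → V → Prop) (t0 Λ β : ℕ)
    (h : Win lev R t0 Λ β) : Win lev (sgn a R) t0 Λ β := by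
  constructor
  · intro S hS
    exact h.step S (fun u v huv => hS u v ((sgn_weq a R u v).2 huv))
  · have := h.block
    simp only [sgn_weq]
    exact this

/-- the master theorem -/
theorem master (w : ℕ) (hw : 3 ≤ w) : ∃ (V : Type) (_ : Fintype V) (M : MG w V) (n : ℕ),
    ∀ (d : ℕ) (L : Fin d → V × Fin n → V × Fin n → Prop) (τ : (Fin d → Prop) → Prop), d < w →
      (∀ i, IsStrictTotalOrder (V × Fin n) (L i)) →
      (∀ x y, x ≠ y → (liftLt M.lt M.E (fun _ _ => 0) n x y ↔ τ (fun i => L i x y))) →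
      d + 1 = w ∧ (∀ j, EdgeTT τ j) ∧ (∀ j, EdgeTN τ j) ∧
        (4 ≤ w → (∀ i, ∃ j, j ≠ i ∧ EdgeNN τ j) ∧ ∀ j k, j ≠ k → ¬ EdgeNN τ j → ¬ EdgeNN τ k → ¬ Opp τ j k) := by
  obtain ⟨Λ0, c0, hΛ0, hc0, hng⟩ := nogrid (w - 1)
  obtain ⟨Λ, hΛ⟩ : ∃ Λ, Λ = Λ0 + 5 := ⟨_, rfl⟩
  obtain ⟨c, hc⟩ : ∃ c, c = c0 + 100 := ⟨_, rfl⟩
  obtain ⟨K, hK⟩ : ∃ K, K = 2 * w * (c * Λ) * w + w + 2 := ⟨_, rfl⟩
  obtain ⟨K2, hK2⟩ : ∃ K2, K2 = 2 * w ^ 2 * K := ⟨_, rfl⟩
  obtain ⟨K1, hK1⟩ : ∃ K1, K1 = 20 * w ^ 5 * K2 := ⟨_, rfl⟩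
  obtain ⟨K0, hK0⟩ : ∃ K0, K0 = 8 * w ^ 3 * K1 := ⟨_, rfl⟩
  obtain ⟨Ks, hKs⟩ : ∃ Ks, Ks = K0 + 4 * w + 2 * K1 + 2 * w * c + 6 + Λ := ⟨_, rfl⟩
  obtain ⟨V, fV, M, lev, T, m, s, b, hG, hm, hT, hb, hs, harc, hsp, hQ, hgir⟩ :=
    exist_graded w Ks hw (by omega)
  choose n0 hn0 hrep using fun d => rep_exists M d
  refine ⟨V, fV, M, (Finset.range w).sup n0, ?_⟩
  intro d L τ hd hL hτ
  have hdn : n0 d ≤ (Finset.range w).sup n0 := Finset.le_sup (f := n0) (Finset.mem_range.2 hd)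
  obtain ⟨z1, z2, hz, hR⟩ := hrep d _ hdn L τ hL hτ
  have hcard := (card_graded M lev T m hG).1
  have hNpos : 0 < Fintype.card V := by
    rw [hcard]
    have : 0 < T := by omega
    have : 0 < w := by omega
    positivity
  have hw5 : 1 ≤ w ^ 5 := Nat.one_le_pow _ _ (by omega)
  have hw3 : 1 ≤ w ^ 3 := Nat.one_le_pow _ _ (by omega)
  have hw2 : 1 ≤ w ^ 2 := Nat.one_le_pow _ _ (by omega)
  have hKK2 : K ≤ K2 := by
    rw [hK2]
    nlinarith
  have hKK1 : K2 ≤ K1 := by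
    rw [hK1]
    nlinarith
  have harc0 : ∀ K', K' ≤ Ks → K' * ((w - 1) * Fintype.card V) ≤ K' * eIn M.E Finset.univ + Fintype.card V := by
    intro K' hK'
    rcases Nat.le_total ((w - 1) * Fintype.card V) (eIn M.E Finset.univ) with h | h
    · exact (Nat.mul_le_mul_left _ h).trans (Nat.le_add_right _ _)
    · obtain ⟨x, hx⟩ := Nat.exists_eq_add_of_le h
      rw [hx] at harc ⊢
      have h1 : K' * x ≤ Ks * x := Nat.mul_le_mul_right _ hK'
      nlinarith
  have hsp0 : ∀ r, r ≤ Ks → ∀ S : Finset V, S.card ≤ r * s → b * eIn M.E S ≤ (b + 2) * S.card :=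
    fun r hr S hS => hsp S (hS.trans (Nat.mul_le_mul_right _ hr))
  obtain ⟨hdw, lab, H, hHD⟩ := hd_exists M s b K0 K1 hw hd hs hNpos (by omega) hK0.ge (by omega)
    (harc0 K0 (by omega)) (fun S hS => hsp0 1 (by omega) S (by omega))
    (le_trans (Nat.mul_le_mul_right _ (by omega)) hQ) L τ hL hτ z1 z2 hz hR.tr hR.co
  obtain ⟨H', hCD⟩ := cd_exists M (fun k u v => L k (u, z1) (v, z2)) s K1 K2 b hR.tr hR.co lab H hHD
    (by omega) (by omega) (by omega) (by omega) hK1.ge (hsp0 w (by omega))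
  set R : Fin d → V → V → Prop := fun k u v => L k (u, z1) (v, z2) with hRdef
  refine ⟨hdw, fun j => edge_tt M R τ hR K2 Ks H' hCD hgir (by omega) (by omega) (by omega) hNpos j,
    fun j => edge_tn M R τ hR K2 H' hCD (by omega) (by omega) hNpos j, ?_⟩
  intro hw4
  have hcs : c * s ≤ m := small_s M lev T m hG hw4 s b Ks c hm (by omega) hb (by omega) (by omega)
    (harc0 Ks le_rfl) hsp
  have hKw : 2 * (d + 1) * (c * Λ) * w ≤ K := by
    rw [hdw, hK]
    omega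
  have hwin : ∀ P : Fin d → Prop, (∀ j, P j → ¬ EdgeNN τ j) →
      ∃ t0 β, t0 + Λ ≤ T ∧ c * β ≤ m ∧ ∀ j, P j → Win lev (R j) t0 Λ β := by
    intro P hP
    exact win_exists M lev hG R lab H H' hHD hKK1 P hCD
      (fun j hj => strand M R τ hR K2 H' hCD (by omega) j (hP j hj)) Λ c (by omega) (by omega) (by omega) hcs hm
      (by omega) (by omega)
  have hfull : ∀ u v, lev u + 2 ≤ lev v → TS τ (fun k => R k u v) ∧ TS τ (fun k => ¬ R k v u) := by
    intro u v huv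
    refine hR.full u v (hG.full u v huv) ?_
    intro hE
    have := hG.arc u v hE
    omega
  constructor
  · intro i
    by_contra hno
    push Not at hno
    obtain ⟨H2, hCD2, hst2⟩ := cd_last M R K2 K H' hCD hdw (by omega) i hK2.ge
      (fun j hj => strand M R τ hR K2 H' hCD (by omega) j (hno j hj))
    obtain ⟨t0, β, ht0, hβ, hW⟩ := win_exists M lev hG R lab H H2 hHD (by omega) (fun _ => True) hCD2
      (fun j _ => hst2 j) Λ c (by omega) (by omega) hKw hcs hm (by omega) (by omega)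
    obtain rfl : d = w - 1 := by omega
    have hW0 : ∀ k, Win lev (R k) t0 Λ0 β := fun k => win_mono lev (R k) t0 Λ Λ0 β (by omega) (hW k trivial)
    have hc0β : c0 * β ≤ m := le_trans (Nat.mul_le_mul_right _ (by omega)) hβ
    obtain ⟨x, y, x', y', h1, h2, h3⟩ := hng w T m V fV M lev hG R hR.tr hR.co t0 β (by omega) hm
      (by omega) hc0β hW0
    have e1 : (fun k => R k x y') = fun k => ¬ R k y x' := funext fun k => propext (h3 k)
    have a1 := (hfull x y' h1).1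
    have a2 := (hfull y x' h2).1
    rw [e1] at a1
    apply a1.2
    have e2 : (fun k => ¬ ¬ R k y x') = fun k => R k y x' := funext fun k => propext not_not
    rw [e2]
    exact a2.1
  · rintro j k hjk hj hk ⟨a, b', h1, h2⟩
    obtain ⟨t0, β, ht0, hβ, hW⟩ := hwin (fun i => i = j ∨ i = k) (by
      rintro i (rfl | rfl)
      · exact hj
      · exact hk)
    have hWj := sgn_win lev a (R j) t0 5 β (win_mono lev (R j) t0 Λ 5 β (by omega) (hW j (Or.inl rfl)))
    have hWk := sgn_win lev b' (R k) t0 5 β (win_mono lev (R k) t0 Λ 5 β (by omega) (hW k (Or.inr rfl)))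
    have h100 : 100 * β ≤ m := le_trans (Nat.mul_le_mul_right _ (by omega)) hβ
    obtain ⟨x, y, hxy, hch, hA, hB⟩ := norank M lev hG (sgn a (R j)) (sgn b' (R k))
      (sgn_tr a (R j) (hR.tr j)) (sgn_co a (R j) (hR.co j)) (sgn_tr b' (R k) (hR.tr k))
      (sgn_co b' (R k) (hR.co k)) t0 β (by omega) hm (by omega) h100 hWj hWk (by
        intro u v huv hA
        rw [sgn_wpr] at hA ⊢
        obtain ⟨f1, f2⟩ := hfull u v huv
        exact ⟨h1 _ f1 hA.1, h1 _ f2 hA.2⟩)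
    rw [sgn_wpr] at hA hB
    have hne : x ≠ y := fun h => hch (by rw [h])
    have hin := (hR.inc x y hne (hG.inc x y hxy hch) (hG.inc y x hxy.symm (Ne.symm hch))).1
    exact (h2 _ hin).1 hA.1 hB.1

end Pool.Agent.BoolWidth
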