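import Pool.Agent.Lib_MP_0cf6e1_g.Defs

set_option autoImplicit false

open scoped Classical

namespace Pool.Agent.BoolWidth

/-- a function on `Fin (r + 1)` as a sequence -/
private def exP {V : Type} (r : ℕ) (f : Fin (r + 1) → V) (i : ℕ) : V := f ⟨min i r, by omega⟩

private theorem exP_eq {V : Type} {r : ℕ} (f : Fin (r + 1) → V) (t : Fin (r + 1)) : exP r f t = f t := by
  unfold exP
  congr 1
  ext
  show min (t : ℕ) r = t
  have := t.2
  omega

private theorem exP_cs {V : Type} {r : ℕ} (f : Fin (r + 1) → V) (t : Fin r) : exP r f t = f t.castSucc :=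
  exP_eq f t.castSucc

private theorem exP_su {V : Type} {r : ℕ} (f : Fin (r + 1) → V) (t : Fin r) : exP r f (t + 1) = f t.succ :=
  exP_eq f t.succ

/-- the arc of the step `t` -/
private noncomputable def arcP {V : Type} {r : ℕ} (A : V → V → Prop) (x : (Fin (r + 1) → V) × Fin r) : V × V :=
  if A (x.1 x.2.castSucc) (x.1 x.2.succ) then (x.1 x.2.castSucc, x.1 x.2.succ)
  else (x.1 x.2.succ, x.1 x.2.castSucc)

private theorem arcP_or {V : Type} {r : ℕ} (A : V → V → Prop) (x : (Fin (r + 1) → V) × Fin r) :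
    arcP A x = (x.1 x.2.castSucc, x.1 x.2.succ) ∨ arcP A x = (x.1 x.2.succ, x.1 x.2.castSucc) := by
  unfold arcP
  split_ifs
  · exact Or.inl rfl
  · exact Or.inr rfl

private theorem arcP_mem {V : Type} {r : ℕ} (A : V → V → Prop) (x : (Fin (r + 1) → V) × Fin r)
    (h : Adj A (x.1 x.2.castSucc) (x.1 x.2.succ)) : A (arcP A x).1 (arcP A x).2 := by
  unfold arcP
  split_ifs with h1
  · exact h1
  · exact h.resolve_left h1

private theorem pathG_arith {r b K A M N : ℕ} (hr : 1 ≤ r) (hb : 4 * r ≤ b) (hbK : 2 * K ≤ b)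
    (h1 : b * (A + r * M) ≤ (b + 2) * (N + (r - 1) * M)) (h2 : K * N ≤ K * A + N) : K * M ≤ 4 * N := by
  obtain ⟨q, rfl⟩ : ∃ q, r = q + 1 := ⟨r - 1, by omega⟩
  rw [Nat.add_sub_cancel] at h1
  have hb0 : 0 < b := by omega
  have e1 : K * (b * (A + (q + 1) * M)) ≤ K * ((b + 2) * (N + q * M)) := Nat.mul_le_mul_left K h1
  have e2 : b * (K * N) ≤ b * (K * A + N) := Nat.mul_le_mul_left b h2
  have e3 : 2 * K * N ≤ b * N := Nat.mul_le_mul_right N hbK
  have e4 : 4 * (q + 1) * (K * M) ≤ b * (K * M) := Nat.mul_le_mul_right (K * M) hb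
  have e5 : b * (K * M) ≤ b * (4 * N) := by nlinarith
  exact Nat.le_of_mul_le_mul_left e5 hb0

/-- the count of one class -/
private theorem pathG_class {w d : ℕ} {V : Type} [Fintype V] (M : MG w V) (R : Fin d → V → V → Prop) (s K b : ℕ)
    (lab : Fin d → V → ℕ) (H : Fin d → V → V → Prop) (hH : HD M R s K lab H) (j k : Fin d) (hjk : k ≠ j)
    (r : ℕ) (hr : 1 ≤ r)
    (hsp : ∀ S : Finset V, S.card ≤ r * s → b * eIn M.E S ≤ (b + 2) * S.card)
    (i : ℕ) (hi : Even i) (F : Finset (Fin (r + 1) → V))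
    (hF1 : ∀ f ∈ F, Function.Injective f ∧ (∀ t : Fin r, Adj (H j) (f t.castSucc) (f t.succ)) ∧
      lab k (f 0) = i ∧ lab k (f (Fin.last r)) = i)
    (hF2 : ∀ f ∈ F, ∀ g ∈ F, ∀ a b, f a = g b → f = g) :
    b * (eIn (H k) (Finset.univ.filter (fun v => lab k v = i)) + r * F.card) ≤
      (b + 2) * ((Finset.univ.filter (fun v => lab k v = i)).card + (r - 1) * F.card) := by
  set C : Finset V := Finset.univ.filter (fun v => lab k v = i) with hC
  have hCm : ∀ v, v ∈ C ↔ lab k v = i := fun v => by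
    rw [hC, Finset.mem_filter]
    exact ⟨fun h => h.2, fun h => ⟨Finset.mem_univ _, h⟩⟩
  set T : Finset (Fin (r + 1)) := (Finset.univ.erase 0).erase (Fin.last r) with hT
  have hTc : T.card = r - 1 := by
    have h0 : Fin.last r ∈ Finset.univ.erase (0 : Fin (r + 1)) := by
      rw [Finset.mem_erase]
      refine ⟨?_, Finset.mem_univ _⟩
      intro h
      have := congrArg Fin.val h
      simp at this
      omega
    rw [hT, Finset.card_erase_of_mem h0, Finset.card_erase_of_mem (Finset.mem_univ _), Finset.card_univ,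
      Fintype.card_fin]
    omega
  set S : Finset V := C ∪ F.biUnion (fun f => T.image f) with hS
  have hin : ∀ f ∈ F, ∀ a, f a ∈ S := by
    intro f hf a
    obtain ⟨-, -, h3, h4⟩ := hF1 f hf
    by_cases ha : a ∈ T
    · exact Finset.mem_union_right _ (Finset.mem_biUnion.2 ⟨f, hf, Finset.mem_image_of_mem f ha⟩)
    · refine Finset.mem_union_left _ ((hCm _).2 ?_)
      rw [hT, Finset.mem_erase, Finset.mem_erase] at ha
      by_cases h5 : a = Fin.last r
      · rw [h5]
        exact h4
      · have h6 : a = 0 := by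
          by_contra h7
          exact ha ⟨h5, h7, Finset.mem_univ _⟩
        rw [h6]
        exact h3
  have hm : F.card ≤ C.card := by
    refine Finset.card_le_card_of_injOn (fun f => f 0) ?_ ?_
    · intro f hf
      exact (hCm _).2 (hF1 f hf).2.2.1
    · intro f hf g hg h
      exact hF2 f hf g hg 0 0 h
  have hSc : S.card ≤ C.card + (r - 1) * F.card := by
    refine (Finset.card_union_le _ _).trans (Nat.add_le_add_left ?_ _)
    refine (Finset.card_biUnion_le).trans ?_
    refine (Finset.sum_le_card_nsmul F _ (r - 1) ?_).trans ?_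
    · intro f _
      exact Finset.card_image_le.trans hTc.le
    · rw [smul_eq_mul, mul_comm]
  have hCs : C.card ≤ s := hH.small k i hi
  have hSs : S.card ≤ r * s := by
    obtain ⟨q, rfl⟩ : ∃ q, r = q + 1 := ⟨r - 1, by omega⟩
    rw [Nat.add_sub_cancel] at hSc
    have h1 : q * F.card ≤ q * s := Nat.mul_le_mul_left q (hm.trans hCs)
    have h2 : (q + 1) * s = q * s + s := by ring
    omega
  -- arcs
  set A1 : Finset (V × V) := (C ×ˢ C).filter (fun p => H k p.1 p.2) with hA1
  set A2 : Finset (V × V) := (F ×ˢ (Finset.univ : Finset (Fin r))).image (arcP (H j)) with hA2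
  have hA2c : A2.card = r * F.card := by
    rw [hA2, Finset.card_image_of_injOn, Finset.card_product, Finset.card_univ, Fintype.card_fin, mul_comm]
    rintro ⟨f, t⟩ hft ⟨g, u⟩ hgu h
    have hf : f ∈ F := (Finset.mem_product.1 hft).1
    have hg : g ∈ F := (Finset.mem_product.1 hgu).1
    have hfg : f = g := by
      have h1 := congrArg Prod.fst h
      rcases arcP_or (H j) (f, t) with h2 | h2 <;> rcases arcP_or (H j) (g, u) with h3 | h3 <;>
        rw [h2, h3] at h1 <;> exact hF2 f hf g hg _ _ h1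
    subst hfg
    have hinj := (hF1 f hf).1
    have key : t = u := by
      rcases arcP_or (H j) (f, t) with h2 | h2 <;> rcases arcP_or (H j) (f, u) with h3 | h3 <;>
        rw [h2, h3] at h <;> obtain ⟨h4, h5⟩ := Prod.mk.inj h <;> have h6 := congrArg Fin.val (hinj h4) <;>
        have h7 := congrArg Fin.val (hinj h5) <;> simp at h6 h7 <;> apply Fin.ext <;> omega
    rw [key]
  have hdis : Disjoint A1 A2 := by
    rw [Finset.disjoint_left]
    rintro ⟨u, v⟩ h1 h2
    rw [hA1, Finset.mem_filter, Finset.mem_product] at h1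
    obtain ⟨⟨h3, h4⟩, -⟩ := h1
    rw [hA2, Finset.mem_image] at h2
    obtain ⟨⟨f, t⟩, hft, h5⟩ := h2
    have hf : f ∈ F := (Finset.mem_product.1 hft).1
    have h6 := arcP_mem (H j) (f, t) ((hF1 f hf).2.1 t)
    rw [h5] at h6
    exact hH.ne j u v h6 k hjk (((hCm _).1 h3).trans ((hCm _).1 h4).symm)
  have hsub : A1 ∪ A2 ⊆ (S ×ˢ S).filter (fun p => M.E p.1 p.2) := by
    rintro ⟨u, v⟩ h1
    rw [Finset.mem_filter, Finset.mem_product]
    rcases Finset.mem_union.1 h1 with h1 | h1
    · rw [hA1, Finset.mem_filter, Finset.mem_product] at h1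
      exact ⟨⟨Finset.mem_union_left _ h1.1.1, Finset.mem_union_left _ h1.1.2⟩, hH.sub k u v h1.2⟩
    · rw [hA2, Finset.mem_image] at h1
      obtain ⟨⟨f, t⟩, hft, h5⟩ := h1
      have hf : f ∈ F := (Finset.mem_product.1 hft).1
      have h6 := arcP_mem (H j) (f, t) ((hF1 f hf).2.1 t)
      rw [h5] at h6
      refine ⟨?_, hH.sub j u v h6⟩
      rcases arcP_or (H j) (f, t) with h2 | h2 <;> rw [h2] at h5 <;> obtain ⟨h7, h8⟩ := Prod.mk.inj h5 <;>
        rw [← h7, ← h8] <;> exact ⟨hin f hf _, hin f hf _⟩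
  have hfin : eIn (H k) C + r * F.card ≤ eIn M.E S := by
    have h1 := Finset.card_le_card hsub
    rw [Finset.card_union_of_disjoint hdis, hA2c] at h1
    unfold eIn
    exact h1
  calc b * (eIn (H k) C + r * F.card) ≤ b * eIn M.E S := Nat.mul_le_mul_left b hfin
    _ ≤ (b + 2) * S.card := hsp S hSs
    _ ≤ (b + 2) * (C.card + (r - 1) * F.card) := Nat.mul_le_mul_left _ hSc

/-- Few vertices meet all `H j`-paths of length `r` whose ends have the same label for the order `k ≠ j` (bad paths).
Proof. Take a maximal family `F` of pairwise vertex-disjoint bad paths (as vertex sets, or as functions on `Fin (r + 1)`),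
`Mn = |F|`, `Z` = all their vertices, `|Z| ≤ (r + 1) Mn`; by maximality every bad path meets `Z`. Claim `K Mn ≤ 4 N`, `N = card V`.
Ends of bad paths have even labels (`ev`). For an even label `i` let `n_i` = size of its class (`≤ s`), `m_i` = number of the paths of
`F` with ends of label `i` (`m_i ≤ n_i` as they are disjoint), `a_i` = number of arcs of `M` inside the class.
`S_i` = class `∪` interiors of these paths: `|S_i| ≤ n_i + (r - 1) m_i ≤ r s`. Inside `S_i` there are the `a_i` arcs and the `r m_i` arcs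
of the paths; the latter are `H j`-arcs, so by `ne` their two ends have different labels: all distinct. By `hsp`:
`b (a_i + r m_i) ≤ (b + 2) (n_i + (r - 1) m_i)`. Sum over `i`: `b (Σ a_i + r Mn) ≤ (b + 2) (N + (r - 1) Mn)`. And
`Σ a_i ≥ eIn (H k) univ ≥ N - N / K` (`tie`, `labeq`, `ev`, `many` for `k`). So `K Mn (b - 2 (r - 1)) ≤ 2 K N + b N ≤ 2 b N`, and
`b - 2 (r - 1) ≥ b / 2`. -/
theorem path_hit {w d : ℕ} {V : Type} [Fintype V] (M : MG w V) (R : Fin d → V → V → Prop) (s K b : ℕ)
    (lab : Fin d → V → ℕ) (H : Fin d → V → V → Prop) (hH : HD M R s K lab H) (j k : Fin d) (hjk : k ≠ j)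
    (r : ℕ) (hr : 1 ≤ r) (hb : 4 * r ≤ b) (hbK : 2 * K ≤ b)
    (hsp : ∀ S : Finset V, S.card ≤ r * s → b * eIn M.E S ≤ (b + 2) * S.card) :
    ∃ Z : Finset V, K * Z.card ≤ 4 * (r + 1) * Fintype.card V ∧
      ∀ c, IsPath (H j) r c → lab k (c 0) = lab k (c r) → ∃ i, i ≤ r ∧ c i ∈ Z := by
  set B : Finset (Fin (r + 1) → V) := Finset.univ.filter (fun f => IsPath (H j) r (exP r f) ∧
    lab k (f 0) = lab k (f (Fin.last r))) with hB
  have hBm : ∀ f, f ∈ B ↔ IsPath (H j) r (exP r f) ∧ lab k (f 0) = lab k (f (Fin.last r)) := fun f => by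
    rw [hB, Finset.mem_filter]
    exact ⟨fun h => h.2, fun h => ⟨Finset.mem_univ _, h⟩⟩
  set 𝓕 : Finset (Finset (Fin (r + 1) → V)) :=
    B.powerset.filter (fun F => ∀ f ∈ F, ∀ g ∈ F, ∀ a b, f a = g b → f = g) with h𝓕
  obtain ⟨F, hF, hmax⟩ := Finset.exists_max_image 𝓕 Finset.card ⟨∅, by
    rw [h𝓕, Finset.mem_filter]
    exact ⟨Finset.mem_powerset.2 (Finset.empty_subset _), fun f hf => absurd hf (Finset.notMem_empty f)⟩⟩
  rw [h𝓕, Finset.mem_filter, Finset.mem_powerset] at hF
  obtain ⟨hFB, hFd⟩ := hF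
  -- the properties of the members
  have hprop : ∀ f ∈ B, Function.Injective f ∧ (∀ t : Fin r, Adj (H j) (f t.castSucc) (f t.succ)) ∧
      lab k (f (Fin.last r)) = lab k (f 0) := by
    intro f hf
    obtain ⟨⟨h1, h2⟩, h3⟩ := (hBm f).1 hf
    refine ⟨?_, ?_, h3.symm⟩
    · intro a c hac
      have ha := a.2
      have hc := c.2
      refine Fin.ext (h2 a c (by omega) (by omega) ?_)
      rw [exP_eq, exP_eq]
      exact hac
    · intro t
      have h4 := h1 t t.2
      rwa [exP_cs, exP_su] at h4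
  have hev : ∀ f ∈ B, Even (lab k (f 0)) := by
    intro f hf
    have h1 := (hprop f hf).2.1 ⟨0, by omega⟩
    have h2 : (⟨0, by omega⟩ : Fin r).castSucc = 0 := rfl
    rw [h2] at h1
    rcases h1 with h1 | h1
    · exact (hH.ev j _ _ h1 k).1
    · exact (hH.ev j _ _ h1 k).2
  -- the sum over the classes
  set I : Finset ℕ := (Finset.univ.image (lab k)).filter Even with hI
  have hIm : ∀ v, Even (lab k v) → lab k v ∈ I := fun v hv => by
    rw [hI, Finset.mem_filter]
    exact ⟨Finset.mem_image_of_mem _ (Finset.mem_univ _), hv⟩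
  have hcl : ∀ i ∈ I, b * (eIn (H k) (Finset.univ.filter (fun v => lab k v = i)) +
      r * (F.filter (fun f => lab k (f 0) = i)).card) ≤
      (b + 2) * ((Finset.univ.filter (fun v => lab k v = i)).card +
        (r - 1) * (F.filter (fun f => lab k (f 0) = i)).card) := by
    intro i hi
    rw [hI, Finset.mem_filter] at hi
    refine pathG_class M R s K b lab H hH j k hjk r hr hsp i hi.2 _ ?_ ?_
    · intro f hf
      rw [Finset.mem_filter] at hf
      obtain ⟨h1, h2, h3⟩ := hprop f (hFB hf.1)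
      exact ⟨h1, h2, hf.2, h3.trans hf.2⟩
    · intro f hf g hg a c h
      exact hFd f (Finset.mem_filter.1 hf).1 g (Finset.mem_filter.1 hg).1 a c h
  have hsumF : ∑ i ∈ I, (F.filter (fun f => lab k (f 0) = i)).card = F.card := by
    refine (Finset.card_eq_sum_card_fiberwise (f := fun f : Fin (r + 1) → V => lab k (f 0)) ?_).symm
    intro f hf
    exact hIm _ (hev f (hFB hf))
  have hsumC : ∑ i ∈ I, (Finset.univ.filter (fun v => lab k v = i)).card ≤ Fintype.card V := by
    rw [← Finset.card_biUnion]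
    · exact Finset.card_le_univ _
    · intro x _ y _ hxy
      rw [Function.onFun, Finset.disjoint_left]
      intro v h1 h2
      exact hxy ((Finset.mem_filter.1 h1).2.symm.trans (Finset.mem_filter.1 h2).2)
  have hsumA : eIn (H k) Finset.univ ≤
      ∑ i ∈ I, eIn (H k) (Finset.univ.filter (fun v => lab k v = i)) := by
    unfold eIn
    refine le_trans (Finset.card_le_card ?_) (Finset.card_biUnion_le)
    rintro ⟨u, v⟩ h1
    rw [Finset.mem_filter] at h1
    have h2 := h1.2
    have h3 := hH.labeq k u v (hH.tie k u v h2)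
    rw [Finset.mem_biUnion]
    refine ⟨lab k u, hIm u (hH.ev k u v h2 k).1, ?_⟩
    rw [Finset.mem_filter, Finset.mem_product, Finset.mem_filter, Finset.mem_filter]
    exact ⟨⟨⟨Finset.mem_univ _, rfl⟩, ⟨Finset.mem_univ _, h3.symm⟩⟩, h2⟩
  have hmain : K * F.card ≤ 4 * Fintype.card V := by
    refine pathG_arith (A := eIn (H k) Finset.univ) hr hb hbK ?_ (hH.many k)
    have h1 := Finset.sum_le_sum hcl
    rw [← Finset.mul_sum, ← Finset.mul_sum, Finset.sum_add_distrib, Finset.sum_add_distrib, ← Finset.mul_sum,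
      ← Finset.mul_sum, hsumF] at h1
    refine le_trans (Nat.mul_le_mul_left b (Nat.add_le_add_right hsumA _)) (h1.trans ?_)
    exact Nat.mul_le_mul_left _ (Nat.add_le_add_right hsumC _)
  refine ⟨F.biUnion (fun f => Finset.univ.image f), ?_, ?_⟩
  · have h1 : (F.biUnion (fun f => Finset.univ.image f)).card ≤ (r + 1) * F.card := by
      refine (Finset.card_biUnion_le).trans ?_
      refine (Finset.sum_le_card_nsmul F _ (r + 1) ?_).trans ?_
      · intro f _
        refine Finset.card_image_le.trans ?_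
        rw [Finset.card_univ, Fintype.card_fin]
      · rw [smul_eq_mul, mul_comm]
    calc K * (F.biUnion (fun f => Finset.univ.image f)).card ≤ K * ((r + 1) * F.card) :=
          Nat.mul_le_mul_left K h1
      _ = (r + 1) * (K * F.card) := by ring
      _ ≤ (r + 1) * (4 * Fintype.card V) := Nat.mul_le_mul_left _ hmain
      _ = 4 * (r + 1) * Fintype.card V := by ring
  · intro c hc hlab
    by_contra hcon
    push Not at hcon
    set f : Fin (r + 1) → V := fun a => c a with hf
    have hex : ∀ i, i ≤ r → exP r f i = c i := by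
      intro i hi
      have := exP_eq f ⟨i, by omega⟩
      exact this
    have hfB : f ∈ B := by
      refine (hBm f).2 ⟨⟨fun i hi => ?_, fun i l hi hl h => ?_⟩, ?_⟩
      · rw [hex i (by omega), hex (i + 1) (by omega)]
        exact hc.1 i hi
      · rw [hex i hi, hex l hl] at h
        exact hc.2 i l hi hl h
      · exact hlab
    have hfZ : ∀ a, ∀ g ∈ F, ∀ b, f a ≠ g b := by
      intro a g hg b h
      refine hcon a (by have := a.2; omega) (Finset.mem_biUnion.2 ⟨g, hg, ?_⟩)
      rw [Finset.mem_image]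
      exact ⟨b, Finset.mem_univ _, h.symm⟩
    have hfF : f ∉ F := fun h => hfZ 0 f h 0 rfl
    have h1 : insert f F ∈ 𝓕 := by
      rw [h𝓕, Finset.mem_filter, Finset.mem_powerset]
      refine ⟨Finset.insert_subset hfB hFB, ?_⟩
      intro g hg h hh a b hab
      rw [Finset.mem_insert] at hg hh
      rcases hg with rfl | hg <;> rcases hh with rfl | hh
      · rfl
      · exact absurd hab (hfZ a h hh b)
      · exact absurd hab.symm (hfZ b g hg a)
      · exact hFd g hg h hh a b hab
    have h2 := hmax _ h1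
    rw [Finset.card_insert_of_notMem hfF] at h2
    omega

end Pool.Agent.BoolWidth
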