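import Pool.Agent.Lib_MP_0cf6e1_g.Defs

set_option autoImplicit false

open scoped Classical

namespace Pool.Agent.BoolWidth

private theorem TreeG_adj_symm {V : Type} {A : V → V → Prop} {u v : V} (h : Adj A u v) : Adj A v u := by
  rcases h with h | h
  · exact Or.inr h
  · exact Or.inl h

/-- any two vertices of `S` are joined by a path inside `S` -/
private def TreeG_PC {V : Type} (A : V → V → Prop) (S : Finset V) : Prop :=
  ∀ x ∈ S, ∀ y ∈ S, ∃ (r : ℕ) (c : ℕ → V), c 0 = x ∧ c r = y ∧ (∀ i, i ≤ r → c i ∈ S) ∧ IsPath A r c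

private theorem TreeG_rev {V : Type} {A : V → V → Prop} {r : ℕ} {c : ℕ → V} (h : IsPath A r c) :
    IsPath A r (fun i => c (r - i)) := by
  refine ⟨fun i hi => ?_, fun i j hi hj hij => ?_⟩
  · have h1 := h.1 (r - (i + 1)) (by omega)
    have e : r - (i + 1) + 1 = r - i := by omega
    rw [e] at h1
    exact TreeG_adj_symm h1
  · have h1 := h.2 (r - i) (r - j) (by omega) (by omega) hij
    omega

private theorem TreeG_single {V : Type} (A : V → V → Prop) (v : V) : TreeG_PC A {v} := by
  intro x hx y hy
  rw [Finset.mem_singleton] at hx hy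
  refine ⟨0, fun _ => v, hx.symm, hy.symm, fun i _ => Finset.mem_singleton_self v, fun i hi => by omega,
    fun i j hi hj _ => by omega⟩

private theorem TreeG_insert {V : Type} {A : V → V → Prop} {S : Finset V} (hS : TreeG_PC A S) {u v : V}
    (hu : u ∈ S) (hv : v ∉ S) (huv : Adj A u v) : TreeG_PC A (insert v S) := by
  -- paths to the new vertex
  have key : ∀ x ∈ insert v S, ∃ (r : ℕ) (c : ℕ → V), c 0 = x ∧ c r = v ∧
      (∀ i, i ≤ r → c i ∈ insert v S) ∧ IsPath A r c := by
    intro x hx
    rcases Finset.mem_insert.1 hx with rfl | hxS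
    · exact ⟨0, fun _ => x, rfl, rfl, fun i _ => hx, fun i hi => by omega, fun i j hi hj _ => by omega⟩
    · obtain ⟨r, c, h0, hr, hin, hp⟩ := hS x hxS u hu
      refine ⟨r + 1, fun i => if i ≤ r then c i else v, by simp [h0], by simp, ?_, ?_, ?_⟩
      · intro i hi
        by_cases h : i ≤ r
        · simp only [h, if_true]; exact Finset.mem_insert_of_mem (hin i h)
        · simp only [h, if_false]; exact Finset.mem_insert_self v S
      · intro i hi
        by_cases h : i + 1 ≤ r
        · have h' : i ≤ r := by omega
          simp only [h, h', if_true]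
          exact hp.1 i (by omega)
        · have h' : i = r := by omega
          subst h'
          simp only [le_refl, if_true, h, if_false]
          rw [hr]; exact huv
      · intro i j hi hj hij
        by_cases h : i ≤ r <;> by_cases h' : j ≤ r
        · simp only [h, h', if_true] at hij
          exact hp.2 i j h h' hij
        · simp only [h, h', if_true, if_false] at hij
          exact absurd (hij ▸ hin i h) hv
        · simp only [h, h', if_true, if_false] at hij
          exact absurd (hij ▸ hin j h') hv
        · omega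
  intro x hx y hy
  rcases Finset.mem_insert.1 hy with rfl | hyS
  · exact key x hx
  · rcases Finset.mem_insert.1 hx with rfl | hxS
    · obtain ⟨r, c, h0, hr, hin, hp⟩ := key y hy
      refine ⟨r, fun i => c (r - i), by simpa using hr, by simpa using h0, fun i _ => hin _ (by omega),
        TreeG_rev hp⟩
    · obtain ⟨r, c, h0, hr, hin, hp⟩ := hS x hxS y hyS
      exact ⟨r, c, h0, hr, fun i hi => Finset.mem_insert_of_mem (hin i hi), hp⟩

/-- a path connected set of `w + 1` vertices contains a short path between two vertices of one chain -/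
private theorem TreeG_big {w : ℕ} {V : Type} (M : MG w V) (A : V → V → Prop) {S : Finset V}
    (hS : TreeG_PC A S) (hc : S.card = w + 1) :
    ∃ (r : ℕ) (c : ℕ → V), 1 ≤ r ∧ r ≤ w ∧ IsPath A r c ∧ M.ch (c 0) = M.ch (c r) := by
  obtain ⟨x, hx, y, hy, hxy, hch⟩ := Finset.exists_ne_map_eq_of_card_lt_of_maps_to
    (s := S) (t := (Finset.univ : Finset (Fin w))) (f := M.ch)
    (by rw [Finset.card_univ, Fintype.card_fin]; omega) (fun _ _ => Finset.mem_coe.2 (Finset.mem_univ _))
  obtain ⟨r, c, h0, hr, hin, hp⟩ := hS x hx y hy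
  have hle : r + 1 ≤ S.card := by
    rw [← Finset.card_range (r + 1)]
    refine Finset.card_le_card_of_injOn c (fun i hi => ?_) (fun i hi j hj hij => ?_)
    · have := Finset.mem_range.1 (Finset.mem_coe.1 hi)
      exact hin i (by omega)
    · have h1 := Finset.mem_range.1 (Finset.mem_coe.1 hi)
      have h2 := Finset.mem_range.1 (Finset.mem_coe.1 hj)
      exact hp.2 i j (by omega) (by omega) hij
  refine ⟨r, c, ?_, by omega, hp, by rw [h0, hr]; exact hch⟩
  by_contra hlt
  have : r = 0 := by omega
  subst this
  exact hxy (h0.symm.trans hr)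

/-- number of arcs of a set which splits into two parts without arcs between them -/
private theorem TreeG_split {V : Type} (A : V → V → Prop) (U C : Finset V)
    (hC : ∀ u ∈ C, ∀ v, Adj A u v → v ∈ C) : eIn A U ≤ eIn A C + eIn A (U \ C) := by
  unfold eIn
  refine le_trans (Finset.card_le_card ?_) (Finset.card_union_le _ _)
  intro p hp
  rw [Finset.mem_filter, Finset.mem_product] at hp
  obtain ⟨⟨h1, h2⟩, h3⟩ := hp
  rw [Finset.mem_union, Finset.mem_filter, Finset.mem_filter, Finset.mem_product, Finset.mem_product,
    Finset.mem_sdiff, Finset.mem_sdiff]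
  by_cases h : p.1 ∈ C
  · exact Or.inl ⟨⟨h, hC _ h _ (Or.inl h3)⟩, h3⟩
  · refine Or.inr ⟨⟨⟨h1, h⟩, h2, fun h4 => h (hC _ h4 _ (Or.inr h3))⟩, h3⟩

/-- A dense set of arcs contains a short path between two vertices of one chain. Otherwise: let `G` be the simple graph of `A`. Each
connected component has at most `w` vertices: else grow a connected set `S` of exactly `w + 1` vertices in it; two of them, `x ≠ y`, are in
one chain and are joined by a path inside `S`, which has length `≤ w`. By `forest_eIn` (`C.card ≤ w ≤ g`) `eIn A C + 1 ≤ C.card` for each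
component `C`, so `w eIn A C ≤ (w - 1) C.card`, and `w eIn A univ ≤ (w - 1) card V` by summation, against `hmany` with `K > w`. -/
theorem tt_path {w : ℕ} {V : Type} [Fintype V] (M : MG w V) (A : V → V → Prop) (hA : ∀ u v, A u v → M.E u v)
    (g K : ℕ) (hg : Gir M.E g) (hgw : w + 1 ≤ g) (hK : w < K) (hN : 0 < Fintype.card V)
    (hmany : K * Fintype.card V ≤ K * eIn A Finset.univ + Fintype.card V) :
    ∃ (r : ℕ) (c : ℕ → V), 1 ≤ r ∧ r ≤ w ∧ IsPath A r c ∧ M.ch (c 0) = M.ch (c r) := by
  by_contra hno
  -- girth and asymmetry of `A`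
  have hadj : ∀ u v, Adj A u v → Adj M.E u v := fun u v h => h.imp (hA u v) (hA v u)
  have hgA : Gir A g := by
    intro c l h1 h2 hrw
    exact hg c l h1 h2 ⟨fun i hi => hadj _ _ (hrw.1 i hi), hrw.2⟩
  have hasym : Asym A := fun u v h1 h2 =>
    M.irr u (M.tr u v u (M.elt _ _ (hA _ _ h1)) (M.elt _ _ (hA _ _ h2)))
  obtain ⟨v0⟩ : Nonempty V := Fintype.card_pos_iff.1 hN
  have hw : 1 ≤ w := by
    have := (M.ch v0).isLt
    omega
  -- components
  have hcomp : ∀ v, ∃ C : Finset V, v ∈ C ∧ C.card ≤ w ∧ TreeG_PC A C ∧
      ∀ u ∈ C, ∀ x, Adj A u x → x ∈ C := by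
    intro v
    set F : Finset (Finset V) := Finset.univ.filter fun C => v ∈ C ∧ C.card ≤ w ∧ TreeG_PC A C with hF
    have hne : F.Nonempty := ⟨{v}, by
      rw [hF, Finset.mem_filter]
      exact ⟨Finset.mem_univ _, Finset.mem_singleton_self v, by simpa using hw, TreeG_single A v⟩⟩
    obtain ⟨C, hCF, hmax⟩ := Finset.exists_max_image F Finset.card hne
    rw [hF, Finset.mem_filter] at hCF
    obtain ⟨-, hvC, hCw, hPC⟩ := hCF
    refine ⟨C, hvC, hCw, hPC, fun u hu x hux => ?_⟩
    by_contra hx
    have hins := TreeG_insert hPC hu hx hux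
    have hcard : (insert x C).card = C.card + 1 := Finset.card_insert_of_notMem hx
    rcases Nat.lt_or_ge C.card w with h | h
    · have := hmax (insert x C) (by
        rw [hF, Finset.mem_filter]
        exact ⟨Finset.mem_univ _, Finset.mem_insert_of_mem hvC, by omega, hins⟩)
      omega
    · exact hno (TreeG_big M A hins (by omega))
  -- summation over the components
  have hsum : ∀ n : ℕ, ∀ U : Finset V, U.card = n → (∀ u ∈ U, ∀ x, Adj A u x → x ∈ U) →
      w * eIn A U + U.card ≤ w * U.card := by
    intro n
    induction n using Nat.strong_induction_on with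
    | _ n ih =>
      intro U hU hcl
      rcases Finset.eq_empty_or_nonempty U with rfl | ⟨v, hv⟩
      · simp [eIn]
      · obtain ⟨C, hvC, hCw, hPC, hCcl⟩ := hcomp v
        have hCU : C ⊆ U := by
          intro y hy
          obtain ⟨r, c, h0, hr, hin, hp⟩ := hPC v hvC y hy
          have : ∀ i, i ≤ r → c i ∈ U := by
            intro i
            induction i with
            | zero => intro _; rw [h0]; exact hv
            | succ i ihi => intro hi; exact hcl _ (ihi (by omega)) _ (hp.1 i (by omega))
          rw [← hr]; exact this r le_rfl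
        have h1 : eIn A C + 1 ≤ C.card := forest_eIn A hasym g hgA C ⟨v, hvC⟩ (by omega)
        have hcardC : 0 < C.card := Finset.card_pos.2 ⟨v, hvC⟩
        have hcard : (U \ C).card = U.card - C.card := Finset.card_sdiff_of_subset hCU
        have hle : C.card ≤ U.card := Finset.card_le_card hCU
        have h2 := ih (U \ C).card (by omega) (U \ C) rfl (by
          intro u hu x hux
          rw [Finset.mem_sdiff] at hu ⊢
          exact ⟨hcl _ hu.1 _ hux, fun hx => hu.2 (hCcl _ hx _ (TreeG_adj_symm hux))⟩)
        have h3 := TreeG_split A U C hCcl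
        have h4 : w * (eIn A C + 1) ≤ w * C.card := Nat.mul_le_mul_left w h1
        have h5 : w * eIn A U ≤ w * (eIn A C + eIn A (U \ C)) := Nat.mul_le_mul_left w h3
        have h6 : w * (U \ C).card + w * C.card = w * U.card := by
          rw [← Nat.mul_add]; congr 1; omega
        rw [Nat.mul_add] at h4 h5
        omega
  have h1 := hsum _ Finset.univ rfl (fun _ _ x _ => Finset.mem_univ x)
  rw [Finset.card_univ] at h1
  set e := eIn A Finset.univ
  set N := Fintype.card V
  have h2 : w * (K * N) ≤ w * (K * e + N) := Nat.mul_le_mul_left w hmany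
  have h3 : K * (w * e + N) ≤ K * (w * N) := Nat.mul_le_mul_left K h1
  have h4 : w * N < K * N := Nat.mul_lt_mul_of_pos_right hK hN
  nlinarith

end Pool.Agent.BoolWidth
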