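import Pool.Agent.Lib_MP_0cf6e1_g.CardG

set_option autoImplicit false

open scoped Classical

namespace Pool.Agent.BoolWidth

theorem win_mono {V : Type} [Fintype V] (lev : V → ℕ) (R : V → V → Prop) (t0 Λ Λ' β : ℕ) (h : Λ' ≤ Λ)
    (hW : Win lev R t0 Λ β) : Win lev R t0 Λ' β := by
  refine ⟨fun S hS t t' h1 h2 h3 h4 => hW.step S hS t t' h1 (by omega) h3 (by omega), ?_⟩
  refine (Finset.card_le_card ?_).trans hW.block
  intro v hv
  rw [Finset.mem_filter] at hv ⊢
  exact ⟨hv.1, ⟨hv.2.1.1, by have := hv.2.1.2; omega⟩, hv.2.2⟩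

/-- a window of levels with few exceptional vertices: split `[0, T)` in `T / Λ` blocks of `Λ` levels -/
theorem window {V : Type} [Fintype V] (lev : V → ℕ) (Bd : Finset V) (T m Λ c : ℕ) (hΛ : 1 ≤ Λ) (hT : Λ ≤ T)
    (h : 2 * c * Λ * Bd.card ≤ T * m) :
    ∃ t0, t0 + Λ ≤ T ∧ c * (Bd.filter (fun v => t0 ≤ lev v ∧ lev v < t0 + Λ)).card ≤ m := by
  by_contra hcon
  push Not at hcon
  have hq : T < (T / Λ + 1) * Λ := by
    have e1 := Nat.div_add_mod T Λ
    have e2 := Nat.mod_lt T hΛ
    nlinarith [e1, e2]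
  have hq1 : 1 ≤ T / Λ := (Nat.one_le_div_iff hΛ).2 hT
  have hblk : ∀ i ∈ Finset.range (T / Λ), m + 1 ≤ c * (Bd.filter (fun v => lev v / Λ = i)).card := by
    intro i hi
    rw [Finset.mem_range] at hi
    have h1 : i * Λ + Λ ≤ T := by
      calc i * Λ + Λ = (i + 1) * Λ := by ring
        _ ≤ T / Λ * Λ := Nat.mul_le_mul_right _ hi
        _ ≤ T := Nat.div_mul_le_self T Λ
    have h2 := hcon (i * Λ) h1
    have h3 : Bd.filter (fun v => i * Λ ≤ lev v ∧ lev v < i * Λ + Λ) =
        Bd.filter (fun v => lev v / Λ = i) := by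
      refine Finset.filter_congr fun v _ => ?_
      rw [Nat.div_eq_iff hΛ]
      omega
    rw [h3] at h2
    exact h2
  have hsum : ∑ i ∈ Finset.range (T / Λ), (Bd.filter (fun v => lev v / Λ = i)).card ≤ Bd.card := by
    rw [Finset.sum_card_fiberwise_eq_card_filter]
    exact Finset.card_filter_le _ _
  have h4 : T / Λ * (m + 1) ≤ c * Bd.card := by
    calc T / Λ * (m + 1) = ∑ _i ∈ Finset.range (T / Λ), (m + 1) := by
          rw [Finset.sum_const, Finset.card_range, smul_eq_mul]
      _ ≤ ∑ i ∈ Finset.range (T / Λ), c * (Bd.filter (fun v => lev v / Λ = i)).card :=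
          Finset.sum_le_sum hblk
      _ = c * ∑ i ∈ Finset.range (T / Λ), (Bd.filter (fun v => lev v / Λ = i)).card := by
          rw [Finset.mul_sum]
      _ ≤ c * Bd.card := Nat.mul_le_mul_left _ hsum
  have h5 : T ≤ 2 * Λ * (T / Λ) := by nlinarith
  have h6 : T * (m + 1) ≤ 2 * Λ * (T / Λ) * (m + 1) := Nat.mul_le_mul_right _ h5
  have h7 : 2 * Λ * (T / Λ * (m + 1)) ≤ 2 * Λ * (c * Bd.card) := Nat.mul_le_mul_left _ h4
  have h8 : 2 * Λ * (c * Bd.card) = 2 * c * Λ * Bd.card := by ring
  have h9 : 2 * Λ * (T / Λ) * (m + 1) = 2 * Λ * (T / Λ * (m + 1)) := by ring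
  have h10 : T * (m + 1) = T * m + T := by ring
  omega

private theorem windowG_key {V : Type} [Fintype V] (lev : V → ℕ) (A : V → V → Prop)
    (hlev : ∀ u v, A u v → lev v = lev u + 1) (hin : ∀ u u' v, A u v → A u' v → u = u')
    (S : V → Prop) (hS : ∀ u v, A u v → (S u ↔ S v)) (t : ℕ) :
    (Finset.univ.filter (fun v => lev v = t ∧ S v)).card ≤
      (Finset.univ.filter (fun v => lev v = t + 1 ∧ S v)).card +
        (Finset.univ.filter (fun u => lev u = t ∧ ∀ v, ¬ A u v)).card := by
  have h1 : Finset.univ.filter (fun v => lev v = t ∧ S v) ⊆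
      Finset.univ.filter (fun v => (lev v = t ∧ S v) ∧ ∃ v', A v v') ∪
        Finset.univ.filter (fun u => lev u = t ∧ ∀ v, ¬ A u v) := by
    intro v hv
    rw [Finset.mem_filter] at hv
    rw [Finset.mem_union, Finset.mem_filter, Finset.mem_filter]
    by_cases h : ∃ v', A v v'
    · exact Or.inl ⟨hv.1, hv.2, h⟩
    · push Not at h
      exact Or.inr ⟨hv.1, hv.2.1, h⟩
  refine (Finset.card_le_card h1).trans ((Finset.card_union_le _ _).trans (Nat.add_le_add_right ?_ _))
  refine Finset.card_le_card_of_injOn (fun u => if h : ∃ v', A u v' then h.choose else u) ?_ ?_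
  · intro u hu
    rw [Finset.mem_coe, Finset.mem_filter] at hu
    obtain ⟨-, ⟨h2, h3⟩, h4⟩ := hu
    have h5 := h4.choose_spec
    rw [Finset.mem_coe, Finset.mem_filter]
    simp only [dif_pos h4]
    refine ⟨Finset.mem_univ _, ?_, (hS _ _ h5).1 h3⟩
    rw [hlev _ _ h5, h2]
  · intro u hu u' hu' he
    rw [Finset.mem_coe, Finset.mem_filter] at hu hu'
    simp only [dif_pos hu.2.2, dif_pos hu'.2.2] at he
    have h5 := hu.2.2.choose_spec
    have h6 := hu'.2.2.choose_spec
    rw [← he] at h6
    exact hin _ _ _ h5 h6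

private theorem windowG_level {w T m : ℕ} {V : Type} [Fintype V] (M : MG w V) (lev : V → ℕ)
    (hG : Graded M lev T m) (t : ℕ) (ht : t < T) :
    (Finset.univ.filter (fun v => lev v = t)).card = w * m := by
  have h1 := Finset.card_eq_sum_card_fiberwise (f := M.ch) (s := Finset.univ.filter (fun v => lev v = t))
    (t := Finset.univ) (fun v _ => Finset.mem_coe.2 (Finset.mem_univ _))
  rw [h1]
  have h2 : ∀ c ∈ (Finset.univ : Finset (Fin w)),
      ((Finset.univ.filter (fun v => lev v = t)).filter (fun v => M.ch v = c)).card = m := by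
    intro c _
    rw [← hG.cell c t ht, Finset.filter_filter]
    congr 1
    refine Finset.filter_congr fun v _ => ?_
    exact And.comm
  rw [Finset.sum_congr rfl h2, Finset.sum_const, Finset.card_univ, Fintype.card_fin, smul_eq_mul]

private theorem windowG_compl {V : Type} [Fintype V] (lev : V → ℕ) (S : V → Prop) (t : ℕ) :
    (Finset.univ.filter (fun v => lev v = t ∧ S v)).card +
      (Finset.univ.filter (fun v => lev v = t ∧ ¬ S v)).card =
        (Finset.univ.filter (fun v => lev v = t)).card := by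
  rw [← Finset.card_filter_add_card_filter_not (s := Finset.univ.filter (fun v => lev v = t)) (p := S),
    Finset.filter_filter, Finset.filter_filter]

/-- a partial injection raising the level by one transports the sets closed under it -/
theorem win_step {w T m : ℕ} {V : Type} [Fintype V] (M : MG w V) (lev : V → ℕ) (hG : Graded M lev T m)
    (A : V → V → Prop) (hlev : ∀ u v, A u v → lev v = lev u + 1) (hin : ∀ u u' v, A u v → A u' v → u = u')
    (hout : ∀ u v v', A u v → A u v' → v = v') (t0 Λ β : ℕ) (hT : t0 + Λ ≤ T)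
    (hβ : (Finset.univ.filter (fun u => (t0 ≤ lev u ∧ lev u < t0 + Λ) ∧ ∀ v, ¬ A u v)).card ≤ β)
    (S : V → Prop) (hS : ∀ u v, A u v → (S u ↔ S v)) (t t' : ℕ) (h1 : t0 ≤ t) (h2 : t < t0 + Λ) (h3 : t0 ≤ t')
    (h4 : t' < t0 + Λ) :
    (Finset.univ.filter (fun v => lev v = t ∧ S v)).card ≤ (Finset.univ.filter (fun v => lev v = t' ∧ S v)).card + β := by
  have _ := hout
  -- both directions, with the exceptional vertices of the levels in between
  have main : ∀ n s : ℕ, t0 ≤ s → s + n < t0 + Λ →
      ((Finset.univ.filter (fun v => lev v = s ∧ S v)).card ≤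
        (Finset.univ.filter (fun v => lev v = s + n ∧ S v)).card +
          (Finset.univ.filter (fun u => (s ≤ lev u ∧ lev u < s + n) ∧ ∀ v, ¬ A u v)).card) ∧
      ((Finset.univ.filter (fun v => lev v = s + n ∧ S v)).card ≤
        (Finset.univ.filter (fun v => lev v = s ∧ S v)).card +
          (Finset.univ.filter (fun u => (s ≤ lev u ∧ lev u < s + n) ∧ ∀ v, ¬ A u v)).card) := by
    intro n
    induction n with
    | zero =>
      intro s _ _
      rw [Nat.add_zero]
      exact ⟨Nat.le_add_right _ _, Nat.le_add_right _ _⟩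
    | succ n ih =>
      intro s hs hsn
      obtain ⟨i1, i2⟩ := ih s hs (by omega)
      have k1 := windowG_key lev A hlev hin S hS (s + n)
      have k2 : (Finset.univ.filter (fun v => lev v = s + n ∧ ¬ S v)).card ≤
          (Finset.univ.filter (fun v => lev v = s + n + 1 ∧ ¬ S v)).card +
            (Finset.univ.filter (fun u => lev u = s + n ∧ ∀ v, ¬ A u v)).card := by
        have k := windowG_key lev A hlev hin (fun v => ¬ S v) (fun u v huv => not_congr (hS u v huv)) (s + n)
        convert k
      have c1 := windowG_compl lev S (s + n)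
      have c2 := windowG_compl lev S (s + n + 1)
      have l1 := windowG_level M lev hG (s + n) (by omega)
      have l2 := windowG_level M lev hG (s + n + 1) (by omega)
      have hb : (Finset.univ.filter (fun u => (s ≤ lev u ∧ lev u < s + n) ∧ ∀ v, ¬ A u v)).card +
          (Finset.univ.filter (fun u => lev u = s + n ∧ ∀ v, ¬ A u v)).card ≤
            (Finset.univ.filter (fun u => (s ≤ lev u ∧ lev u < s + (n + 1)) ∧ ∀ v, ¬ A u v)).card := by
        rw [← Finset.card_union_of_disjoint]
        · refine Finset.card_le_card fun u hu => ?_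
          rw [Finset.mem_union, Finset.mem_filter, Finset.mem_filter] at hu
          rw [Finset.mem_filter]
          rcases hu with ⟨hu0, hu1, hu2⟩ | ⟨hu0, hu1, hu2⟩
          · exact ⟨hu0, ⟨hu1.1, by omega⟩, hu2⟩
          · exact ⟨hu0, ⟨by omega, by omega⟩, hu2⟩
        · rw [Finset.disjoint_left]
          intro u hu hu'
          rw [Finset.mem_filter] at hu hu'
          omega
      have e : s + (n + 1) = s + n + 1 := by omega
      rw [e] at hb ⊢
      constructor
      · omega
      · omega
  have hsub : ∀ s n : ℕ, t0 ≤ s → s + n < t0 + Λ →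
      (Finset.univ.filter (fun u => (s ≤ lev u ∧ lev u < s + n) ∧ ∀ v, ¬ A u v)).card ≤ β := by
    intro s n hs hsn
    refine (Finset.card_le_card fun u hu => ?_).trans hβ
    rw [Finset.mem_filter] at hu ⊢
    exact ⟨hu.1, ⟨by omega, by omega⟩, hu.2.2⟩
  rcases le_total t t' with h | h
  · obtain ⟨n, rfl⟩ := Nat.exists_eq_add_of_le h
    have a1 := (main n t h1 h4).1
    have a2 := hsub t n h1 h4
    omega
  · obtain ⟨n, rfl⟩ := Nat.exists_eq_add_of_le h
    have a1 := (main n t' h3 h2).2
    have a2 := hsub t' n h3 h2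
    omega

end Pool.Agent.BoolWidth
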